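import Pool.Agent.Helper85.BP.Defs
import Pool.Agent.Helper72.BAM.KE2

/-!
# Module R4b of MP_3dd6d4_an (all p): decay of the low pass kernels
-/

set_option autoImplicit false

open MeasureTheory Complex FourierTransform Filter Topology
open scoped ENNReal NNReal ComplexConjugate

noncomputable section

namespace Helper85.BP.P

open Helper72.BA Helper85.BP

/-- `1 + |w|² ≤ 2 (1 + |y|²) (1 + |w - y|²)` -/
theorem r4b_peetre (w y v : ℂ) (hv : ‖w - y‖ ≤ ‖v‖) :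
    1 + ‖w‖ ^ 2 ≤ 2 * ((1 + ‖y‖ ^ 2) * (1 + ‖v‖ ^ 2)) := by
  have h1 : ‖w‖ ≤ ‖y‖ + ‖v‖ := by
    calc ‖w‖ = ‖y + (w - y)‖ := by rw [add_sub_cancel]
      _ ≤ ‖y‖ + ‖w - y‖ := norm_add_le _ _
      _ ≤ ‖y‖ + ‖v‖ := by linarith
  have h2 : ‖w‖ ^ 2 ≤ (‖y‖ + ‖v‖) ^ 2 := pow_le_pow_left₀ (norm_nonneg _) h1 2
  nlinarith [sq_nonneg (‖y‖ - ‖v‖), mul_nonneg (sq_nonneg ‖y‖) (sq_nonneg ‖v‖)]

theorem r4b_schwartz (s : SchwartzMap ℂ ℂ) (N : ℕ) : ∃ C : ℝ, 0 < C ∧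
    (∀ w : ℂ, ‖s w‖ ≤ C * ((1 + ‖w‖ ^ 2) ^ N)⁻¹) ∧
    ∀ w v : ℂ, ‖s w - s (w - v)‖ ≤
      C * ‖v‖ * (1 + ‖v‖ ^ 2) ^ N * ((1 + ‖w‖ ^ 2) ^ N)⁻¹ := by
  have h0 := fun x : ℂ => SchwartzMap.one_add_le_sup_seminorm_apply (𝕜 := ℝ) (m := (2 * N, 1))
    (k := 2 * N) (n := 0) le_rfl (by norm_num) s x
  have h1 := fun x : ℂ => SchwartzMap.one_add_le_sup_seminorm_apply (𝕜 := ℝ) (m := (2 * N, 1))
    (k := 2 * N) (n := 1) le_rfl le_rfl s x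
  set B : ℝ := 2 ^ (2 * N, 1).1 * (Finset.Iic (2 * N, 1)).sup
    (fun m => SchwartzMap.seminorm ℝ m.1 m.2) s with hB
  have hpow : ∀ x : ℂ, (1 + ‖x‖ ^ 2) ^ N ≤ (1 + ‖x‖) ^ (2 * N) := by
    intro x
    rw [pow_mul]
    apply pow_le_pow_left₀ (by positivity)
    nlinarith [norm_nonneg x]
  have hBn : ∀ x : ℂ, 0 ≤ B := fun x => le_trans (by positivity) (h0 x)
  have a0 : ∀ x : ℂ, (1 + ‖x‖ ^ 2) ^ N * ‖s x‖ ≤ B := by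
    intro x
    have := h0 x
    rw [norm_iteratedFDeriv_zero] at this
    exact (mul_le_mul_of_nonneg_right (hpow x) (norm_nonneg _)).trans this
  have a1 : ∀ x : ℂ, (1 + ‖x‖ ^ 2) ^ N * ‖fderiv ℝ s x‖ ≤ B := by
    intro x
    have := h1 x
    rw [norm_iteratedFDeriv_one] at this
    exact (mul_le_mul_of_nonneg_right (hpow x) (norm_nonneg _)).trans this
  refine ⟨2 ^ N * B + 1, by have := hBn 0; positivity, fun w => ?_, fun w v => ?_⟩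
  · rw [← div_eq_mul_inv, le_div_iff₀ (by positivity), mul_comm]
    refine (a0 w).trans ?_
    have h2 : (1:ℝ) ≤ 2 ^ N := one_le_pow₀ (by norm_num)
    nlinarith [hBn 0]
  · have hb : ∀ y ∈ segment ℝ (w - v) w, ‖fderiv ℝ s y‖ ≤
        2 ^ N * B * (1 + ‖v‖ ^ 2) ^ N * ((1 + ‖w‖ ^ 2) ^ N)⁻¹ := by
      intro y hy
      have hwy : ‖w - y‖ ≤ ‖v‖ := by
        obtain ⟨a, b, ha, hb, hab, rfl⟩ := hy
        have e : w - (a • (w - v) + b • w) = a • v := by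
          have : w = (a + b) • w := by rw [hab, one_smul]
          calc w - (a • (w - v) + b • w) = (a + b) • w - (a • (w - v) + b • w) := by rw [← this]
            _ = a • v := by module
        rw [e, norm_smul, Real.norm_of_nonneg ha]
        exact mul_le_of_le_one_left (norm_nonneg _) (by linarith)
      have h2 := r4b_peetre w y v hwy
      have h3 : (1 + ‖w‖ ^ 2) ^ N ≤ 2 ^ N * (1 + ‖v‖ ^ 2) ^ N * (1 + ‖y‖ ^ 2) ^ N := by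
        calc (1 + ‖w‖ ^ 2) ^ N ≤ (2 * ((1 + ‖y‖ ^ 2) * (1 + ‖v‖ ^ 2))) ^ N :=
              pow_le_pow_left₀ (by positivity) h2 N
          _ = _ := by
            rw [mul_pow, mul_pow]
            ring
      rw [← div_eq_mul_inv, le_div_iff₀ (by positivity)]
      calc ‖fderiv ℝ s y‖ * (1 + ‖w‖ ^ 2) ^ N ≤
            ‖fderiv ℝ s y‖ * (2 ^ N * (1 + ‖v‖ ^ 2) ^ N * (1 + ‖y‖ ^ 2) ^ N) := by gcongr
        _ = (2 ^ N * (1 + ‖v‖ ^ 2) ^ N) * ((1 + ‖y‖ ^ 2) ^ N * ‖fderiv ℝ s y‖) := by ring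
        _ ≤ (2 ^ N * (1 + ‖v‖ ^ 2) ^ N) * B := by gcongr; exact a1 y
        _ = 2 ^ N * B * (1 + ‖v‖ ^ 2) ^ N := by ring
    have h2 := Convex.norm_image_sub_le_of_norm_fderiv_le (𝕜 := ℝ) (f := s)
      (fun y _ => s.differentiableAt) hb (convex_segment (w - v) w)
      (left_mem_segment ℝ _ _) (right_mem_segment ℝ _ _)
    rw [sub_sub_cancel] at h2
    refine h2.trans ?_
    have h3 : 0 ≤ (1 + ‖v‖ ^ 2) ^ N * ((1 + ‖w‖ ^ 2) ^ N)⁻¹ * ‖v‖ := by positivity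
    nlinarith

theorem kap_decay (N : ℕ) : ∃ C : ℝ, 0 < C ∧ ∀ i : ℤ, ∀ z u : ℂ,
    ‖kap i z‖ ≤ C * gamN N ((2:ℝ) ^ (-i)) z ∧
    ‖kap i z - kap i (z - u)‖ ≤
      C * ((2:ℝ) ^ i * ‖u‖) * (1 + ((2:ℝ) ^ i * ‖u‖) ^ 2) ^ N * gamN N ((2:ℝ) ^ (-i)) z := by
  obtain ⟨s, hs⟩ := Helper72.BA.P.ker_kap 0
  obtain ⟨C, hC, h0, h1⟩ := r4b_schwartz s N
  refine ⟨C, hC, fun i z u => ?_⟩
  have hn : ∀ x : ℂ, ‖(2:ℂ) ^ i * x‖ = (2:ℝ) ^ i * ‖x‖ := by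
    intro x
    rw [norm_mul, norm_zpow]
    norm_num
  have hn2 : ‖(2:ℂ) ^ (2 * i)‖ = (2:ℝ) ^ (2 * i) := by
    rw [norm_zpow]
    norm_num
  have e1 : (((2:ℝ) ^ (-i)) ^ 2)⁻¹ = (2:ℝ) ^ (2 * i) := by
    rw [← zpow_natCast, ← zpow_mul, ← zpow_neg]
    congr 1
    push_cast
    ring
  have e2 : ‖z‖ ^ 2 / ((2:ℝ) ^ (-i)) ^ 2 = ((2:ℝ) ^ i * ‖z‖) ^ 2 := by
    rw [zpow_neg, inv_pow, div_inv_eq_mul, mul_pow, mul_comm]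
  have eg : gamN N ((2:ℝ) ^ (-i)) z = (2:ℝ) ^ (2 * i) * ((1 + ‖(2:ℂ) ^ i * z‖ ^ 2) ^ N)⁻¹ := by
    rw [gamN, e1, e2, hn]
  rw [eg]
  constructor
  · rw [Helper72.BA.P.kap_scale, norm_mul, hs, hn2]
    calc (2:ℝ) ^ (2 * i) * ‖s ((2:ℂ) ^ i * z)‖ ≤
        (2:ℝ) ^ (2 * i) * (C * ((1 + ‖(2:ℂ) ^ i * z‖ ^ 2) ^ N)⁻¹) :=
          mul_le_mul_of_nonneg_left (h0 _) (by positivity)
      _ = _ := by ring
  · rw [Helper72.BA.P.kap_scale i z, Helper72.BA.P.kap_scale i (z - u), ← mul_sub, norm_mul, hs,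
      hn2, mul_sub]
    have h2 := h1 ((2:ℂ) ^ i * z) ((2:ℂ) ^ i * u)
    rw [← hn u]
    calc (2:ℝ) ^ (2 * i) * ‖s ((2:ℂ) ^ i * z) - s ((2:ℂ) ^ i * z - (2:ℂ) ^ i * u)‖ ≤
        (2:ℝ) ^ (2 * i) * (C * ‖(2:ℂ) ^ i * u‖ * (1 + ‖(2:ℂ) ^ i * u‖ ^ 2) ^ N *
          ((1 + ‖(2:ℂ) ^ i * z‖ ^ 2) ^ N)⁻¹) :=
          mul_le_mul_of_nonneg_left h2 (by positivity)
      _ = _ := by ring

end Helper85.BP.P
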