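import Mathlib

set_option autoImplicit false

open Finset Polynomial

namespace Pool.Agent.Helper1.Binom

lemma two_mul_one_add_pow {R : Type*} [CommRing R] (u : R) (m : ℕ) :
    ∃ c : R, 2 * (1 + u) ^ m = 2 + 2 * m * u + m * (m - 1) * u ^ 2 + u ^ 3 * c := by
  induction m with
  | zero => exact ⟨0, by simp⟩
  | succ n ih =>
    obtain ⟨c, hc⟩ := ih
    refine ⟨c + n * (n - 1) + u * c, ?_⟩
    rw [pow_succ, ← mul_assoc, hc]
    push_cast
    ring

lemma single_expand {R : Type*} [CommRing R] (P x a h : R) (m : ℕ) (hx : (m : R) * x = 1)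
    (hh : 2 * h = 1) :
    ∃ c : R, (1 - P * x * a) ^ m = (1 - P * a) + P ^ 2 * (h * (1 - x) * a ^ 2) + P ^ 3 * c := by
  obtain ⟨c, hc⟩ := two_mul_one_add_pow (-(P * x * a)) m
  refine ⟨-(h * (x * a) ^ 3 * c), ?_⟩
  have e1 : (1 - P * x * a) ^ m = h * (2 * (1 + -(P * x * a)) ^ m) := by
    rw [← mul_assoc, mul_comm h 2, hh, one_mul]; ring
  rw [e1, hc]
  have e2 : h * (2 + 2 * (m : R) * -(P * x * a) + m * (m - 1) * (-(P * x * a)) ^ 2
      + (-(P * x * a)) ^ 3 * c)
      = (2 * h) * 1 - (2 * h) * (m * x) * P * a + h * ((m * x) * (m * x - x)) * P ^ 2 * a ^ 2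
        - P ^ 3 * (h * (x * a) ^ 3 * c) := by ring
  rw [e2, hh, hx]
  ring

lemma prod_one_sub {R ι : Type*} [CommRing R] [DecidableEq ι] (P : R) (a : ι → R) (J : Finset ι) :
    ∃ d : R, ∏ j ∈ J, (1 - P * a j) = 1 + P * d := by
  induction J using Finset.induction_on with
  | empty => exact ⟨0, by simp⟩
  | insert i s hi ih =>
    obtain ⟨d, hd⟩ := ih
    refine ⟨d - a i - P * a i * d, ?_⟩
    rw [prod_insert hi, hd]; ring

lemma prod_expand {R ι : Type*} [CommRing R] [DecidableEq ι] (P x h : R) (m : ℕ) (a : ι → R)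
    (hx : (m : R) * x = 1) (hh : 2 * h = 1) (J : Finset ι) :
    ∃ c : R, ∏ j ∈ J, (1 - P * x * a j) ^ m
      = ∏ j ∈ J, (1 - P * a j) + P ^ 2 * (h * (1 - x) * ∑ j ∈ J, a j ^ 2) + P ^ 3 * c := by
  induction J using Finset.induction_on with
  | empty => exact ⟨0, by simp⟩
  | insert i s hi ih =>
    obtain ⟨c, hc⟩ := ih
    obtain ⟨d, hd⟩ := prod_one_sub P a s
    obtain ⟨e, he⟩ := single_expand P x (a i) h m hx hh
    rw [prod_insert hi, prod_insert hi, sum_insert hi, hc, he]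
    set Q := ∑ j ∈ s, a j ^ 2
    rw [hd]
    refine ⟨-(a i * (h * (1 - x) * Q)) + (1 - P * a i) * c + d * (h * (1 - x) * a i ^ 2)
      + P * (h * (1 - x) * Q) * (h * (1 - x) * a i ^ 2) + P ^ 2 * c * (h * (1 - x) * a i ^ 2)
      + e * (1 + P * d + P ^ 2 * (h * (1 - x) * Q) + P ^ 3 * c), ?_⟩
    ring

/-- Alternating binomial sum of a polynomial of small degree vanishes. -/
lemma alt_sum_eq_zero {R : Type*} [CommRing R] (Q : R[X]) (n : ℕ) (hQ : Q.natDegree < n) :
    ∑ k ∈ range (n + 1), (-1 : R) ^ k * (n.choose k : R) * Q.eval (k : R) = 0 := by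
  have h := Polynomial.fwdDiff_iter_eq_zero_of_degree_lt hQ
  have h0 := congrFun h 0
  rw [fwdDiff_iter_eq_sum_shift] at h0
  simp only [Pi.zero_apply, zero_add, nsmul_eq_mul, mul_one, zsmul_eq_mul] at h0
  have h1 : ∑ k ∈ range (n + 1), (-1 : R) ^ k * (n.choose k : R) * Q.eval (k : R)
      = (-1 : R) ^ n * ∑ k ∈ range (n + 1),
        (((-1 : ℤ) ^ (n - k) * (n.choose k : ℤ) : ℤ) : R) * Q.eval (k : R) := by
    rw [mul_sum]
    refine sum_congr rfl fun k hk => ?_
    have hk' : k ≤ n := by simpa [Nat.lt_succ_iff] using hk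
    push_cast
    have : (-1 : R) ^ n * (-1) ^ (n - k) = (-1) ^ k := by
      rw [← pow_add]
      have : n + (n - k) = k + 2 * (n - k) := by omega
      rw [this, pow_add, pow_mul]; simp
    rw [← mul_assoc, ← mul_assoc, this]
  rw [h1, h0, mul_zero]

end Pool.Agent.Helper1.Binom
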