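import Mathlib

set_option autoImplicit false

open Finset Polynomial

namespace Pool.Agent.Helper1.Binom

variable {p : ℕ} [hp : Fact p.Prime]

lemma sum_eval_eq_zero (P : (ZMod p)[X]) (hP : P.natDegree < p - 1) :
    ∑ x : ZMod p, P.eval x = 0 := by
  simp_rw [Polynomial.eval_eq_sum_range]
  rw [sum_comm]
  refine sum_eq_zero fun i hi => ?_
  rw [← mul_sum]
  have hi' : i < p - 1 := by
    have := mem_range.1 hi; omega
  have := FiniteField.sum_pow_lt_card_sub_one (K := ZMod p) i (by rwa [ZMod.card])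
  rw [this, mul_zero]

lemma sum_range_eq_univ (g : ZMod p → ZMod p) :
    ∑ k ∈ range p, g (k : ZMod p) = ∑ x : ZMod p, g x := by
  refine sum_nbij' (fun k => (k : ZMod p)) (fun x => x.val) ?_ ?_ ?_ ?_ ?_
  · intro k _; simp
  · intro x _; simpa using ZMod.val_lt x
  · intro k hk; exact ZMod.val_cast_of_lt (by simpa using hk)
  · intro x _; simp
  · intro k _; rfl

/-- the product `(x+1)(x+2)...(x+s)` -/
def gF (s : ℕ) (x : ZMod p) : ZMod p := ∏ i ∈ range s, (x + 1 + (i : ZMod p))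

lemma gF_natCast (s k : ℕ) :
    (gF s (k : ZMod p)) = (s.factorial : ZMod p) * ((k + s).choose s : ZMod p) := by
  have h := Nat.ascFactorial_eq_factorial_mul_choose k s
  have h2 := Nat.ascFactorial_eq_prod_range (k + 1) s
  rw [h2] at h
  have h3 := congrArg (fun z : ℕ => (z : ZMod p)) h
  simp only [Nat.cast_prod, Nat.cast_mul] at h3
  rw [← h3, gF]
  refine prod_congr rfl fun i _ => ?_
  push_cast; ring

lemma gF_reflect (s : ℕ) (x : ZMod p) :
    gF s (-(x + (s : ZMod p) + 1)) = (-1) ^ s * gF s x := by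
  have hc : ((-1 : ZMod p)) ^ s = ∏ _i ∈ range s, (-1 : ZMod p) := by simp
  rw [gF, gF, ← prod_range_reflect, hc, ← prod_mul_distrib]
  refine prod_congr rfl fun i hi => ?_
  have hi' : i < s := by simpa using hi
  have : ((s - 1 - i : ℕ) : ZMod p) = (s : ZMod p) - 1 - i := by
    rw [Nat.cast_sub (by omega), Nat.cast_sub (by omega)]; simp
  rw [this]; ring

lemma sum_gF_pow (s m : ℕ) (h : m * s < p - 1) :
    ∑ x : ZMod p, gF s x ^ m = 0 := by
  have := sum_eval_eq_zero (p := p) ((∏ i ∈ range s, (X + C (1 + (i : ZMod p)))) ^ m) (by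
    refine lt_of_le_of_lt natDegree_pow_le ?_
    refine lt_of_le_of_lt (Nat.mul_le_mul_left m (natDegree_prod_le _ _)) ?_
    simp_rw [natDegree_X_add_C]
    simpa using h)
  rw [← this]
  refine sum_congr rfl fun x _ => ?_
  simp only [eval_pow, eval_prod, eval_add, eval_X, eval_C, gF]
  congr 1
  refine prod_congr rfl fun i _ => ?_
  ring

lemma sum_gF_pow_mul_inv (s m j : ℕ) (hm : 3 ≤ m) (hj : j < s) (h : m * s < p - 1) :
    ∑ x : ZMod p, gF s x ^ m * (x + 1 + j)⁻¹ ^ 2 = 0 := by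
  have := sum_eval_eq_zero (p := p)
    ((∏ i ∈ (range s).erase j, (X + C (1 + (i : ZMod p)))) ^ 2 *
      (∏ i ∈ range s, (X + C (1 + (i : ZMod p)))) ^ (m - 2)) (by
    refine lt_of_le_of_lt (natDegree_mul_le) ?_
    have h1 : ((∏ i ∈ (range s).erase j, (X + C (1 + (i : ZMod p)))) ^ 2).natDegree
        ≤ 2 * (s - 1) := by
      refine le_trans natDegree_pow_le ?_
      refine Nat.mul_le_mul_left 2 (le_trans (natDegree_prod_le _ _) ?_)
      simp_rw [natDegree_X_add_C]
      simp [card_erase_of_mem, hj]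
    have h2 : ((∏ i ∈ range s, (X + C (1 + (i : ZMod p)))) ^ (m - 2)).natDegree
        ≤ (m - 2) * s := by
      refine le_trans natDegree_pow_le ?_
      refine Nat.mul_le_mul_left _ (le_trans (natDegree_prod_le _ _) ?_)
      simp_rw [natDegree_X_add_C]
      simp
    have h3 : 2 * (s - 1) + (m - 2) * s ≤ m * s := by
      obtain ⟨m', rfl⟩ : ∃ m', m = m' + 2 := ⟨m - 2, by omega⟩
      have : m' + 2 - 2 = m' := by omega
      rw [this, add_mul]; omega
    omega)
  rw [← this]
  refine sum_congr rfl fun x _ => ?_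
  simp only [eval_mul, eval_pow, eval_prod, eval_add, eval_X, eval_C]
  have e1 : gF s x = (x + 1 + j) * ∏ i ∈ (range s).erase j, (x + (1 + (i : ZMod p))) := by
    rw [gF, ← mul_prod_erase (range s) _ (mem_range.2 hj)]
    congr 1
    refine prod_congr rfl fun i _ => ?_
    ring
  have e2 : ∏ i ∈ range s, (x + (1 + (i : ZMod p))) = gF s x := by
    rw [gF]; refine prod_congr rfl fun i _ => ?_
    ring
  rw [e2]
  by_cases hx : x + 1 + (j : ZMod p) = 0
  · have : gF s x = 0 := by rw [e1, hx, zero_mul]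
    rw [this, zero_pow (by omega), zero_pow (by omega)]; simp
  · obtain ⟨m', rfl⟩ : ∃ m', m = m' + 2 := ⟨m - 2, by omega⟩
    have : m' + 2 - 2 = m' := by omega
    rw [this, pow_add, mul_assoc, mul_comm (_ ^ 2) (gF s x ^ m')]
    congr 1
    rw [← mul_pow]
    congr 1
    rw [e1, mul_comm (x + 1 + (j : ZMod p)), mul_assoc, mul_inv_cancel₀ hx, mul_one]

/-- `f k = choose (k+s) s` in `ZMod p` -/
lemma choose_eq_zero_of (n s k : ℕ) (hpn : p = n + s + 1) (hk : n < k) (hkp : k < p) :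
    (((k + s).choose s : ℕ) : ZMod p) = 0 := by
  have h := gF_natCast (p := p) s k
  have h0 : gF s (k : ZMod p) = 0 := by
    rw [gF]
    refine prod_eq_zero (i := n + s - k) (by rw [mem_range]; omega) ?_
    have h1 : ((n + s + 1 : ℕ) : ZMod p) = 0 := by rw [← hpn]; simp
    rw [← h1, Nat.cast_sub (by omega)]; push_cast; ring
  rw [h0] at h
  have hs : (s.factorial : ZMod p) ≠ 0 := by
    intro hc
    rw [ZMod.natCast_eq_zero_iff] at hc
    have := (hp.out.dvd_factorial).1 hc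
    omega
  rcases mul_eq_zero.1 h.symm with h1 | h1
  · exact absurd h1 hs
  · exact h1

lemma factorial_ne (n s : ℕ) (hpn : p = n + s + 1) : (s.factorial : ZMod p) ≠ 0 := by
  intro hc
  rw [ZMod.natCast_eq_zero_iff] at hc
  have := (hp.out.dvd_factorial).1 hc
  omega

lemma sum_f_pow (n s m : ℕ) (hpn : p = n + s + 1) (hm : 3 ≤ m) (h : m * s < p - 1) :
    ∑ k ∈ range (n + 1), (((k + s).choose s : ℕ) : ZMod p) ^ m = 0 := by
  have h1 : ∑ k ∈ range (n + 1), (((k + s).choose s : ℕ) : ZMod p) ^ m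
      = ∑ k ∈ range p, (((k + s).choose s : ℕ) : ZMod p) ^ m := by
    refine sum_subset (by intro x; simp only [mem_range]; omega) ?_
    intro k hk hk'
    simp only [mem_range, not_lt] at hk hk'
    rw [choose_eq_zero_of n s k hpn (by omega) hk, zero_pow (by omega)]
  have hs := factorial_ne n s hpn
  have h2 : (s.factorial : ZMod p) ^ m * ∑ k ∈ range p, (((k + s).choose s : ℕ) : ZMod p) ^ m = 0 := by
    rw [mul_sum, ← sum_gF_pow (p := p) s m h, ← sum_range_eq_univ]
    refine sum_congr rfl fun k _ => ?_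
    rw [← mul_pow, gF_natCast]
  rw [h1]
  rcases mul_eq_zero.1 h2 with h3 | h3
  · exact absurd h3 (pow_ne_zero _ hs)
  · exact h3

lemma sum_f_pow_inv (n s m j : ℕ) (hpn : p = n + s + 1) (hm : 3 ≤ m) (hj : j < s)
    (h : m * s < p - 1) :
    ∑ k ∈ range (n + 1), (((k + s).choose s : ℕ) : ZMod p) ^ m * ((k + 1 + j : ℕ) : ZMod p)⁻¹ ^ 2
      = 0 := by
  have h1 : ∑ k ∈ range (n + 1),
        (((k + s).choose s : ℕ) : ZMod p) ^ m * ((k + 1 + j : ℕ) : ZMod p)⁻¹ ^ 2
      = ∑ k ∈ range p,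
        (((k + s).choose s : ℕ) : ZMod p) ^ m * ((k + 1 + j : ℕ) : ZMod p)⁻¹ ^ 2 := by
    refine sum_subset (by intro x; simp only [mem_range]; omega) ?_
    intro k hk hk'
    simp only [mem_range, not_lt] at hk hk'
    rw [choose_eq_zero_of n s k hpn (by omega) hk, zero_pow (by omega), zero_mul]
  have hs := factorial_ne n s hpn
  have h2 : (s.factorial : ZMod p) ^ m * ∑ k ∈ range p,
      (((k + s).choose s : ℕ) : ZMod p) ^ m * ((k + 1 + j : ℕ) : ZMod p)⁻¹ ^ 2 = 0 := by
    rw [mul_sum, ← sum_gF_pow_mul_inv (p := p) s m j hm hj h, ← sum_range_eq_univ]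
    refine sum_congr rfl fun k _ => ?_
    rw [← mul_assoc, ← mul_pow, gF_natCast]
    push_cast
    rfl
  rw [h1]
  rcases mul_eq_zero.1 h2 with h3 | h3
  · exact absurd h3 (pow_ne_zero _ hs)
  · exact h3

/-- partial sums of inverse squares mod `p` -/
def W (p N : ℕ) : ZMod p := ∑ j ∈ range N, (j : ZMod p)⁻¹ ^ 2

lemma W_reflect (k : ℕ) (hk : k + 1 ≤ p) : W p (p - k) = W p p - W p (k + 1) := by
  have e : W p p = W p (k + 1) + ∑ j ∈ Ico (k + 1) p, (j : ZMod p)⁻¹ ^ 2 := by
    rw [W, W, sum_range_add_sum_Ico _ hk]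
  rw [e, add_sub_cancel_left]
  have h0 : W p (p - k) = ∑ j ∈ Ico 1 (p - k), (j : ZMod p)⁻¹ ^ 2 := by
    rw [W, range_eq_Ico, sum_eq_sum_Ico_succ_bot (by omega)]
    simp
  rw [h0]
  refine sum_nbij' (fun j => p - j) (fun j => p - j) ?_ ?_ ?_ ?_ ?_
  · intro j hj; simp only [mem_Ico] at hj ⊢; omega
  · intro j hj; simp only [mem_Ico] at hj ⊢; omega
  · intro j hj; simp only [mem_Ico] at hj; omega
  · intro j hj; simp only [mem_Ico] at hj; omega
  · intro j hj
    simp only [mem_Ico] at hj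
    rw [Nat.cast_sub (by omega)]
    simp

lemma f_reflect (n s k : ℕ) (hpn : p = n + s + 1) (hk : k ≤ n) :
    (((n - k + s).choose s : ℕ) : ZMod p) = (-1) ^ s * (((k + s).choose s : ℕ) : ZMod p) := by
  have hs := factorial_ne n s hpn
  apply mul_left_cancel₀ hs
  rw [← gF_natCast, mul_left_comm, ← gF_natCast, ← gF_reflect]
  congr 1
  rw [Nat.cast_sub hk]
  have h1 : ((n + s + 1 : ℕ) : ZMod p) = 0 := by rw [← hpn]; simp
  push_cast at h1
  linear_combination h1

/-- the second order sum vanishes -/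
lemma second_sum (n s m : ℕ) (hpn : p = n + s + 1) (hp2 : p ≠ 2) (hm : 3 ≤ m) (h : m * s < p - 1)
    (hpar : Even (s * m)) :
    ∑ k ∈ range (n + 1), (((k + s).choose s : ℕ) : ZMod p) ^ m *
      ∑ j ∈ Ico (s + 1) (k + s + 1), (j : ZMod p)⁻¹ ^ 2 = 0 := by
  have hW : ∀ k, ∑ j ∈ Ico (s + 1) (k + s + 1), (j : ZMod p)⁻¹ ^ 2
      = W p (k + s + 1) - W p (s + 1) := by
    intro k
    rw [W, W, sum_Ico_eq_sub _ (by omega)]
  simp_rw [hW]
  set T := ∑ k ∈ range (n + 1), (((k + s).choose s : ℕ) : ZMod p) ^ m *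
      (W p (k + s + 1) - W p (s + 1)) with hT
  have hT2 : T = ∑ k ∈ range (n + 1), (((k + s).choose s : ℕ) : ZMod p) ^ m *
      (W p p - W p (k + 1) - W p (s + 1)) := by
    rw [hT, ← sum_range_reflect]
    refine sum_congr rfl fun k hk => ?_
    have hk' : k ≤ n := by simpa [Nat.lt_succ_iff] using hk
    have e1 : n + 1 - 1 - k = n - k := by omega
    rw [e1, f_reflect n s k hpn hk']
    have e2 : n - k + s + 1 = p - k := by omega
    rw [e2, W_reflect k (by omega), mul_pow, ← pow_mul, hpar.neg_one_pow, one_mul]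
  have h2T : (2 : ZMod p) * T = 0 := by
    have : (2 : ZMod p) * T = ∑ k ∈ range (n + 1), (((k + s).choose s : ℕ) : ZMod p) ^ m *
        (W p (k + s + 1) - W p (k + 1)) + (W p p - 2 * W p (s + 1)) *
        ∑ k ∈ range (n + 1), (((k + s).choose s : ℕ) : ZMod p) ^ m := by
      rw [two_mul]
      nth_rewrite 2 [hT2]
      rw [hT, ← sum_add_distrib, mul_sum, ← sum_add_distrib]
      refine sum_congr rfl fun k _ => ?_
      ring
    rw [this, sum_f_pow n s m hpn hm h, mul_zero, add_zero]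
    have e3 : ∀ k, W p (k + s + 1) - W p (k + 1)
        = ∑ j ∈ range s, ((k + 1 + j : ℕ) : ZMod p)⁻¹ ^ 2 := by
      intro k
      have : k + s + 1 = (k + 1) + s := by ring
      rw [W, W, this, sum_range_add]; ring
    simp_rw [e3, mul_sum]
    rw [sum_comm]
    refine sum_eq_zero fun j hj => ?_
    exact sum_f_pow_inv n s m j hpn hm (by simpa using hj) h
  have h2 : (2 : ZMod p) ≠ 0 := by
    intro hc
    have : ((2 : ℕ) : ZMod p) = 0 := by exact_mod_cast hc
    rw [ZMod.natCast_eq_zero_iff] at this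
    have := (Nat.prime_dvd_prime_iff_eq hp.out Nat.prime_two).1 this
    exact hp2 this
  rcases mul_eq_zero.1 h2T with h3 | h3
  · exact absurd h3 h2
  · exact h3

end Pool.Agent.Helper1.Binom
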