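import Pool.Agent.Helper1.BinomA
import Pool.Agent.Helper1.BinomB

set_option autoImplicit false

open Finset Polynomial

namespace Pool.Agent.Helper1.Binom

variable {p : ℕ} [hp : Fact p.Prime]

/-- inverse of the natural number `j` in the `p`-adic integers (junk if `p` divides `j`) -/
noncomputable def iv (p : ℕ) [Fact p.Prime] (j : ℕ) : ℤ_[p] := PadicInt.inv (j : ℤ_[p])

lemma mul_iv (j : ℕ) (h0 : 0 < j) (h1 : j < p) : (j : ℤ_[p]) * iv p j = 1 := by
  apply PadicInt.mul_inv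
  rw [PadicInt.norm_natCast_eq_one_iff]
  exact Nat.coprime_of_lt_prime h0.ne' h1 hp.out

lemma toZMod_iv (j : ℕ) (h0 : 0 < j) (h1 : j < p) :
    PadicInt.toZMod (iv p j) = ((j : ℕ) : ZMod p)⁻¹ := by
  have h := congrArg (PadicInt.toZMod (p := p)) (mul_iv (p := p) j h0 h1)
  rw [map_mul, map_natCast, map_one] at h
  exact (inv_eq_of_mul_eq_one_right h).symm

lemma dvd_of_toZMod (x : ℤ_[p]) (h : PadicInt.toZMod x = 0) : (p : ℤ_[p]) ∣ x := by
  have : x ∈ RingHom.ker (PadicInt.toZMod : ℤ_[p] →+* ZMod p) := h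
  rw [PadicInt.ker_toZMod, PadicInt.maximalIdeal_eq_span_p, Ideal.mem_span_singleton] at this
  exact this

/-- the rising product `y (y+1) ... (y+k-1) / k!` -/
noncomputable def B (y : ℤ_[p]) (k : ℕ) : ℤ_[p] := ∏ i ∈ range k, (y + i) * iv p (i + 1)

lemma B_succ (y : ℤ_[p]) (k : ℕ) : B y (k + 1) = B y k * ((y + k) * iv p (k + 1)) := by
  rw [B, prod_range_succ, ← B]

lemma B_eq (n s : ℕ) (hpn : p = n + s + 1) (x : ℤ_[p]) (k : ℕ) (hk : k ≤ n) :
    B ((s : ℤ_[p]) + 1 - (p : ℤ_[p]) * x) k = (((k + s).choose s : ℕ) : ℤ_[p]) *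
      ∏ j ∈ Ico (s + 1) (k + s + 1), (1 - (p : ℤ_[p]) * x * iv p j) := by
  induction k with
  | zero => simp [B]
  | succ k ih =>
    rw [B_succ, ih (by omega)]
    have e1 : k + 1 + s + 1 = (k + s + 1) + 1 := by ring
    rw [e1, prod_Ico_succ_top (b := k + s + 1) (by omega)]
    have h1 := mul_iv (p := p) (k + s + 1) (by omega) (by omega)
    have h2 := mul_iv (p := p) (k + 1) (by omega) (by omega)
    have h3 := Nat.choose_mul_succ_eq (k + s) s
    have h4 : k + s + 1 - s = k + 1 := by omega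
    rw [h4] at h3
    have h5 : (((k + s).choose s : ℕ) : ℤ_[p]) * ((k + s + 1 : ℕ) : ℤ_[p])
        = (((k + 1 + s).choose s : ℕ) : ℤ_[p]) * ((k + 1 : ℕ) : ℤ_[p]) := by
      rw [show k + 1 + s = k + s + 1 by ring]; exact_mod_cast h3
    have h6 : (s : ℤ_[p]) + 1 - (p : ℤ_[p]) * x + k
        = ((k + s + 1 : ℕ) : ℤ_[p]) * (1 - (p : ℤ_[p]) * x * iv p (k + s + 1)) := by
      have : ((k + s + 1 : ℕ) : ℤ_[p]) * (1 - (p : ℤ_[p]) * x * iv p (k + s + 1))
        = ((k + s + 1 : ℕ) : ℤ_[p]) - p * x * (((k + s + 1 : ℕ) : ℤ_[p]) * iv p (k + s + 1)) := by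
        ring
      rw [this, h1]; push_cast; ring
    rw [h6]
    set PP := ∏ j ∈ Ico (s + 1) (k + s + 1), (1 - (p : ℤ_[p]) * x * iv p j)
    set A := (((k + s).choose s : ℕ) : ℤ_[p])
    set A' := (((k + 1 + s).choose s : ℕ) : ℤ_[p])
    set U := (1 - (p : ℤ_[p]) * x * iv p (k + s + 1))
    calc A * PP * (((k + s + 1 : ℕ) : ℤ_[p]) * U * iv p (k + 1))
        = (A * ((k + s + 1 : ℕ) : ℤ_[p])) * iv p (k + 1) * (PP * U) := by ring
      _ = (A' * ((k + 1 : ℕ) : ℤ_[p])) * iv p (k + 1) * (PP * U) := by rw [h5]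
      _ = A' * (((k + 1 : ℕ) : ℤ_[p]) * iv p (k + 1)) * (PP * U) := by ring
      _ = A' * (PP * U) := by rw [h2, mul_one]

lemma B_dvd (n s : ℕ) (hpn : p = n + s + 1) (x : ℤ_[p]) (k : ℕ) (hk : n + 1 ≤ k) :
    (p : ℤ_[p]) ∣ B ((s : ℤ_[p]) + 1 - (p : ℤ_[p]) * x) k := by
  induction k, hk using Nat.le_induction with
  | base =>
    rw [B_succ]
    apply Dvd.dvd.mul_left
    apply Dvd.dvd.mul_right
    refine ⟨1 - x, ?_⟩
    have : (p : ℤ_[p]) = ((n + s + 1 : ℕ) : ℤ_[p]) := by rw [← hpn]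
    rw [mul_sub, mul_one]
    nth_rewrite 2 [this]
    push_cast; ring
  | succ k hk ih =>
    rw [B_succ]
    exact Dvd.dvd.mul_right ih _

lemma B_neg (n s : ℕ) (hpn : p = n + s + 1) (k : ℕ) (hk : k ≤ n) :
    B ((s : ℤ_[p]) + 1 - (p : ℤ_[p]) * 1) k = (-1) ^ k * ((n.choose k : ℕ) : ℤ_[p]) := by
  induction k with
  | zero => simp [B]
  | succ k ih =>
    rw [B_succ, ih (by omega)]
    have h2 := mul_iv (p := p) (k + 1) (by omega) (by omega)
    have h3 := Nat.choose_succ_right_eq n k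
    have h5 : ((n.choose (k + 1) : ℕ) : ℤ_[p]) * ((k + 1 : ℕ) : ℤ_[p])
        = ((n.choose k : ℕ) : ℤ_[p]) * ((n - k : ℕ) : ℤ_[p]) := by
      exact_mod_cast h3
    have h6 : (s : ℤ_[p]) + 1 - (p : ℤ_[p]) * 1 + k = - ((n - k : ℕ) : ℤ_[p]) := by
      have : (p : ℤ_[p]) = ((n + s + 1 : ℕ) : ℤ_[p]) := by rw [← hpn]
      rw [this, Nat.cast_sub (by omega)]; push_cast; ring
    rw [h6]
    set A := ((n.choose (k + 1) : ℕ) : ℤ_[p])
    set A' := ((n.choose k : ℕ) : ℤ_[p])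
    calc (-1) ^ k * A' * (-((n - k : ℕ) : ℤ_[p]) * iv p (k + 1))
        = (-1) ^ (k + 1) * (A' * ((n - k : ℕ) : ℤ_[p])) * iv p (k + 1) := by rw [pow_succ]; ring
      _ = (-1) ^ (k + 1) * (A * ((k + 1 : ℕ) : ℤ_[p])) * iv p (k + 1) := by rw [h5]
      _ = (-1) ^ (k + 1) * A * (((k + 1 : ℕ) : ℤ_[p]) * iv p (k + 1)) := by ring
      _ = _ := by rw [h2, mul_one]

lemma first_sum (n s m : ℕ) (h : m * s < n) :
    ∑ k ∈ range (n + 1), ((((k + s).choose s : ℕ) : ℤ_[p])) ^ m * ((-1) ^ k * ((n.choose k : ℕ) : ℤ_[p]))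
      = 0 := by
  have h0 := alt_sum_eq_zero (R := ℤ_[p])
    ((∏ i ∈ range s, (X + C (1 + (i : ℤ_[p])))) ^ m) n (by
      refine lt_of_le_of_lt natDegree_pow_le ?_
      refine lt_of_le_of_lt (Nat.mul_le_mul_left m (natDegree_prod_le _ _)) ?_
      simp_rw [natDegree_X_add_C]
      simpa using h)
  have h1 : ∀ k : ℕ, ((∏ i ∈ range s, (X + C (1 + (i : ℤ_[p])))) ^ m).eval (k : ℤ_[p])
      = (s.factorial : ℤ_[p]) ^ m * (((k + s).choose s : ℕ) : ℤ_[p]) ^ m := by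
    intro k
    rw [← mul_pow, eval_pow]
    congr 1
    have h := Nat.ascFactorial_eq_factorial_mul_choose k s
    rw [Nat.ascFactorial_eq_prod_range (k + 1) s] at h
    have h3 := congrArg (fun z : ℕ => (z : ℤ_[p])) h
    simp only [Nat.cast_prod, Nat.cast_mul] at h3
    rw [← h3, eval_prod]
    refine prod_congr rfl fun i _ => ?_
    simp only [eval_add, eval_X, eval_C]
    push_cast; ring
  simp_rw [h1] at h0
  have h2 : (s.factorial : ℤ_[p]) ^ m * ∑ k ∈ range (n + 1),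
      ((((k + s).choose s : ℕ) : ℤ_[p])) ^ m * ((-1) ^ k * ((n.choose k : ℕ) : ℤ_[p])) = 0 := by
    rw [← h0, mul_sum]
    refine sum_congr rfl fun k _ => ?_
    ring
  rcases mul_eq_zero.1 h2 with h3 | h3
  · exfalso
    have h4 : (s.factorial : ℤ_[p]) = 0 := eq_zero_of_pow_eq_zero h3
    exact (Nat.factorial_ne_zero s) (by exact_mod_cast h4)
  · exact h3

/-- main congruence in the `p`-adic integers -/
theorem main_padic (n s m : ℕ) (hpn : p = n + s + 1) (hp2 : p ≠ 2) (hm : 3 ≤ m)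
    (h : m * s < p - 1) (hpar : Even (s * m)) (x : ℤ_[p]) (hx : (m : ℤ_[p]) * x = 1) :
    (p : ℤ_[p]) ^ 3 ∣ ∑ k ∈ range p, B ((s : ℤ_[p]) + 1 - (p : ℤ_[p]) * x) k ^ m := by
  obtain ⟨hf, hh⟩ : ∃ hf : ℤ_[p], 2 * hf = 1 := by
    refine ⟨iv p 2, ?_⟩
    have := mul_iv (p := p) 2 (by omega) (by
      have := hp.out.two_le; omega)
    exact_mod_cast this
  have hsplit : ∑ k ∈ range p, B ((s : ℤ_[p]) + 1 - (p : ℤ_[p]) * x) k ^ m
      = ∑ k ∈ range (n + 1), B ((s : ℤ_[p]) + 1 - (p : ℤ_[p]) * x) k ^ m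
        + ∑ k ∈ Ico (n + 1) p, B ((s : ℤ_[p]) + 1 - (p : ℤ_[p]) * x) k ^ m := by
    rw [sum_range_add_sum_Ico _ (by omega)]
  rw [hsplit]
  apply dvd_add
  · -- main part
    have hexp : ∀ k, ∃ c : ℤ_[p], k ≤ n → B ((s : ℤ_[p]) + 1 - (p : ℤ_[p]) * x) k ^ m
        = (((k + s).choose s : ℕ) : ℤ_[p]) ^ (m - 1) * ((-1) ^ k * ((n.choose k : ℕ) : ℤ_[p]))
          + (p : ℤ_[p]) ^ 2 * (hf * (1 - x)) * ((((k + s).choose s : ℕ) : ℤ_[p]) ^ m *
            ∑ j ∈ Ico (s + 1) (k + s + 1), iv p j ^ 2) + (p : ℤ_[p]) ^ 3 * c := by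
      intro k
      obtain ⟨c, hc⟩ := prod_expand (p : ℤ_[p]) x hf m (fun j => iv p j) hx hh
        (Ico (s + 1) (k + s + 1))
      refine ⟨(((k + s).choose s : ℕ) : ℤ_[p]) ^ m * c, fun hk => ?_⟩
      have e1 := B_eq n s hpn x k hk
      have e2 := B_eq n s hpn 1 k hk
      rw [B_neg n s hpn k hk] at e2
      have e3 : ∏ j ∈ Ico (s + 1) (k + s + 1), (1 - (p : ℤ_[p]) * 1 * iv p j)
        = ∏ j ∈ Ico (s + 1) (k + s + 1), (1 - (p : ℤ_[p]) * iv p j) := by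
        simp
      rw [e3] at e2
      rw [e1, mul_pow, ← prod_pow, hc, e2]
      obtain ⟨m', rfl⟩ : ∃ m', m = m' + 1 := ⟨m - 1, by omega⟩
      rw [Nat.add_sub_cancel, pow_succ]
      ring
    choose c hc using hexp
    have hsum : ∑ k ∈ range (n + 1), B ((s : ℤ_[p]) + 1 - (p : ℤ_[p]) * x) k ^ m
        = ∑ k ∈ range (n + 1), (((k + s).choose s : ℕ) : ℤ_[p]) ^ (m - 1)
              * ((-1) ^ k * ((n.choose k : ℕ) : ℤ_[p]))
          + (p : ℤ_[p]) ^ 2 * (hf * (1 - x)) * ∑ k ∈ range (n + 1),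
              ((((k + s).choose s : ℕ) : ℤ_[p]) ^ m *
                ∑ j ∈ Ico (s + 1) (k + s + 1), iv p j ^ 2)
          + (p : ℤ_[p]) ^ 3 * ∑ k ∈ range (n + 1), c k := by
      rw [mul_sum, mul_sum, ← sum_add_distrib, ← sum_add_distrib]
      refine sum_congr rfl fun k hk => ?_
      exact hc k (by simpa [Nat.lt_succ_iff] using hk)
    have hdeg : (m - 1) * s < n := by
      obtain ⟨m', rfl⟩ : ∃ m', m = m' + 1 := ⟨m - 1, by omega⟩
      rw [Nat.add_sub_cancel]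
      rw [add_mul] at h
      omega
    rw [hsum, first_sum n s (m - 1) hdeg, zero_add]
    apply dvd_add
    · have hE : (p : ℤ_[p]) ∣ ∑ k ∈ range (n + 1),
              ((((k + s).choose s : ℕ) : ℤ_[p]) ^ m *
                ∑ j ∈ Ico (s + 1) (k + s + 1), iv p j ^ 2) := by
        apply dvd_of_toZMod
        rw [← second_sum n s m hpn hp2 hm h hpar, map_sum]
        refine sum_congr rfl fun k hk => ?_
        have hk' : k ≤ n := by simpa [Nat.lt_succ_iff] using hk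
        rw [map_mul, map_pow, map_natCast, map_sum]
        congr 1
        refine sum_congr rfl fun j hj => ?_
        rw [mem_Ico] at hj
        rw [map_pow, toZMod_iv j (by omega) (by omega)]
      obtain ⟨e, he⟩ := hE
      rw [he]
      exact ⟨hf * (1 - x) * e, by ring⟩
    · exact dvd_mul_right _ _
  · refine dvd_sum fun k hk => ?_
    rw [mem_Ico] at hk
    exact (pow_dvd_pow _ hm).trans (pow_dvd_pow_of_dvd (B_dvd n s hpn x k hk.1) m)

end Pool.Agent.Helper1.Binom
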