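import Pool.Agent.Helper1.BinomC

set_option autoImplicit false

open Finset Polynomial

namespace Pool.Agent.Helper1.Binom

lemma choose_succ_rat (q : ℚ) (k : ℕ) :
    Ring.choose q (k + 1) = Ring.choose q k * ((q - k) / (k + 1)) := by
  rw [Ring.choose_eq_smul, Ring.choose_eq_smul, descPochhammer_succ_right]
  rw [Polynomial.smeval_mul]
  have : (X - (k : ℤ[X])).smeval q = q - k := by
    rw [Polynomial.smeval_sub, Polynomial.smeval_X, Polynomial.smeval_natCast]; simp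
  rw [this, Nat.factorial_succ]
  have h1 : ((k : ℚ) + 1) ≠ 0 := by positivity
  have h2 : ((k.factorial : ℕ) : ℚ) ≠ 0 := by
    exact_mod_cast Nat.factorial_ne_zero k
  simp only [smul_eq_mul]
  push_cast
  field_simp

lemma coe_iv (p : ℕ) [hp : Fact p.Prime] (j : ℕ) (h0 : 0 < j) (h1 : j < p) :
    ((iv p j : ℤ_[p]) : ℚ_[p]) = ((j : ℕ) : ℚ_[p])⁻¹ := by
  have h := congrArg (fun z : ℤ_[p] => (z : ℚ_[p])) (mul_iv (p := p) j h0 h1)
  simp only [PadicInt.coe_mul, PadicInt.coe_natCast, PadicInt.coe_one] at h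
  exact (inv_eq_of_mul_eq_one_right h).symm

lemma coe_B (p : ℕ) [hp : Fact p.Prime] (q : ℚ) (y : ℤ_[p]) (hy : (y : ℚ_[p]) = ((-q : ℚ) : ℚ_[p]))
    (k : ℕ) (hk : k < p) :
    ((B y k : ℤ_[p]) : ℚ_[p]) = (((-1) ^ k * Ring.choose q k : ℚ) : ℚ_[p]) := by
  induction k with
  | zero => simp [B]
  | succ k ih =>
    rw [B_succ, PadicInt.coe_mul, ih (by omega), choose_succ_rat, PadicInt.coe_mul,
      coe_iv p (k + 1) (by omega) hk, PadicInt.coe_add, hy, PadicInt.coe_natCast, pow_succ]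
    push_cast
    ring

/-- general form: it suffices that `r + m > 1` -/
theorem main_rat (m : ℕ) (r : ℤ) (p : ℕ) (hp : p.Prime) (hodd : Odd p) (hm : 2 < m)
    (hpm : ¬ p ∣ m) (hpr : r < p) (hpar : Odd ((m : ℤ) + r)) (hcong : (p : ℤ) ≡ r [ZMOD m])
    (hr : 1 < r + m) :
    ¬ p ∣ ((∑ k ∈ range p, (-1 : ℚ) ^ (k * m) * Ring.choose ((r : ℚ) / m) k ^ m)
      / (p : ℚ) ^ 3).den := by
  have : Fact p.Prime := ⟨hp⟩
  -- the parameter s
  obtain ⟨t, ht⟩ : (m : ℤ) ∣ (p : ℤ) - r := hcong.symm.dvd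
  have hm0 : (0 : ℤ) < m := by exact_mod_cast (by omega : 0 < m)
  have htpos : 0 < t := by
    by_contra hcon
    push Not at hcon
    have : (m : ℤ) * t ≤ 0 := mul_nonpos_of_nonneg_of_nonpos hm0.le hcon
    omega
  obtain ⟨s, hs⟩ : ∃ s : ℕ, t = s + 1 := ⟨(t - 1).toNat, by omega⟩
  have hms : (m : ℤ) * s = p - r - m := by
    rw [hs] at ht; linarith [mul_add (m : ℤ) s 1]
  have hms' : (m * s : ℕ) < p - 1 := by
    have : ((m * s : ℕ) : ℤ) < (p : ℤ) - 1 := by push_cast; linarith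
    have h2 := hp.two_le
    omega
  have hsm : s ≤ m * s := Nat.le_mul_of_pos_left s (by omega)
  obtain ⟨n, hn⟩ : ∃ n : ℕ, p = n + s + 1 := ⟨p - s - 1, by omega⟩
  have hpar' : Even (s * m) := by
    have h1 : Even ((p : ℤ) - r - m) := by
      obtain ⟨a, ha⟩ := hpar
      obtain ⟨b, hb⟩ := hodd
      exact ⟨b - a, by rw [hb]; push_cast; linarith⟩
    rw [← hms] at h1
    have h2 : Even (m * s) := by exact_mod_cast h1
    rwa [mul_comm] at h2
  have hp2 : p ≠ 2 := by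
    rintro rfl; revert hodd; decide
  -- inverse of m
  have hmunit : ‖((m : ℕ) : ℤ_[p])‖ = 1 := by
    rw [PadicInt.norm_natCast_eq_one_iff]
    exact (Nat.Prime.coprime_iff_not_dvd hp).2 hpm
  set x : ℤ_[p] := PadicInt.inv (m : ℤ_[p]) with hxdef
  have hx : (m : ℤ_[p]) * x = 1 := PadicInt.mul_inv hmunit
  have hxq : (x : ℚ_[p]) = ((m : ℕ) : ℚ_[p])⁻¹ := by
    have h := congrArg (fun z : ℤ_[p] => (z : ℚ_[p])) hx
    simp only [PadicInt.coe_mul, PadicInt.coe_natCast, PadicInt.coe_one] at h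
    exact (inv_eq_of_mul_eq_one_right h).symm
  obtain ⟨c, hc⟩ := main_padic n s m hn hp2 hm hms' hpar' x hx
  have hmq : ((m : ℕ) : ℚ_[p]) ≠ 0 := by
    have : m ≠ 0 := by omega
    exact_mod_cast this
  have hy : (((s : ℤ_[p]) + 1 - (p : ℤ_[p]) * x : ℤ_[p]) : ℚ_[p])
      = ((-((r : ℚ) / m) : ℚ) : ℚ_[p]) := by
    push_cast
    rw [hxq]
    have h1 : (r : ℤ) = p - m * (s + 1) := by linarith
    rw [h1]
    push_cast
    field_simp
    ring
  have hS : (((∑ k ∈ range p, (-1 : ℚ) ^ (k * m) * Ring.choose ((r : ℚ) / m) k ^ m : ℚ)) : ℚ_[p])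
      = (((p : ℤ_[p]) ^ 3 * c : ℤ_[p]) : ℚ_[p]) := by
    rw [← hc, PadicInt.coe_sum, Rat.cast_sum]
    refine sum_congr rfl fun k hk => ?_
    rw [PadicInt.coe_pow, coe_B p ((r : ℚ) / m) _ hy k (mem_range.1 hk), ← Rat.cast_pow, mul_pow,
      ← pow_mul]
  have hq : (((∑ k ∈ range p, (-1 : ℚ) ^ (k * m) * Ring.choose ((r : ℚ) / m) k ^ m)
      / (p : ℚ) ^ 3 : ℚ) : ℚ_[p]) = (c : ℚ_[p]) := by
    rw [Rat.cast_div, hS]
    push_cast
    have hpq : (p : ℚ_[p]) ≠ 0 := by exact_mod_cast hp.ne_zero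
    field_simp
  have hnorm : ‖(((∑ k ∈ range p, (-1 : ℚ) ^ (k * m) * Ring.choose ((r : ℚ) / m) k ^ m)
      / (p : ℚ) ^ 3 : ℚ) : ℚ_[p])‖ ≤ 1 := by
    rw [hq]; exact PadicInt.norm_le_one c
  have hu := PadicInt.isUnit_den _ hnorm
  rw [PadicInt.isUnit_iff, PadicInt.norm_natCast_eq_one_iff] at hu
  exact (Nat.Prime.coprime_iff_not_dvd hp).1 hu

end Pool.Agent.Helper1.Binom
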