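import Mathlib

set_option autoImplicit false

open Finset

namespace Pool.Agent.Helper1.Brun

open Classical in
/-- indicator that `i mod p` lies in `Ω p` for all `p ∈ D` -/
noncomputable def ind (Ω : ℕ → Finset ℕ) (D : Finset ℕ) (i : ℕ) : ℝ :=
  if ∀ p ∈ D, i % p ∈ Ω p then 1 else 0

/-- density of the event above -/
noncomputable def wt (Ω : ℕ → Finset ℕ) (D : Finset ℕ) : ℝ := ∏ p ∈ D, ((Ω p).card : ℝ) / p

/-- `f` behaves on `range M` like a function with mean value `e`, independent of events attached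
to primes outside `P`, with error constant `r` -/
def Approx (Ω : ℕ → Finset ℕ) (k : ℝ) (M : ℕ) (P : Finset ℕ) (f : ℕ → ℝ) (e r : ℝ) : Prop :=
  ∀ D : Finset ℕ, (∀ p ∈ D, p.Prime) → Disjoint D P →
    |∑ i ∈ range M, f i * ind Ω D i - M * (e * wt Ω D)| ≤ r * k ^ D.card

lemma ind_union (Ω : ℕ → Finset ℕ) (D D' : Finset ℕ) (i : ℕ) :
    ind Ω (D ∪ D') i = ind Ω D i * ind Ω D' i := by
  classical
  unfold ind
  by_cases h1 : ∀ p ∈ D, i % p ∈ Ω p
  · by_cases h2 : ∀ p ∈ D', i % p ∈ Ω p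
    · have h3 : ∀ p ∈ D ∪ D', i % p ∈ Ω p := by
        intro p hp
        rcases mem_union.1 hp with h | h
        · exact h1 p h
        · exact h2 p h
      rw [if_pos h1, if_pos h2, if_pos h3, one_mul]
    · have h3 : ¬ ∀ p ∈ D ∪ D', i % p ∈ Ω p := fun h => h2 fun p hp => h p (mem_union_right _ hp)
      rw [if_pos h1, if_neg h2, if_neg h3, mul_zero]
  · have h3 : ¬ ∀ p ∈ D ∪ D', i % p ∈ Ω p := fun h => h1 fun p hp => h p (mem_union_left _ hp)
    rw [if_neg h1, if_neg h3, zero_mul]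

lemma wt_union (Ω : ℕ → Finset ℕ) (D D' : Finset ℕ) (h : Disjoint D D') :
    wt Ω (D ∪ D') = wt Ω D * wt Ω D' := by
  unfold wt; rw [prod_union h]

lemma ind_nonneg (Ω : ℕ → Finset ℕ) (D : Finset ℕ) (i : ℕ) : 0 ≤ ind Ω D i := by
  unfold ind; split_ifs <;> norm_num

lemma count_class (M d v : ℕ) (hd : 0 < d) :
    |(((range M).filter (fun i => i ≡ v [MOD d])).card : ℝ) - M / d| ≤ 1 := by
  have h := Nat.count_modEq_card M hd v
  rw [Nat.count_eq_card_filter_range] at h
  rw [h]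
  have h1 : (M / d : ℕ) * d + M % d = M := by rw [mul_comm]; exact Nat.div_add_mod M d
  have h2 := Nat.mod_lt M hd
  have hdR : (0 : ℝ) < d := by exact_mod_cast hd
  have h3 : (M : ℝ) / d = (M / d : ℕ) + ((M % d : ℕ) : ℝ) / d := by
    have : (M : ℝ) = ((M / d : ℕ) : ℝ) * d + ((M % d : ℕ) : ℝ) := by exact_mod_cast h1.symm
    rw [eq_comm, ← sub_eq_zero]
    field_simp
    linarith
  have h4 : ((M % d : ℕ) : ℝ) / d < 1 := by
    rw [div_lt_one hdR]; exact_mod_cast h2
  have h5 : 0 ≤ ((M % d : ℕ) : ℝ) / d := by positivity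
  rw [h3]
  split_ifs with h6
  · push_cast
    rw [abs_le]; constructor <;> linarith
  · push_cast
    rw [abs_le]; constructor <;> linarith

lemma approx_one (Ω : ℕ → Finset ℕ) (k : ℝ) (M : ℕ)
    (hΩ : ∀ p, Ω p ⊆ range p) (hk : ∀ p, ((Ω p).card : ℝ) ≤ k) :
    Approx Ω k M ∅ (fun _ => 1) 1 1 := by
  classical
  intro D hD _
  simp only [one_mul]
  have hsum : ∑ i ∈ range M, ind Ω D i
      = (((range M).filter (fun i => ∀ p ∈ D, i % p ∈ Ω p)).card : ℝ) := by
    unfold ind
    rw [sum_ite, sum_const_zero, add_zero, sum_const, nsmul_eq_mul, mul_one]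
  rw [hsum]
  set S := (range M).filter (fun i => ∀ p ∈ D, i % p ∈ Ω p) with hS
  set F : ℕ → ((p : ℕ) → p ∈ D → ℕ) := fun i p _ => i % p with hF
  have hmaps : ∀ i ∈ S, F i ∈ D.pi Ω := by
    intro i hi
    rw [mem_pi]
    intro p hp
    exact (mem_filter.1 hi).2 p hp
  have hfib := card_eq_sum_card_fiberwise hmaps
  set d := ∏ p ∈ D, p with hd
  have hdpos : 0 < d := prod_pos fun p hp => (hD p hp).pos
  have hdR : (0 : ℝ) < d := by exact_mod_cast hdpos
  have hclass : ∀ c ∈ D.pi Ω, |(((S.filter (fun i => F i = c)).card : ℕ) : ℝ) - M / d| ≤ 1 := by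
    intro c hc
    rw [mem_pi] at hc
    -- CRT
    let a : ℕ → ℕ := fun p => if hp : p ∈ D then c p hp else 0
    have hs : ∀ i ∈ D, (fun p : ℕ => p) i ≠ 0 := fun i hi => (hD i hi).ne_zero
    have pp : Set.Pairwise (D : Set ℕ) (Function.onFun Nat.Coprime (fun p : ℕ => p)) := by
      intro i hi j hj hij
      exact (Nat.coprime_primes (hD i hi) (hD j hj)).2 hij
    obtain ⟨x, hx⟩ := Nat.chineseRemainderOfFinset a (fun p => p) D hs pp
    have heq : S.filter (fun i => F i = c) = (range M).filter (fun i => i ≡ x [MOD d]) := by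
      ext i
      simp only [hS, mem_filter, mem_range]
      constructor
      · rintro ⟨⟨hiM, _⟩, hFi⟩
        refine ⟨hiM, ?_⟩
        have h1 : ∀ p ∈ D, i ≡ x [MOD p] := by
          intro p hp
          have h2 := congrFun (congrFun hFi p) hp
          have h3 := hx p hp
          simp only [a, dif_pos hp] at h3
          have h4 : i % p = c p hp := h2
          have h5 : i % p = (c p hp) % p := by
            rw [h4, Nat.mod_eq_of_lt]
            exact mem_range.1 (hΩ p (hc p hp))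
          exact Nat.ModEq.trans h5 h3.symm
        have : i ≡ x [MOD ∏ p ∈ D, p] := by
          rw [Nat.modEq_iff_dvd]
          push_cast
          refine Finset.prod_dvd_of_coprime ?_ ?_
          · intro p hp q hq hpq
            exact Nat.isCoprime_iff_coprime.2 (pp hp hq hpq)
          · intro p hp
            exact Nat.modEq_iff_dvd.1 (h1 p hp)
        exact this
      · rintro ⟨hiM, hix⟩
        have h1 : ∀ p (hp : p ∈ D), i % p = c p hp := by
          intro p hp
          have h2 : i ≡ x [MOD p] := Nat.ModEq.of_dvd (dvd_prod_of_mem (fun p : ℕ => p) hp) hix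
          have h3 := hx p hp
          simp only [a, dif_pos hp] at h3
          have h4 : i % p = c p hp % p := h2.trans h3
          rw [h4, Nat.mod_eq_of_lt]
          exact mem_range.1 (hΩ p (hc p hp))
        refine ⟨⟨hiM, fun p hp => ?_⟩, ?_⟩
        · rw [h1 p hp]; exact hc p hp
        · funext p hp; exact h1 p hp
    rw [heq]
    exact count_class M d x hdpos
  have hcard : ((D.pi Ω).card : ℝ) = ∏ p ∈ D, ((Ω p).card : ℝ) := by
    rw [card_pi]; push_cast; rfl
  have hwt : (M : ℝ) * wt Ω D = ∑ _c ∈ D.pi Ω, (M : ℝ) / d := by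
    rw [sum_const, nsmul_eq_mul, hcard, wt, prod_div_distrib, hd]
    push_cast
    ring
  have hS' : (S.card : ℝ) = ∑ c ∈ D.pi Ω, (((S.filter (fun i => F i = c)).card : ℕ) : ℝ) := by
    exact_mod_cast hfib
  rw [hwt, hS', ← sum_sub_distrib]
  refine (abs_sum_le_sum_abs _ _).trans ?_
  refine (sum_le_sum hclass).trans ?_
  rw [sum_const, nsmul_eq_mul, mul_one, hcard]
  calc ∏ p ∈ D, ((Ω p).card : ℝ) ≤ ∏ _p ∈ D, k := by
        refine prod_le_prod (fun p _ => by positivity) (fun p _ => hk p)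
    _ = k ^ D.card := by rw [prod_const]

/-- multiplication by a combination of events attached to new primes -/
lemma Approx.mul {Ω : ℕ → Finset ℕ} {k : ℝ} {M : ℕ} {P : Finset ℕ} {f : ℕ → ℝ} {e r : ℝ}
    (h : Approx Ω k M P f e r) (P' : Finset ℕ) (hP' : ∀ p ∈ P', p.Prime)
    (hdisj : Disjoint P P') (F : Finset (Finset ℕ)) (hF : ∀ D ∈ F, D ⊆ P') (c : Finset ℕ → ℝ) :
    Approx Ω k M (P ∪ P') (fun i => f i * ∑ D ∈ F, c D * ind Ω D i)
      (e * ∑ D ∈ F, c D * wt Ω D) (r * ∑ D ∈ F, |c D| * k ^ D.card) := by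
  classical
  intro D0 hD0 hdis
  have hd1 : Disjoint D0 P := disjoint_of_subset_right subset_union_left hdis
  have hd2 : Disjoint D0 P' := disjoint_of_subset_right subset_union_right hdis
  have key : ∀ D ∈ F, |∑ i ∈ range M, f i * ind Ω (D ∪ D0) i - M * (e * wt Ω (D ∪ D0))|
      ≤ r * k ^ (D ∪ D0).card := by
    intro D hD
    refine h (D ∪ D0) ?_ ?_
    · intro p hp
      rcases mem_union.1 hp with h1 | h1
      · exact hP' p (hF D hD h1)
      · exact hD0 p h1
    · rw [disjoint_union_left]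
      exact ⟨(disjoint_of_subset_right (hF D hD) hdisj).symm, hd1⟩
  have hdD : ∀ D ∈ F, Disjoint D D0 := fun D hD =>
    (disjoint_of_subset_right (hF D hD) hd2).symm
  have e1 : ∑ i ∈ range M, (f i * ∑ D ∈ F, c D * ind Ω D i) * ind Ω D0 i
      = ∑ D ∈ F, c D * ∑ i ∈ range M, f i * ind Ω (D ∪ D0) i := by
    simp_rw [mul_sum, sum_mul]
    rw [sum_comm]
    refine sum_congr rfl fun D _ => sum_congr rfl fun i _ => ?_
    rw [ind_union]; ring
  have e2 : (M : ℝ) * ((e * ∑ D ∈ F, c D * wt Ω D) * wt Ω D0)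
      = ∑ D ∈ F, c D * (M * (e * wt Ω (D ∪ D0))) := by
    rw [mul_sum, sum_mul, mul_sum]
    refine sum_congr rfl fun D hD => ?_
    rw [wt_union Ω D D0 (hdD D hD)]; ring
  rw [e1, e2, ← sum_sub_distrib]
  refine (abs_sum_le_sum_abs _ _).trans ?_
  rw [mul_sum, sum_mul]
  refine sum_le_sum fun D hD => ?_
  rw [← mul_sub, abs_mul]
  refine (mul_le_mul_of_nonneg_left (key D hD) (abs_nonneg _)).trans_eq ?_
  rw [card_union_of_disjoint (hdD D hD), pow_add]; ring

lemma Approx.sub {Ω : ℕ → Finset ℕ} {k : ℝ} {M : ℕ} {P : Finset ℕ} {f g : ℕ → ℝ} {e r e' r' : ℝ}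
    (h : Approx Ω k M P f e r) (h' : Approx Ω k M P g e' r') :
    Approx Ω k M P (fun i => f i - g i) (e - e') (r + r') := by
  intro D hD hdis
  have h1 := h D hD hdis
  have h2 := h' D hD hdis
  have e1 : ∑ i ∈ range M, (f i - g i) * ind Ω D i - M * ((e - e') * wt Ω D)
      = (∑ i ∈ range M, f i * ind Ω D i - M * (e * wt Ω D))
        - (∑ i ∈ range M, g i * ind Ω D i - M * (e' * wt Ω D)) := by
    simp_rw [sub_mul]
    rw [sum_sub_distrib]; ring
  rw [e1]
  refine (abs_sub _ _).trans ?_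
  rw [add_mul]
  exact add_le_add h1 h2

lemma Approx.mono {Ω : ℕ → Finset ℕ} {k : ℝ} {M : ℕ} {P : Finset ℕ} {f : ℕ → ℝ} {e r r' : ℝ}
    (h : Approx Ω k M P f e r) (hr : r ≤ r') (hk : 0 ≤ k) : Approx Ω k M P f e r' := by
  intro D hD hdis
  refine (h D hD hdis).trans ?_
  exact mul_le_mul_of_nonneg_right hr (by positivity)

end Pool.Agent.Helper1.Brun
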