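import Pool.Agent.Helper1.BrunA

set_option autoImplicit false

open Finset

namespace Pool.Agent.Helper1.Brun

/-- subsets of `P` with at most `b` elements -/
def Fb (P : Finset ℕ) (b : ℕ) : Finset (Finset ℕ) := P.powerset.filter (fun D => D.card ≤ b)

/-- truncated inclusion-exclusion function -/
noncomputable def yb (Ω : ℕ → Finset ℕ) (P : Finset ℕ) (b i : ℕ) : ℝ :=
  ∑ D ∈ Fb P b, (-1 : ℝ) ^ D.card * ind Ω D i

noncomputable def Cb (Ω : ℕ → Finset ℕ) (P : Finset ℕ) (b i : ℕ) : ℝ :=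
  ∑ D ∈ P.powersetCard (b + 1), (1 : ℝ) * ind Ω D i

open Classical in
noncomputable def xb (Ω : ℕ → Finset ℕ) (P : Finset ℕ) (i : ℕ) : ℝ :=
  if ∀ p ∈ P, i % p ∉ Ω p then 1 else 0

/-- primes of `P` that kill `i` -/
def KK (Ω : ℕ → Finset ℕ) (P : Finset ℕ) (i : ℕ) : Finset ℕ := P.filter (fun p => i % p ∈ Ω p)

lemma ind_eq (Ω : ℕ → Finset ℕ) (P D : Finset ℕ) (i : ℕ) (hD : D ⊆ P) :
    ind Ω D i = if D ⊆ KK Ω P i then 1 else 0 := by
  classical
  unfold ind
  congr 1
  simp only [KK, eq_iff_iff]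
  constructor
  · intro h p hp; exact mem_filter.2 ⟨hD hp, h p hp⟩
  · intro h p hp; exact (mem_filter.1 (h hp)).2

lemma yb_eq (Ω : ℕ → Finset ℕ) (P : Finset ℕ) (b i : ℕ) :
    yb Ω P b i = ∑ j ∈ range (b + 1), (-1 : ℝ) ^ j * ((KK Ω P i).card.choose j : ℝ) := by
  classical
  set K := KK Ω P i with hK
  have hKP : K ⊆ P := filter_subset _ _
  have e1 : yb Ω P b i = ∑ D ∈ K.powerset, (if D.card ≤ b then (-1 : ℝ) ^ D.card else 0) := by
    unfold yb Fb
    rw [sum_filter]
    have e2 : ∀ D ∈ P.powerset, (if D.card ≤ b then (-1 : ℝ) ^ D.card * ind Ω D i else 0)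
        = if D ⊆ K then (if D.card ≤ b then (-1 : ℝ) ^ D.card else 0) else 0 := by
      intro D hD
      rw [ind_eq Ω P D i (mem_powerset.1 hD), ← hK]
      by_cases h1 : D ⊆ K <;> by_cases h2 : D.card ≤ b <;> simp [h1, h2]
    rw [sum_congr rfl e2, ← sum_filter]
    refine sum_congr ?_ fun _ _ => rfl
    ext D
    simp only [mem_filter, mem_powerset]
    exact ⟨fun h => h.2, fun h => ⟨h.trans hKP, h⟩⟩
  rw [e1, sum_powerset_apply_card (fun m => if m ≤ b then (-1 : ℝ) ^ m else 0)]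
  simp only [nsmul_eq_mul, mul_ite, mul_zero]
  rw [← sum_filter]
  have e3 : (range (K.card + 1)).filter (fun m => m ≤ b) ⊆ range (b + 1) := by
    intro m hm; simp only [mem_filter, mem_range] at hm ⊢; omega
  rw [sum_subset e3 ?_]
  · refine sum_congr rfl fun m _ => ?_
    ring
  · intro m hm hm'
    simp only [mem_filter, mem_range, not_and, not_le] at hm hm'
    have : K.card < m := by
      by_contra hcon
      have := hm' (by omega)
      omega
    rw [Nat.choose_eq_zero_of_lt this]; simp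

lemma Cb_eq (Ω : ℕ → Finset ℕ) (P : Finset ℕ) (b i : ℕ) :
    Cb Ω P b i = ((KK Ω P i).card.choose (b + 1) : ℝ) := by
  classical
  set K := KK Ω P i with hK
  have hKP : K ⊆ P := filter_subset _ _
  unfold Cb
  have e2 : ∀ D ∈ P.powersetCard (b + 1), (1 : ℝ) * ind Ω D i = if D ⊆ K then 1 else 0 := by
    intro D hD
    rw [ind_eq Ω P D i (mem_powersetCard.1 hD).1, ← hK, one_mul]
  rw [sum_congr rfl e2, ← sum_filter]
  have e3 : (P.powersetCard (b + 1)).filter (fun D => D ⊆ K) = K.powersetCard (b + 1) := by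
    ext D
    simp only [mem_filter, mem_powersetCard]
    exact ⟨fun h => ⟨h.2, h.1.2⟩, fun h => ⟨⟨h.1.trans hKP, h.2⟩, h.1⟩⟩
  rw [e3, sum_const, card_powersetCard, nsmul_eq_mul, mul_one]

lemma xb_eq (Ω : ℕ → Finset ℕ) (P : Finset ℕ) (i : ℕ) :
    xb Ω P i = if (KK Ω P i).card = 0 then 1 else 0 := by
  unfold xb
  congr 1
  simp only [KK, card_eq_zero, filter_eq_empty_iff]

lemma alt_sum_real (n b : ℕ) :
    ∑ j ∈ range (b + 1), (-1 : ℝ) ^ j * ((n + 1).choose j : ℝ) = (-1) ^ b * (n.choose b : ℝ) := by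
  have h := Int.alternating_sum_range_choose_eq_choose (n := n) (m := b)
  exact_mod_cast h

lemma alt_sum_real_zero (b : ℕ) :
    ∑ j ∈ range (b + 1), (-1 : ℝ) ^ j * ((0 : ℕ).choose j : ℝ) = 1 := by
  rw [sum_range_succ']
  simp

lemma xb_nonneg (Ω : ℕ → Finset ℕ) (P : Finset ℕ) (i : ℕ) : 0 ≤ xb Ω P i := by
  unfold xb; split_ifs <;> norm_num

lemma xb_le_yb (Ω : ℕ → Finset ℕ) (P : Finset ℕ) (b i : ℕ) (hb : Even b) :
    xb Ω P i ≤ yb Ω P b i := by
  rw [xb_eq, yb_eq]
  rcases Nat.eq_zero_or_pos (KK Ω P i).card with h | h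
  · rw [h, alt_sum_real_zero, if_pos rfl]
  · obtain ⟨n, hn⟩ : ∃ n, (KK Ω P i).card = n + 1 := ⟨(KK Ω P i).card - 1, by omega⟩
    rw [hn, alt_sum_real, if_neg (by omega), hb.neg_one_pow, one_mul]
    positivity

lemma yb_sub_xb_le (Ω : ℕ → Finset ℕ) (P : Finset ℕ) (b i : ℕ) (hb : Even b) :
    yb Ω P b i - xb Ω P i ≤ Cb Ω P b i := by
  rw [xb_eq, yb_eq, Cb_eq]
  rcases Nat.eq_zero_or_pos (KK Ω P i).card with h | h
  · rw [h, alt_sum_real_zero, if_pos rfl]; simp
  · obtain ⟨n, hn⟩ : ∃ n, (KK Ω P i).card = n + 1 := ⟨(KK Ω P i).card - 1, by omega⟩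
    rw [hn, alt_sum_real, if_neg (by omega), hb.neg_one_pow, one_mul, sub_zero]
    rw [Nat.choose_succ_succ]
    push_cast
    have : (0 : ℝ) ≤ (n.choose (b + 1) : ℝ) := by positivity
    linarith

lemma Cb_nonneg (Ω : ℕ → Finset ℕ) (P : Finset ℕ) (b i : ℕ) : 0 ≤ Cb Ω P b i := by
  rw [Cb_eq]; positivity

/-- truncated signed elementary symmetric sums -/
noncomputable def G (x : ℕ → ℝ) (P : Finset ℕ) (b : ℕ) : ℝ :=
  ∑ D ∈ Fb P b, (-1 : ℝ) ^ D.card * ∏ p ∈ D, x p

lemma G_zero (x : ℕ → ℝ) (P : Finset ℕ) : G x P 0 = 1 := by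
  unfold G Fb
  have : P.powerset.filter (fun D => D.card ≤ 0) = {∅} := by
    ext D
    simp only [mem_filter, mem_powerset, Nat.le_zero, card_eq_zero, mem_singleton]
    constructor
    · exact fun h => h.2
    · rintro rfl; exact ⟨empty_subset _, rfl⟩
  rw [this]; simp

lemma G_insert (x : ℕ → ℝ) (s : Finset ℕ) (q b : ℕ) (hq : q ∉ s) :
    G x (insert q s) (b + 1) = G x s (b + 1) - x q * G x s b := by
  classical
  unfold G Fb
  rw [sum_filter, sum_powerset_insert hq, sum_filter, sum_filter, mul_sum, sub_eq_add_neg,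
    ← sum_neg_distrib]
  congr 1
  refine sum_congr rfl fun t ht => ?_
  have hqt : q ∉ t := fun h => hq (mem_powerset.1 ht h)
  rw [card_insert_of_notMem hqt, prod_insert hqt]
  by_cases h : t.card ≤ b
  · rw [if_pos (by omega), if_pos h, pow_succ]; ring
  · rw [if_neg (by omega), if_neg h]; ring

lemma G_bonf (x : ℕ → ℝ) (P : Finset ℕ) (hx : ∀ p ∈ P, 0 ≤ x p ∧ x p ≤ 1) (b : ℕ) :
    (Even b → ∏ p ∈ P, (1 - x p) ≤ G x P b) ∧ (Odd b → G x P b ≤ ∏ p ∈ P, (1 - x p)) := by
  classical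
  induction P using Finset.induction_on generalizing b with
  | empty =>
    have : G x ∅ b = 1 := by
      unfold G Fb
      have : (∅ : Finset ℕ).powerset.filter (fun D => D.card ≤ b) = {∅} := by
        ext D; simp only [powerset_empty, mem_filter, mem_singleton]
        constructor
        · exact fun h => h.1
        · rintro rfl; simp
      rw [this]; simp
    rw [this]; simp
  | insert q s hq ih =>
    have hxs : ∀ p ∈ s, 0 ≤ x p ∧ x p ≤ 1 := fun p hp => hx p (mem_insert_of_mem hp)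
    have hxq := hx q (mem_insert_self _ _)
    have hprod : 0 ≤ ∏ p ∈ s, (1 - x p) := prod_nonneg fun p hp => by linarith [(hxs p hp).2]
    have hprod1 : ∏ p ∈ s, (1 - x p) ≤ 1 := prod_le_one
      (fun p hp => by linarith [(hxs p hp).2]) (fun p hp => by linarith [(hxs p hp).1])
    rw [prod_insert hq]
    cases b with
    | zero =>
      rw [G_zero]
      refine ⟨fun _ => ?_, fun h => by simp at h⟩
      nlinarith
    | succ b =>
      rw [G_insert x s q b hq]
      obtain ⟨h1, h2⟩ := ih hxs (b + 1)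
      obtain ⟨h3, h4⟩ := ih hxs b
      constructor
      · intro he
        have ho : Odd b := by
          rw [Nat.even_add_one] at he
          exact Nat.not_even_iff_odd.1 he
        have := h1 he
        have := mul_le_mul_of_nonneg_left (h4 ho) hxq.1
        linarith
      · intro ho
        have he : Even b := by
          rw [Nat.odd_add_one] at ho
          exact Nat.not_odd_iff_even.1 ho
        have := h2 ho
        have := mul_le_mul_of_nonneg_left (h3 he) hxq.1
        linarith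

lemma pow_add_le (S x : ℝ) (hS : 0 ≤ S) (hx : 0 ≤ x) (m : ℕ) :
    S ^ (m + 1) + (m + 1) * x * S ^ m ≤ (S + x) ^ (m + 1) := by
  induction m with
  | zero => simp
  | succ m ih =>
    have h1 := mul_le_mul_of_nonneg_left ih (by positivity : 0 ≤ S + x)
    have h2 : (S + x) ^ (m + 1 + 1) = (S + x) * (S + x) ^ (m + 1) := by ring
    rw [h2]
    refine le_trans ?_ h1
    push_cast
    have h3 : (S + x) * (S ^ (m + 1) + (m + 1) * x * S ^ m)
        = S ^ (m + 1 + 1) + (m + 1 + 1) * x * S ^ (m + 1) + (m + 1) * x ^ 2 * S ^ m := by ring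
    rw [h3]
    have : 0 ≤ ((m : ℝ) + 1) * x ^ 2 * S ^ m := by positivity
    linarith

/-- elementary symmetric sums are at most powers over factorials -/
lemma esymm_le (x : ℕ → ℝ) (P : Finset ℕ) (hx : ∀ p ∈ P, 0 ≤ x p) (m : ℕ) :
    (m.factorial : ℝ) * ∑ D ∈ P.powersetCard m, ∏ p ∈ D, x p ≤ (∑ p ∈ P, x p) ^ m := by
  classical
  induction P using Finset.induction_on generalizing m with
  | empty =>
    cases m with
    | zero => simp
    | succ m =>
      have : powersetCard (m + 1) (∅ : Finset ℕ) = ∅ := by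
        rw [powersetCard_eq_empty]; simp
      rw [this]; simp
  | insert q s hq ih =>
    have hxs : ∀ p ∈ s, 0 ≤ x p := fun p hp => hx p (mem_insert_of_mem hp)
    have hxq := hx q (mem_insert_self _ _)
    have hS : 0 ≤ ∑ p ∈ s, x p := sum_nonneg hxs
    cases m with
    | zero => simp
    | succ m =>
      rw [powersetCard_succ_insert hq, sum_union, sum_insert hq, add_comm (x q)]
      · have e1 : ∑ D ∈ (powersetCard m s).image (insert q), ∏ p ∈ D, x p
            = x q * ∑ D ∈ powersetCard m s, ∏ p ∈ D, x p := by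
          rw [sum_image, mul_sum]
          · refine sum_congr rfl fun D hD => ?_
            rw [prod_insert]
            exact fun h => hq ((mem_powersetCard.1 hD).1 h)
          · intro D hD D' hD' h
            have h1 : q ∉ D := fun h => hq ((mem_powersetCard.1 hD).1 h)
            have h2 : q ∉ D' := fun h => hq ((mem_powersetCard.1 hD').1 h)
            rw [← erase_insert h1, h, erase_insert h2]
        rw [e1]
        have h1 := ih hxs (m + 1)
        have h2 := ih hxs m
        have h3 := pow_add_le (∑ p ∈ s, x p) (x q) hS hxq m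
        have h4 : (((m + 1).factorial : ℕ) : ℝ) = (m + 1) * (m.factorial : ℝ) := by
          rw [Nat.factorial_succ]; push_cast; ring
        have h5 := mul_le_mul_of_nonneg_left h2 (by positivity : 0 ≤ ((m : ℝ) + 1) * x q)
        rw [mul_add, ← mul_assoc]
        calc _ = ((m + 1).factorial : ℝ) * ∑ D ∈ powersetCard (m + 1) s, ∏ p ∈ D, x p
              + ((m : ℝ) + 1) * x q * ((m.factorial : ℝ) * ∑ D ∈ powersetCard m s, ∏ p ∈ D, x p) := by
              rw [h4]; ring
          _ ≤ (∑ p ∈ s, x p) ^ (m + 1) + ((m : ℝ) + 1) * x q * (∑ p ∈ s, x p) ^ m :=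
              add_le_add h1 h5
          _ ≤ _ := h3
      · rw [disjoint_left]
        intro D hD hD'
        rw [mem_image] at hD'
        obtain ⟨D0, _, rfl⟩ := hD'
        exact hq ((mem_powersetCard.1 hD).1 (mem_insert_self _ _))

lemma rY_le (P : Finset ℕ) (k : ℝ) (hk : 0 ≤ k) (b : ℕ) :
    ∑ D ∈ Fb P b, |(-1 : ℝ) ^ D.card| * k ^ D.card ≤ (1 + k * P.card) ^ (b + 1) := by
  have h0 : ∑ D ∈ Fb P b, |(-1 : ℝ) ^ D.card| * k ^ D.card
      = ∑ D ∈ P.powerset, (if D.card ≤ b then k ^ D.card else 0) := by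
    unfold Fb
    rw [sum_filter]
    refine sum_congr rfl fun D _ => ?_
    simp
  rw [h0, sum_powerset_apply_card (fun m => if m ≤ b then k ^ m else 0)]
  simp only [nsmul_eq_mul, mul_ite, mul_zero]
  rw [← sum_filter]
  have e3 : (range (P.card + 1)).filter (fun m => m ≤ b) ⊆ range (b + 1) := by
    intro m hm; simp only [mem_filter, mem_range] at hm ⊢; omega
  refine (sum_le_sum_of_subset_of_nonneg e3 (fun m _ _ => by positivity)).trans ?_
  have h1 : (1 + k * P.card) ^ b = ∑ m ∈ range (b + 1), (k * P.card) ^ m * (b.choose m : ℝ) := by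
    rw [add_comm, add_pow]; simp
  have h2 : ∑ m ∈ range (b + 1), (P.card.choose m : ℝ) * k ^ m ≤ (1 + k * P.card) ^ b := by
    rw [h1]
    refine sum_le_sum fun m hm => ?_
    have hm' : m ≤ b := by simpa [Nat.lt_succ_iff] using hm
    have h3 : (P.card.choose m : ℝ) ≤ (P.card : ℝ) ^ m := by exact_mod_cast Nat.choose_le_pow _ _
    have h4 : (1 : ℝ) ≤ (b.choose m : ℝ) := by exact_mod_cast Nat.choose_pos hm'
    calc (P.card.choose m : ℝ) * k ^ m ≤ (P.card : ℝ) ^ m * k ^ m :=
          mul_le_mul_of_nonneg_right h3 (by positivity)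
      _ = (k * P.card) ^ m * 1 := by rw [mul_pow]; ring
      _ ≤ (k * P.card) ^ m * (b.choose m : ℝ) := mul_le_mul_of_nonneg_left h4 (by positivity)
  refine h2.trans ?_
  exact pow_le_pow_right₀ (by nlinarith [mul_nonneg hk (Nat.cast_nonneg (α := ℝ) P.card)])
    (Nat.le_succ b)

lemma rC_le (P : Finset ℕ) (k : ℝ) (hk : 0 ≤ k) (b : ℕ) :
    ∑ D ∈ P.powersetCard (b + 1), |(1 : ℝ)| * k ^ D.card ≤ (1 + k * P.card) ^ (b + 1) := by
  have h0 : ∑ D ∈ P.powersetCard (b + 1), |(1 : ℝ)| * k ^ D.card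
      = (P.card.choose (b + 1) : ℝ) * k ^ (b + 1) := by
    rw [← card_powersetCard, ← nsmul_eq_mul, ← sum_const]
    refine sum_congr rfl fun D hD => ?_
    rw [(mem_powersetCard.1 hD).2]; simp
  rw [h0]
  have h3 : (P.card.choose (b + 1) : ℝ) ≤ (P.card : ℝ) ^ (b + 1) := by
    exact_mod_cast Nat.choose_le_pow _ _
  calc (P.card.choose (b + 1) : ℝ) * k ^ (b + 1) ≤ (P.card : ℝ) ^ (b + 1) * k ^ (b + 1) :=
        mul_le_mul_of_nonneg_right h3 (by positivity)
    _ = (k * P.card) ^ (b + 1) := by rw [mul_pow]; ring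
    _ ≤ (1 + k * P.card) ^ (b + 1) := by
        apply pow_le_pow_left₀ (by positivity)
        linarith

end Pool.Agent.Helper1.Brun
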