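import Pool.Agent.Helper1.BrunB

set_option autoImplicit false

open Finset

namespace Pool.Agent.Helper1.Brun

/-- upper product function -/
noncomputable def Yf (Ω : ℕ → Finset ℕ) (Pb : ℕ → Finset ℕ) (bb : ℕ → ℕ) : ℕ → ℕ → ℝ
  | 0 => fun _ => 1
  | (j + 1) => fun i => Yf Ω Pb bb j i * yb Ω (Pb j) (bb j) i

/-- lower function -/
noncomputable def Lf (Ω : ℕ → Finset ℕ) (Pb : ℕ → Finset ℕ) (bb : ℕ → ℕ) : ℕ → ℕ → ℝ
  | 0 => fun _ => 1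
  | (j + 1) => fun i => Lf Ω Pb bb j i * yb Ω (Pb j) (bb j) i
      - Yf Ω Pb bb j i * Cb Ω (Pb j) (bb j) i

/-- exact indicator -/
noncomputable def Xf (Ω : ℕ → Finset ℕ) (Pb : ℕ → Finset ℕ) (j i : ℕ) : ℝ :=
  ∏ l ∈ range j, xb Ω (Pb l) i

lemma Xf_nonneg (Ω : ℕ → Finset ℕ) (Pb : ℕ → Finset ℕ) (j i : ℕ) : 0 ≤ Xf Ω Pb j i :=
  prod_nonneg fun l _ => xb_nonneg Ω (Pb l) i

lemma Xf_succ (Ω : ℕ → Finset ℕ) (Pb : ℕ → Finset ℕ) (j i : ℕ) :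
    Xf Ω Pb (j + 1) i = Xf Ω Pb j i * xb Ω (Pb j) i := by
  unfold Xf; rw [prod_range_succ]

lemma bounds (Ω : ℕ → Finset ℕ) (Pb : ℕ → Finset ℕ) (bb : ℕ → ℕ) (hb : ∀ l, Even (bb l))
    (j i : ℕ) : Lf Ω Pb bb j i ≤ Xf Ω Pb j i ∧ Xf Ω Pb j i ≤ Yf Ω Pb bb j i := by
  induction j with
  | zero => simp [Lf, Xf, Yf]
  | succ j ih =>
    have hX := Xf_nonneg Ω Pb j i
    have hx0 := xb_nonneg Ω (Pb j) i
    have hxy := xb_le_yb Ω (Pb j) (bb j) i (hb j)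
    have hy0 : 0 ≤ yb Ω (Pb j) (bb j) i := hx0.trans hxy
    have hyx := yb_sub_xb_le Ω (Pb j) (bb j) i (hb j)
    have hC := Cb_nonneg Ω (Pb j) (bb j) i
    have hY : 0 ≤ Yf Ω Pb bb j i := hX.trans ih.2
    rw [Xf_succ]
    constructor
    · show Lf Ω Pb bb j i * yb Ω (Pb j) (bb j) i - Yf Ω Pb bb j i * Cb Ω (Pb j) (bb j) i ≤ _
      have h1 : Lf Ω Pb bb j i * yb Ω (Pb j) (bb j) i ≤ Xf Ω Pb j i * yb Ω (Pb j) (bb j) i :=
        mul_le_mul_of_nonneg_right ih.1 hy0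
      have h2 : Xf Ω Pb j i * (yb Ω (Pb j) (bb j) i - xb Ω (Pb j) i)
          ≤ Yf Ω Pb bb j i * Cb Ω (Pb j) (bb j) i :=
        (mul_le_mul_of_nonneg_left hyx hX).trans (mul_le_mul_of_nonneg_right ih.2 hC)
      linarith
    · show _ ≤ Yf Ω Pb bb j i * yb Ω (Pb j) (bb j) i
      exact mul_le_mul ih.2 hxy hx0 hY

/-- local weights -/
noncomputable def wp (Ω : ℕ → Finset ℕ) (p : ℕ) : ℝ := ((Ω p).card : ℝ) / p

noncomputable def eY (Ω : ℕ → Finset ℕ) (P : Finset ℕ) (b : ℕ) : ℝ := G (wp Ω) P b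

noncomputable def eC (Ω : ℕ → Finset ℕ) (P : Finset ℕ) (b : ℕ) : ℝ :=
  ∑ D ∈ P.powersetCard (b + 1), ∏ p ∈ D, wp Ω p

noncomputable def RR (k : ℝ) (P : Finset ℕ) (b : ℕ) : ℝ := (1 + k * P.card) ^ (b + 1)

lemma RR_nonneg (k : ℝ) (hk : 0 ≤ k) (P : Finset ℕ) (b : ℕ) : 0 ≤ RR k P b := by
  unfold RR; positivity

/-- union of the first blocks -/
def UU (Pb : ℕ → Finset ℕ) (j : ℕ) : Finset ℕ := (range j).biUnion Pb

lemma UU_succ (Pb : ℕ → Finset ℕ) (j : ℕ) : UU Pb (j + 1) = UU Pb j ∪ Pb j := by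
  unfold UU; rw [range_add_one, biUnion_insert, union_comm]

lemma approx_Yf (Ω : ℕ → Finset ℕ) (k : ℝ) (hk0 : 0 ≤ k) (M : ℕ) (hΩ : ∀ p, Ω p ⊆ range p)
    (hk : ∀ p, ((Ω p).card : ℝ) ≤ k) (Pb : ℕ → Finset ℕ) (bb : ℕ → ℕ)
    (hprime : ∀ l, ∀ p ∈ Pb l, p.Prime) (hdisj : ∀ j, Disjoint (UU Pb j) (Pb j)) (j : ℕ) :
    Approx Ω k M (UU Pb j) (Yf Ω Pb bb j) (∏ l ∈ range j, eY Ω (Pb l) (bb l))
      (∏ l ∈ range j, RR k (Pb l) (bb l)) := by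
  induction j with
  | zero =>
    have : UU Pb 0 = ∅ := by simp [UU]
    rw [this, prod_range_zero, prod_range_zero]
    exact approx_one Ω k M hΩ hk
  | succ j ih =>
    rw [UU_succ, prod_range_succ, prod_range_succ]
    have h := ih.mul (Pb j) (hprime j) (hdisj j) (Fb (Pb j) (bb j))
      (fun D hD => mem_powerset.1 (mem_filter.1 hD).1) (fun D => (-1 : ℝ) ^ D.card)
    refine Approx.mono h ?_ hk0
    exact mul_le_mul_of_nonneg_left (rY_le _ _ hk0 _)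
      (prod_nonneg fun l _ => RR_nonneg k hk0 _ _)

noncomputable def eL (Ω : ℕ → Finset ℕ) (Pb : ℕ → Finset ℕ) (bb : ℕ → ℕ) : ℕ → ℝ
  | 0 => 1
  | (j + 1) => eL Ω Pb bb j * eY Ω (Pb j) (bb j)
      - (∏ l ∈ range j, eY Ω (Pb l) (bb l)) * eC Ω (Pb j) (bb j)

lemma approx_Lf (Ω : ℕ → Finset ℕ) (k : ℝ) (hk0 : 0 ≤ k) (M : ℕ) (hΩ : ∀ p, Ω p ⊆ range p)
    (hk : ∀ p, ((Ω p).card : ℝ) ≤ k) (Pb : ℕ → Finset ℕ) (bb : ℕ → ℕ)
    (hprime : ∀ l, ∀ p ∈ Pb l, p.Prime) (hdisj : ∀ j, Disjoint (UU Pb j) (Pb j)) (j : ℕ) :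
    Approx Ω k M (UU Pb j) (Lf Ω Pb bb j) (eL Ω Pb bb j)
      ((j + 1) * ∏ l ∈ range j, RR k (Pb l) (bb l)) := by
  induction j with
  | zero =>
    have : UU Pb 0 = ∅ := by simp [UU]
    rw [this, prod_range_zero]
    have h := approx_one Ω k M hΩ hk
    simpa [Lf, eL] using h
  | succ j ih =>
    rw [UU_succ, prod_range_succ]
    have h1 := ih.mul (Pb j) (hprime j) (hdisj j) (Fb (Pb j) (bb j))
      (fun D hD => mem_powerset.1 (mem_filter.1 hD).1) (fun D => (-1 : ℝ) ^ D.card)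
    have h2 := (approx_Yf Ω k hk0 M hΩ hk Pb bb hprime hdisj j).mul (Pb j) (hprime j) (hdisj j)
      ((Pb j).powersetCard (bb j + 1))
      (fun D hD => (mem_powersetCard.1 hD).1) (fun _ => (1 : ℝ))
    have h3 := h1.sub h2
    have e1 : ∑ D ∈ (Pb j).powersetCard (bb j + 1), (1 : ℝ) * wt Ω D = eC Ω (Pb j) (bb j) := by
      unfold eC wt wp; simp
    rw [e1] at h3
    refine Approx.mono h3 ?_ hk0
    have hR : 0 ≤ ∏ l ∈ range j, RR k (Pb l) (bb l) := prod_nonneg fun l _ => RR_nonneg k hk0 _ _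
    have hR' := RR_nonneg k hk0 (Pb j) (bb j)
    have h4 := rY_le (Pb j) k hk0 (bb j)
    have h5 := rC_le (Pb j) k hk0 (bb j)
    calc _ ≤ ((j : ℝ) + 1) * (∏ l ∈ range j, RR k (Pb l) (bb l)) * RR k (Pb j) (bb j)
          + (∏ l ∈ range j, RR k (Pb l) (bb l)) * RR k (Pb j) (bb j) := by
          refine add_le_add ?_ ?_
          · exact mul_le_mul_of_nonneg_left h4 (by positivity)
          · exact mul_le_mul_of_nonneg_left h5 hR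
      _ = _ := by push_cast; ring

lemma eL_ge (Ω : ℕ → Finset ℕ) (Pb : ℕ → Finset ℕ) (bb : ℕ → ℕ) (δ : ℕ → ℝ) (J : ℕ)
    (hY : ∀ l < J, 0 ≤ eY Ω (Pb l) (bb l))
    (hδ : ∀ l < J, eC Ω (Pb l) (bb l) ≤ δ l * eY Ω (Pb l) (bb l)) (j : ℕ) (hj : j ≤ J) :
    (1 - ∑ l ∈ range j, δ l) * ∏ l ∈ range j, eY Ω (Pb l) (bb l) ≤ eL Ω Pb bb j := by
  induction j with
  | zero => simp [eL]
  | succ j ih =>
    have ih' := ih (by omega)
    have hYj := hY j (by omega)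
    have hδj := hδ j (by omega)
    have hP : 0 ≤ ∏ l ∈ range j, eY Ω (Pb l) (bb l) := prod_nonneg fun l hl =>
      hY l (by have := mem_range.1 hl; omega)
    rw [sum_range_succ, prod_range_succ]
    show _ ≤ eL Ω Pb bb j * eY Ω (Pb j) (bb j)
      - (∏ l ∈ range j, eY Ω (Pb l) (bb l)) * eC Ω (Pb j) (bb j)
    have h1 := mul_le_mul_of_nonneg_right ih' hYj
    have h2 := mul_le_mul_of_nonneg_left hδj hP
    nlinarith

/-- Brun-Hooley lower bound sieve -/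
theorem brun_hooley (Ω : ℕ → Finset ℕ) (k : ℝ) (hk0 : 0 ≤ k) (M : ℕ) (hΩ : ∀ p, Ω p ⊆ range p)
    (hk : ∀ p, ((Ω p).card : ℝ) ≤ k) (Pb : ℕ → Finset ℕ) (bb : ℕ → ℕ) (J : ℕ)
    (hprime : ∀ l, ∀ p ∈ Pb l, p.Prime) (hdisj : ∀ j, Disjoint (UU Pb j) (Pb j))
    (hb : ∀ l, Even (bb l)) (V : ℝ) (hV0 : 0 < V)
    (hV : ∀ l < J, V ≤ ∏ p ∈ Pb l, (1 - wp Ω p)) (hw : ∀ p, wp Ω p ≤ 1)
    (hC : ∑ l ∈ range J, eC Ω (Pb l) (bb l) ≤ V / 2) :
    M * (1 / 2) * V ^ J - (J + 1) * ∏ l ∈ range J, RR k (Pb l) (bb l)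
      ≤ (((range M).filter (fun i => ∀ l < J, ∀ p ∈ Pb l, i % p ∉ Ω p)).card : ℝ) := by
  classical
  have hw0 : ∀ p, 0 ≤ wp Ω p := fun p => by unfold wp; positivity
  have hYV : ∀ l < J, V ≤ eY Ω (Pb l) (bb l) := fun l hl =>
    (hV l hl).trans ((G_bonf (wp Ω) (Pb l) (fun p _ => ⟨hw0 p, hw p⟩) (bb l)).1 (hb l))
  have hC0 : ∀ l, 0 ≤ eC Ω (Pb l) (bb l) := fun l =>
    sum_nonneg fun D _ => prod_nonneg fun p _ => hw0 p
  -- choose the deltas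
  have hδ : ∀ l < J, eC Ω (Pb l) (bb l) ≤ (eC Ω (Pb l) (bb l) / V) * eY Ω (Pb l) (bb l) := by
    intro l hl
    have h1 := hYV l hl
    have h2 : (eC Ω (Pb l) (bb l) / V) * V ≤ (eC Ω (Pb l) (bb l) / V) * eY Ω (Pb l) (bb l) :=
      mul_le_mul_of_nonneg_left h1 (div_nonneg (hC0 l) hV0.le)
    rwa [div_mul_cancel₀ _ hV0.ne'] at h2
  have hsum : ∑ l ∈ range J, eC Ω (Pb l) (bb l) / V ≤ 1 / 2 := by
    rw [← sum_div, div_le_iff₀ hV0]; linarith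
  have hL := eL_ge Ω Pb bb (fun l => eC Ω (Pb l) (bb l) / V) J
    (fun l hl => hV0.le.trans (hYV l hl)) hδ J le_rfl
  have hprodY : V ^ J ≤ ∏ l ∈ range J, eY Ω (Pb l) (bb l) := by
    have : V ^ J = ∏ _l ∈ range J, V := by simp
    rw [this]
    exact prod_le_prod (fun l _ => hV0.le) (fun l hl => hYV l (mem_range.1 hl))
  have heL : 1 / 2 * V ^ J ≤ eL Ω Pb bb J := by
    refine le_trans ?_ hL
    refine mul_le_mul (by linarith) hprodY (by positivity) (by linarith)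
  have hA := approx_Lf Ω k hk0 M hΩ hk Pb bb hprime hdisj J ∅ (by simp) (by simp)
  have e1 : ∀ i, ind Ω ∅ i = 1 := fun i => by unfold ind; simp
  have e2 : wt Ω ∅ = 1 := by unfold wt; simp
  simp only [e1, e2, mul_one, card_empty, pow_zero] at hA
  have h1 := (abs_le.1 hA).1
  have h2 : ∑ i ∈ range M, Lf Ω Pb bb J i ≤ ∑ i ∈ range M, Xf Ω Pb J i :=
    sum_le_sum fun i _ => (bounds Ω Pb bb hb J i).1
  have h3 : ∑ i ∈ range M, Xf Ω Pb J i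
      = (((range M).filter (fun i => ∀ l < J, ∀ p ∈ Pb l, i % p ∉ Ω p)).card : ℝ) := by
    rw [card_filter]
    push_cast
    refine sum_congr rfl fun i _ => ?_
    unfold Xf xb
    by_cases h : ∀ l < J, ∀ p ∈ Pb l, i % p ∉ Ω p
    · rw [if_pos h]
      refine prod_eq_one fun l hl => ?_
      rw [if_pos (h l (mem_range.1 hl))]
    · rw [if_neg h]
      push Not at h
      obtain ⟨l, hl, p, hp, hip⟩ := h
      refine prod_eq_zero (mem_range.2 hl) ?_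
      rw [if_neg]
      exact fun hcon => hcon p hp hip
  have h4 : (M : ℝ) * (1 / 2 * V ^ J) ≤ M * eL Ω Pb bb J :=
    mul_le_mul_of_nonneg_left heL (by positivity)
  linarith

end Pool.Agent.Helper1.Brun
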