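import Mathlib

set_option autoImplicit false

open Finset

namespace Pool.Agent.Helper1.ZeroOne

/-- primes in `(a, b]` -/
def prs (a b : ℕ) : Finset ℕ := (Ioc a b).filter Nat.Prime

lemma card_prs_double (A z : ℕ) (hz : 2 ^ A ≤ z) : A * (prs z (2 * z)).card ≤ 4 * z := by
  have h1 : z ^ (prs z (2 * z)).card ≤ ∏ q ∈ prs z (2 * z), q := by
    rw [← prod_const]
    refine prod_le_prod' fun q hq => ?_
    simp only [prs, mem_filter, mem_Ioc] at hq
    exact hq.1.1.le
  have h2 : ∏ q ∈ prs z (2 * z), q ≤ primorial (2 * z) := by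
    unfold primorial
    refine prod_le_prod_of_subset_of_one_le' ?_ ?_
    · intro q hq
      simp only [prs, mem_filter, mem_Ioc, mem_range] at hq ⊢
      exact ⟨by omega, hq.2⟩
    · intro q hq _
      exact (mem_filter.1 hq).2.one_lt.le
  have h3 := primorial_le_four_pow (2 * z)
  have h4 : (2 ^ A) ^ (prs z (2 * z)).card ≤ 2 ^ (4 * z) := by
    calc (2 ^ A) ^ (prs z (2 * z)).card ≤ z ^ (prs z (2 * z)).card := Nat.pow_le_pow_left hz _
      _ ≤ 4 ^ (2 * z) := h1.trans (h2.trans h3)
      _ = 2 ^ (4 * z) := by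
        rw [show (4 : ℕ) = 2 ^ 2 by norm_num, ← pow_mul]; congr 1; ring
  rw [← pow_mul] at h4
  exact (Nat.pow_le_pow_iff_right (by norm_num)).1 h4

/-- product of `(1 - 2k/q)⁻¹` over primes `q` in `(a, b]` -/
noncomputable def Pf (k a b : ℕ) : ℝ := ∏ q ∈ prs a b, (1 - 2 * (k : ℝ) / q)⁻¹

lemma Pf_split (k a b c : ℕ) (hab : a ≤ b) (hbc : b ≤ c) : Pf k a c = Pf k a b * Pf k b c := by
  unfold Pf prs
  rw [← prod_union]
  · congr 1
    ext x
    simp only [mem_filter, mem_Ioc, mem_union]
    constructor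
    · rintro ⟨h1, h2⟩
      by_cases h3 : x ≤ b
      · exact Or.inl ⟨⟨h1.1, h3⟩, h2⟩
      · exact Or.inr ⟨⟨by omega, h1.2⟩, h2⟩
    · rintro (⟨h1, h2⟩ | ⟨h1, h2⟩)
      · exact ⟨⟨h1.1, by omega⟩, h2⟩
      · exact ⟨⟨by omega, h1.2⟩, h2⟩
  · rw [disjoint_left]
    intro x; simp only [mem_filter, mem_Ioc]; omega

lemma inv_one_sub_le_exp (x : ℝ) (h0 : 0 ≤ x) (h1 : x ≤ 1 / 2) : (1 - x)⁻¹ ≤ Real.exp (2 * x) := by
  have h2 : 0 < 1 - x := by linarith
  have h3 : (1 - x)⁻¹ ≤ 1 + 2 * x := by
    rw [inv_le_iff_one_le_mul₀ h2]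
    nlinarith
  have h4 := Real.add_one_le_exp (2 * x)
  linarith

lemma Pf_nonneg_factor (k a q : ℕ) (ha : 4 * k ≤ a) (hq : a < q) :
    1 ≤ (1 - 2 * (k : ℝ) / q)⁻¹ := by
  have hq0 : (0 : ℝ) < q := by exact_mod_cast (by omega : 0 < q)
  have h1 : 2 * (k : ℝ) / q ≤ 1 / 2 := by
    rw [div_le_iff₀ hq0]
    have : (4 * k : ℝ) ≤ q := by exact_mod_cast (by omega : 4 * k ≤ q)
    linarith
  have h2 : 0 ≤ 2 * (k : ℝ) / q := by positivity
  exact (one_le_inv₀ (by linarith)).2 (by linarith)

lemma Pf_block (k z n : ℕ) (hk : 1 ≤ k) (hz : 2 ^ (64 * k) ≤ z) (hn : n ≤ 2 * z) :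
    Pf k z n ≤ Real.exp (1 / 4) := by
  have hkz : 4 * k ≤ z := by
    have h1 : 64 * k < 2 ^ (64 * k) := Nat.lt_two_pow_self
    omega
  have hz0 : (0 : ℝ) < z := by exact_mod_cast (by omega : 0 < z)
  have hcard := card_prs_double (64 * k) z hz
  have hcard' : (prs z n).card ≤ (prs z (2 * z)).card := by
    apply card_le_card
    intro q hq
    simp only [prs, mem_filter, mem_Ioc] at hq ⊢
    exact ⟨⟨hq.1.1, by omega⟩, hq.2⟩
  have h1 : Pf k z n ≤ ∏ _q ∈ prs z n, Real.exp (4 * k / z) := by
    unfold Pf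
    refine prod_le_prod (fun q hq => ?_) (fun q hq => ?_)
    · simp only [prs, mem_filter, mem_Ioc] at hq
      exact zero_le_one.trans (Pf_nonneg_factor k z q hkz hq.1.1)
    · simp only [prs, mem_filter, mem_Ioc] at hq
      have hq0 : (0 : ℝ) < q := by exact_mod_cast (by omega : 0 < q)
      have hzq : (z : ℝ) ≤ q := by exact_mod_cast hq.1.1.le
      have h2 : 2 * (k : ℝ) / q ≤ 1 / 2 := by
        rw [div_le_iff₀ hq0]
        have : (4 * k : ℝ) ≤ q := by exact_mod_cast (by omega : 4 * k ≤ q)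
        linarith
      refine (inv_one_sub_le_exp _ (by positivity) h2).trans ?_
      apply Real.exp_le_exp.2
      have : 2 * (2 * (k : ℝ) / q) = 4 * k / q := by ring
      rw [this]
      exact div_le_div_of_nonneg_left (by positivity) hz0 hzq
  refine h1.trans ?_
  rw [prod_const, ← Real.exp_nat_mul]
  apply Real.exp_le_exp.2
  have h2 : ((prs z n).card : ℝ) * (64 * k) ≤ 4 * z := by
    have : (prs z n).card * (64 * k) ≤ 4 * z := by
      calc (prs z n).card * (64 * k) ≤ (prs z (2 * z)).card * (64 * k) :=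
            Nat.mul_le_mul_right _ hcard'
        _ ≤ 4 * z := by rw [mul_comm]; exact hcard
    exact_mod_cast this
  have h3 : ((prs z n).card : ℝ) * (4 * k / z) = ((prs z n).card * (64 * k)) / (16 * z) := by
    field_simp; ring
  rw [h3, div_le_iff₀ (by positivity)]
  linarith

lemma exp_quarter : Real.exp (1 / 4) ≤ 1.29 := by
  have h := Real.exp_bound' (x := 1 / 4) (by norm_num) (by norm_num) (n := 3) (by norm_num)
  refine h.trans ?_
  simp [Finset.sum_range_succ, Nat.factorial]
  norm_num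

theorem Pf_le (k y : ℕ) (hk : 1 ≤ k) (hy : 2 ^ (64 * k) ≤ y) (n : ℕ) (hn : y ≤ n) :
    Pf k y n ≤ 2 * Real.sqrt (n / y) := by
  have hy64 : 2 ^ 64 ≤ y := le_trans (Nat.pow_le_pow_right (by norm_num) (by omega)) hy
  have hy0 : (0 : ℝ) < y := by
    have : 0 < y := lt_of_lt_of_le (by norm_num) hy64
    exact_mod_cast this
  induction n using Nat.strong_induction_on with
  | _ n ih =>
    by_cases h2 : n ≤ 2 * y
    · have h3 := Pf_block k y n hk hy h2
      have h4 : (1 : ℝ) ≤ Real.sqrt (n / y) := by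
        rw [Real.one_le_sqrt, one_le_div hy0]
        exact_mod_cast hn
      have := exp_quarter
      linarith
    · push Not at h2
      set z := (n + 1) / 2 with hz
      have hzn : z < n := by omega
      have hyz : y ≤ z := by omega
      have hn2 : n ≤ 2 * z := by omega
      rw [Pf_split k y z n hyz (by omega)]
      have h3 := ih z hzn hyz
      have h4 := Pf_block k z n hk (hy.trans hyz) hn2
      have h5 := exp_quarter
      have h0 : 0 ≤ Pf k z n := by
        unfold Pf
        refine prod_nonneg fun q hq => ?_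
        simp only [prs, mem_filter, mem_Ioc] at hq
        have hkz : 4 * k ≤ z := by
          have h1 : 64 * k < 2 ^ (64 * k) := Nat.lt_two_pow_self
          omega
        exact zero_le_one.trans (Pf_nonneg_factor k z q hkz hq.1.1)
      calc Pf k y z * Pf k z n ≤ (2 * Real.sqrt (z / y)) * 1.29 := by
            refine mul_le_mul h3 (h4.trans h5) h0 (by positivity)
        _ = 2 * (Real.sqrt (z / y) * 1.29) := by ring
        _ ≤ 2 * Real.sqrt (n / y) := by
            refine mul_le_mul_of_nonneg_left ?_ (by norm_num)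
            apply Real.le_sqrt_of_sq_le
            rw [mul_pow, Real.sq_sqrt (by positivity)]
            rw [div_mul_eq_mul_div]
            apply div_le_div_of_nonneg_right _ hy0.le
            have h6 : (z : ℝ) ≤ (n + 1) / 2 := by
              rw [le_div_iff₀ (by norm_num)]
              exact_mod_cast (by omega : z * 2 ≤ n + 1)
            have h7 : (100 : ℝ) ≤ n := by
              have : 100 ≤ n := by
                have : (2 : ℕ) ^ 64 ≥ 100 := by norm_num
                omega
              exact_mod_cast this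
            nlinarith

end Pool.Agent.Helper1.ZeroOne
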