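import Pool.Agent.Helper1.BrunC
import Pool.Agent.Helper1.ZeroOneB

set_option autoImplicit false

open Finset Filter Topology

namespace Pool.Agent.Helper1.Brun

open Pool.Agent.Helper1.ZeroOne (prs card_prs_double inv_one_sub_le_exp)

/-- indices below `M` not lying in a removed class modulo any `p ∈ Q` -/
def surv2 (Ω : ℕ → Finset ℕ) (Q : Finset ℕ) (M : ℕ) : Finset ℕ :=
  (range M).filter (fun i => ∀ p ∈ Q, i % p ∉ Ω p)

lemma sum_inv_block (A z : ℕ) (hA : 1 ≤ A) (hz : 2 ^ A ≤ z) :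
    ∑ p ∈ prs z (2 * z), (1 : ℝ) / p ≤ 4 / A := by
  have hz0 : 0 < z := lt_of_lt_of_le (by positivity) hz
  have hzR : (0 : ℝ) < z := by exact_mod_cast hz0
  have hAR : (0 : ℝ) < A := by exact_mod_cast hA
  have hc := card_prs_double A z hz
  have hc' : (A : ℝ) * (prs z (2 * z)).card ≤ 4 * z := by exact_mod_cast hc
  have h1 : ∑ p ∈ prs z (2 * z), (1 : ℝ) / p ≤ ∑ _p ∈ prs z (2 * z), (1 : ℝ) / z := by
    refine sum_le_sum fun p hp => ?_
    simp only [prs, mem_filter, mem_Ioc] at hp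
    exact one_div_le_one_div_of_le hzR (by exact_mod_cast hp.1.1.le)
  refine h1.trans ?_
  rw [sum_const, nsmul_eq_mul, mul_one_div, div_le_div_iff₀ hzR hAR]
  linarith

lemma prs_union (a b c : ℕ) (hab : a ≤ b) (hbc : b ≤ c) : prs a c = prs a b ∪ prs b c := by
  unfold prs
  ext x
  simp only [mem_filter, mem_Ioc, mem_union]
  constructor
  · rintro ⟨h1, h2⟩
    by_cases h3 : x ≤ b
    · exact Or.inl ⟨⟨h1.1, h3⟩, h2⟩
    · exact Or.inr ⟨⟨by omega, h1.2⟩, h2⟩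
  · rintro (⟨h1, h2⟩ | ⟨h1, h2⟩)
    · exact ⟨⟨h1.1, by omega⟩, h2⟩
    · exact ⟨⟨by omega, h1.2⟩, h2⟩

lemma prs_disjoint (a b c d : ℕ) (hbc : b ≤ c) : Disjoint (prs a b) (prs c d) := by
  rw [disjoint_left]
  intro x; simp only [prs, mem_filter, mem_Ioc]; omega

lemma sum_inv_dyadic (A u : ℕ) (hA : 1 ≤ A) (hu : 2 ^ A ≤ u) (m : ℕ) :
    ∑ p ∈ prs u (2 ^ m * u), (1 : ℝ) / p ≤ m * (4 / A) := by
  induction m with
  | zero => simp [prs]
  | succ m ih =>
    have h1 : u ≤ 2 ^ m * u := Nat.le_mul_of_pos_left _ (by positivity)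
    have h2 : 2 ^ (m + 1) * u = 2 * (2 ^ m * u) := by ring
    rw [h2, prs_union u (2 ^ m * u) (2 * (2 ^ m * u)) h1 (by omega),
      sum_union (prs_disjoint _ _ _ _ le_rfl)]
    have h3 := sum_inv_block A (2 ^ m * u) hA (hu.trans h1)
    push_cast
    linarith

lemma sum_inv_sq (u : ℕ) (hu : 2 ≤ u) : ∑ p ∈ prs u (u ^ 2), (1 : ℝ) / p ≤ 8 := by
  set A := Nat.log 2 u with hAdef
  have hA : 1 ≤ A := by
    rw [hAdef]; exact (Nat.le_log_iff_pow_le (by norm_num) (by omega)).2 (by simpa using hu)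
  have hAu : 2 ^ A ≤ u := Nat.pow_log_le_self 2 (by omega)
  have huA : u < 2 ^ (A + 1) := Nat.lt_pow_succ_log_self (by norm_num) u
  have h1 := sum_inv_dyadic A u hA hAu (A + 1)
  have hsub : prs u (u ^ 2) ⊆ prs u (2 ^ (A + 1) * u) := by
    intro x hx
    simp only [prs, mem_filter, mem_Ioc] at hx ⊢
    refine ⟨⟨hx.1.1, hx.1.2.trans ?_⟩, hx.2⟩
    rw [pow_two]; exact Nat.mul_le_mul_right _ huA.le
  have h2 : ∑ p ∈ prs u (u ^ 2), (1 : ℝ) / p ≤ ∑ p ∈ prs u (2 ^ (A + 1) * u), (1 : ℝ) / p :=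
    sum_le_sum_of_subset_of_nonneg hsub (fun _ _ _ => by positivity)
  refine h2.trans (h1.trans ?_)
  have hAR : (1 : ℝ) ≤ A := by exact_mod_cast hA
  push_cast
  rw [mul_div_assoc', div_le_iff₀ (by linarith)]
  linarith

lemma exp_tail (c ε : ℝ) (hc : 0 ≤ c) (hε : 0 < ε) :
    ∃ b : ℕ, Even b ∧ ∀ N : ℕ, ∑ n ∈ range N, c ^ (n + (b + 1)) / ((n + (b + 1)).factorial : ℝ) ≤ ε := by
  have hs := Real.summable_pow_div_factorial c
  have ht := tendsto_sum_nat_add (fun n => c ^ n / (n.factorial : ℝ))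
  have hev := ht.eventually (gt_mem_nhds hε)
  rw [eventually_atTop] at hev
  obtain ⟨b0, hb0⟩ := hev
  refine ⟨2 * b0, even_two_mul b0, fun N => ?_⟩
  have h1 := hb0 (2 * b0 + 1) (by omega)
  refine le_trans ?_ h1.le
  have hs' : Summable (fun n => c ^ (n + (2 * b0 + 1)) / ((n + (2 * b0 + 1)).factorial : ℝ)) :=
    (summable_nat_add_iff (f := fun n => c ^ n / (n.factorial : ℝ)) (2 * b0 + 1)).2 hs
  exact hs'.sum_le_tsum (range N) (fun n _ => by positivity)

lemma two_pow_sum (b J : ℕ) :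
    ∑ l ∈ range J, 2 ^ l * (b + 1 + 2 * (J - 1 - l)) + (b + 3) + 2 * J = (b + 3) * 2 ^ J := by
  induction J with
  | zero => simp
  | succ J ih =>
    rw [sum_range_succ']
    have h1 : ∑ l ∈ range J, 2 ^ (l + 1) * (b + 1 + 2 * (J + 1 - 1 - (l + 1)))
        = 2 * ∑ l ∈ range J, 2 ^ l * (b + 1 + 2 * (J - 1 - l)) := by
      rw [mul_sum]
      refine sum_congr rfl fun l _ => ?_
      have : J + 1 - 1 - (l + 1) = J - 1 - l := by omega
      rw [this]; ring
    rw [h1]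
    have h2 : J + 1 - 1 - 0 = J := by omega
    rw [h2, pow_zero, one_mul, pow_succ]
    linarith

/-- the blocks -/
def Pbl (y l : ℕ) : Finset ℕ := prs (y ^ 2 ^ l) (y ^ 2 ^ (l + 1))

lemma UU_Pbl (y : ℕ) (hy : 1 ≤ y) (j : ℕ) : UU (Pbl y) j = prs y (y ^ 2 ^ j) := by
  induction j with
  | zero => simp [UU, prs]
  | succ j ih =>
    rw [UU_succ, ih, Pbl, ← prs_union]
    · calc y = y ^ 1 := (pow_one y).symm
        _ ≤ y ^ 2 ^ j := Nat.pow_le_pow_right hy Nat.one_le_two_pow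
    · exact Nat.pow_le_pow_right hy (Nat.pow_le_pow_right (by norm_num) (by omega))

/-- sieve lower bound with explicit shape: at most `k` classes are removed modulo each prime in
`(y, y^(2^J)]` -/
theorem sieve_lower (k : ℕ) (hk : 1 ≤ k) : ∃ b : ℕ, ∀ y J M : ℕ, 2 * k + 1 ≤ y →
    ∀ Ω : ℕ → Finset ℕ, (∀ p, Ω p ⊆ range p) → (∀ p, (Ω p).card ≤ k) →
    M * (1 / 2) * Real.exp (-(16 * k)) ^ J - (J + 1) * ((y : ℝ) ^ 2 ^ J) ^ (3 * (b + 3))
      ≤ ((surv2 Ω (prs y (y ^ 2 ^ J)) M).card : ℝ) := by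
  classical
  obtain ⟨b, hbe, hb⟩ := exp_tail (8 * k) (Real.exp (-(16 * k)) / 2) (by positivity) (by positivity)
  refine ⟨b, fun y J M hy Ω hΩ hΩk => ?_⟩
  set bb : ℕ → ℕ := fun l => b + 2 * (J - 1 - l) with hbb
  have hbbe : ∀ l, Even (bb l) := fun l => hbe.add (even_two_mul _)
  have hy1 : 1 ≤ y := by omega
  have hkR : (1 : ℝ) ≤ k := by exact_mod_cast hk
  have hyl : ∀ l, y ≤ y ^ 2 ^ l := fun l => by
    calc y = y ^ 1 := (pow_one y).symm
      _ ≤ y ^ 2 ^ l := Nat.pow_le_pow_right hy1 Nat.one_le_two_pow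
  have hprime : ∀ l, ∀ p ∈ Pbl y l, p.Prime := fun l p hp => (mem_filter.1 hp).2
  have hdisj : ∀ j, Disjoint (UU (Pbl y) j) (Pbl y j) := fun j => by
    rw [UU_Pbl y hy1]; exact prs_disjoint _ _ _ _ le_rfl
  have hwp0 : ∀ p, 0 ≤ wp Ω p := fun p => by unfold wp; positivity
  have hwp1 : ∀ p, wp Ω p ≤ 1 := by
    intro p
    unfold wp
    have h1 : (Ω p).card ≤ p := by
      have := card_le_card (hΩ p); rwa [card_range] at this
    exact div_le_one_of_le₀ (by exact_mod_cast h1) (by positivity)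
  have hwpk : ∀ l, ∀ p ∈ Pbl y l, wp Ω p ≤ k * (1 / p) ∧ wp Ω p ≤ 1 / 2 := by
    intro l p hp
    simp only [Pbl, prs, mem_filter, mem_Ioc] at hp
    have hyp : y < p := lt_of_le_of_lt (hyl l) hp.1.1
    have hpR : (0 : ℝ) < p := by exact_mod_cast (by omega : 0 < p)
    have h1 : ((Ω p).card : ℝ) ≤ k := by exact_mod_cast hΩk p
    have h2 : wp Ω p ≤ k * (1 / p) := by
      unfold wp
      rw [mul_one_div]
      exact div_le_div_of_nonneg_right h1 hpR.le
    refine ⟨h2, h2.trans ?_⟩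
    rw [mul_one_div, div_le_iff₀ hpR]
    have : (2 * k + 1 : ℝ) ≤ p := by exact_mod_cast (by omega : 2 * k + 1 ≤ p)
    linarith
  have hS : ∀ l, ∑ p ∈ Pbl y l, wp Ω p ≤ 8 * k := by
    intro l
    have h1 : ∑ p ∈ Pbl y l, wp Ω p ≤ ∑ p ∈ Pbl y l, (k : ℝ) * (1 / p) :=
      sum_le_sum fun p hp => (hwpk l p hp).1
    rw [← mul_sum] at h1
    have h2 : ∑ p ∈ Pbl y l, (1 : ℝ) / p ≤ 8 := by
      have h3 := sum_inv_sq (y ^ 2 ^ l) ((by omega : 2 ≤ y).trans (hyl l))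
      have h4 : (y ^ 2 ^ l) ^ 2 = y ^ 2 ^ (l + 1) := by rw [← pow_mul, ← pow_succ]
      rw [h4] at h3
      exact h3
    nlinarith
  have hV : ∀ l < J, Real.exp (-(16 * k)) ≤ ∏ p ∈ Pbl y l, (1 - wp Ω p) := by
    intro l _
    have h1 : ∏ p ∈ Pbl y l, Real.exp (-(2 * wp Ω p)) ≤ ∏ p ∈ Pbl y l, (1 - wp Ω p) := by
      refine prod_le_prod (fun p _ => (Real.exp_pos _).le) (fun p hp => ?_)
      have h2 := inv_one_sub_le_exp (wp Ω p) (hwp0 p) (hwpk l p hp).2
      have h3 : 0 < 1 - wp Ω p := by linarith [(hwpk l p hp).2]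
      rw [Real.exp_neg]
      rw [inv_le_comm₀ (Real.exp_pos _) h3]
      exact h2
    refine le_trans ?_ h1
    rw [← Real.exp_sum]
    apply Real.exp_le_exp.2
    rw [sum_neg_distrib, ← mul_sum]
    linarith [hS l]
  have hC : ∑ l ∈ range J, eC Ω (Pbl y l) (bb l) ≤ Real.exp (-(16 * k)) / 2 := by
    have h1 : ∀ l, eC Ω (Pbl y l) (bb l) ≤
        (8 * (k : ℝ)) ^ (bb l + 1) / ((bb l + 1).factorial : ℝ) := by
      intro l
      have h2 := esymm_le (wp Ω) (Pbl y l) (fun p _ => hwp0 p) (bb l + 1)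
      have h3 : (∑ p ∈ Pbl y l, wp Ω p) ^ (bb l + 1) ≤ (8 * (k : ℝ)) ^ (bb l + 1) :=
        pow_le_pow_left₀ (sum_nonneg fun p _ => hwp0 p) (hS l) _
      unfold eC
      rw [le_div_iff₀ (by positivity), mul_comm]
      exact h2.trans h3
    refine (sum_le_sum fun l _ => h1 l).trans ?_
    have h4 : ∑ l ∈ range J, (8 * (k : ℝ)) ^ (bb l + 1) / ((bb l + 1).factorial : ℝ)
        = ∑ l ∈ range J, (8 * (k : ℝ)) ^ (2 * l + (b + 1)) / ((2 * l + (b + 1)).factorial : ℝ) := by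
      rw [← sum_range_reflect]
      refine sum_congr rfl fun l hl => ?_
      have hl' := mem_range.1 hl
      have : bb (J - 1 - l) + 1 = 2 * l + (b + 1) := by
        simp only [hbb]; omega
      rw [this]
    rw [h4]
    refine le_trans ?_ (hb (2 * J))
    have h5 : ∑ l ∈ range J, (8 * (k : ℝ)) ^ (2 * l + (b + 1)) / ((2 * l + (b + 1)).factorial : ℝ)
        = ∑ n ∈ (range J).image (fun l => 2 * l),
          (8 * (k : ℝ)) ^ (n + (b + 1)) / ((n + (b + 1)).factorial : ℝ) := by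
      rw [sum_image]
      intro a _ c _ h
      simpa using h
    rw [h5]
    refine sum_le_sum_of_subset_of_nonneg ?_ (fun n _ _ => by positivity)
    intro n hn
    simp only [mem_image, mem_range] at hn ⊢
    obtain ⟨l, hl, rfl⟩ := hn
    omega
  have hmain := brun_hooley Ω k (by positivity) M hΩ (fun p => by exact_mod_cast hΩk p)
    (Pbl y) bb J hprime hdisj hbbe (Real.exp (-(16 * k))) (Real.exp_pos _) hV hwp1 hC
  have hR : ∏ l ∈ range J, RR k (Pbl y l) (bb l) ≤ ((y : ℝ) ^ 2 ^ J) ^ (3 * (b + 3)) := by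
    have hyR : (1 : ℝ) ≤ y := by exact_mod_cast hy1
    have h1 : ∀ l ∈ range J, RR k (Pbl y l) (bb l) ≤ (y : ℝ) ^ (3 * (2 ^ l * (b + 1 + 2 * (J - 1 - l)))) := by
      intro l _
      have h2 : (1 : ℝ) + k * (Pbl y l).card ≤ (y : ℝ) ^ (3 * 2 ^ l) := by
        have h3 : (Pbl y l).card ≤ y ^ 2 ^ (l + 1) := by
          unfold Pbl prs
          refine (card_filter_le _ _).trans ?_
          rw [Nat.card_Ioc]; omega
        have h4 : 1 + k * (Pbl y l).card ≤ y ^ (3 * 2 ^ l) := by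
          have h5 : 1 ≤ y ^ 2 ^ (l + 1) := Nat.one_le_pow _ _ (by omega)
          have h6 : k * (Pbl y l).card ≤ k * y ^ 2 ^ (l + 1) := Nat.mul_le_mul_left _ h3
          calc 1 + k * (Pbl y l).card ≤ (1 + k) * y ^ 2 ^ (l + 1) := by
                rw [add_mul, one_mul]; omega
            _ ≤ y * y ^ 2 ^ (l + 1) := Nat.mul_le_mul_right _ (by omega)
            _ = y ^ (2 ^ (l + 1) + 1) := by ring
            _ ≤ y ^ (3 * 2 ^ l) := by
                apply Nat.pow_le_pow_right (by omega)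
                have : 1 ≤ 2 ^ l := Nat.one_le_two_pow
                rw [pow_succ]; omega
        exact_mod_cast h4
      unfold RR
      calc (1 + (k : ℝ) * (Pbl y l).card) ^ (bb l + 1) ≤ ((y : ℝ) ^ (3 * 2 ^ l)) ^ (bb l + 1) :=
            pow_le_pow_left₀ (by positivity) h2 _
        _ = (y : ℝ) ^ (3 * (2 ^ l * (b + 1 + 2 * (J - 1 - l)))) := by
            rw [← pow_mul]
            congr 1
            simp only [hbb]; ring
    refine (prod_le_prod (fun l _ => RR_nonneg _ (by positivity) _ _) h1).trans ?_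
    rw [prod_pow_eq_pow_sum, ← pow_mul]
    apply pow_le_pow_right₀ hyR
    rw [← mul_sum]
    have h7 := two_pow_sum b J
    have h8 : ∑ l ∈ range J, 2 ^ l * (b + 1 + 2 * (J - 1 - l)) ≤ (b + 3) * 2 ^ J := by omega
    calc 3 * ∑ l ∈ range J, 2 ^ l * (b + 1 + 2 * (J - 1 - l)) ≤ 3 * ((b + 3) * 2 ^ J) :=
          Nat.mul_le_mul_left _ h8
      _ = 2 ^ J * (3 * (b + 3)) := by ring
  have hset : ((range M).filter (fun i => ∀ l < J, ∀ p ∈ Pbl y l, i % p ∉ Ω p))
      = surv2 Ω (prs y (y ^ 2 ^ J)) M := by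
    unfold surv2
    ext i
    simp only [mem_filter]
    apply and_congr_right
    intro _
    have hU := UU_Pbl y hy1 J
    constructor
    · intro h p hp
      have hmem : p ∈ UU (Pbl y) J := by rw [hU]; exact hp
      unfold UU at hmem
      rw [mem_biUnion] at hmem
      obtain ⟨l, hl, hpl⟩ := hmem
      exact h l (mem_range.1 hl) p hpl
    · intro h l hl p hp
      have hmem : p ∈ UU (Pbl y) J := by
        unfold UU; rw [mem_biUnion]; exact ⟨l, mem_range.2 hl, hp⟩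
      rw [hU] at hmem
      exact h p hmem
  rw [hset] at hmain
  refine le_trans ?_ hmain
  have := mul_le_mul_of_nonneg_left hR (by positivity : (0 : ℝ) ≤ (J : ℝ) + 1)
  linarith

end Pool.Agent.Helper1.Brun
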