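import Pool.Agent.Helper64.C3.Defs

/-!
Module M7 of the proof of `c_3^* = 4e/(e-1)`: the limit argument for the lower bound.
-/

set_option autoImplicit false

open Metric Set Filter Topology Asymptotics

namespace Pool.Agent.Helper1.C3M7

open Pool.Agent.Helper64.C3

/-- the real inequality obtained from one function -/
theorem ineq (hL : ∀ n : ℕ, 0 < n → ∀ θ : ℕ → ℝ, ∃ f : ℂ → ℂ, ClassS f ∧
      coeff 2 f = (2 / n : ℂ) * ∑ j ∈ Finset.range n, Complex.exp (θ j * Complex.I) ∧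
      coeff 3 f - (coeff 2 f) ^ 2 =
        - ∑ j ∈ Finset.range n, ((2 * j + 1 : ℂ) / n ^ 2) * Complex.exp (2 * θ j * Complex.I))
    {c : ℝ} (h : ∀ f : ℂ → ℂ, ClassS f →
      |((3 : ℂ) - coeff 3 f).re| ≤ c * (2 - coeff 2 f).re) (n : ℕ) (hn : 0 < n) (θ : ℕ → ℝ) :
    3 - 4 * ((∑ j ∈ Finset.range n, Real.cos (θ j)) / n) ^ 2
      + 4 * ((∑ j ∈ Finset.range n, Real.sin (θ j)) / n) ^ 2
      + ∑ j ∈ Finset.range n, ((2 * j + 1 : ℝ) / n ^ 2) * Real.cos (2 * θ j)
      ≤ c * (2 - 2 * ((∑ j ∈ Finset.range n, Real.cos (θ j)) / n)) := by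
  obtain ⟨f, hf, h2, h3⟩ := hL n hn θ
  have h4 := (le_abs_self _).trans (h f hf)
  have hre : (coeff 2 f).re = 2 * ((∑ j ∈ Finset.range n, Real.cos (θ j)) / n) := by
    rw [h2]
    have : (2 / n : ℂ) = ((2 / n : ℝ) : ℂ) := by push_cast; ring
    rw [this, Complex.re_ofReal_mul, Complex.re_sum]
    simp only [Complex.exp_ofReal_mul_I_re]
    ring
  have him : (coeff 2 f).im = 2 * ((∑ j ∈ Finset.range n, Real.sin (θ j)) / n) := by
    rw [h2]
    have : (2 / n : ℂ) = ((2 / n : ℝ) : ℂ) := by push_cast; ring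
    rw [this, Complex.im_ofReal_mul, Complex.im_sum]
    simp only [Complex.exp_ofReal_mul_I_im]
    ring
  have hw : (∑ j ∈ Finset.range n, ((2 * j + 1 : ℂ) / n ^ 2) *
      Complex.exp (2 * θ j * Complex.I)).re =
      ∑ j ∈ Finset.range n, ((2 * j + 1 : ℝ) / n ^ 2) * Real.cos (2 * θ j) := by
    rw [Complex.re_sum]
    apply Finset.sum_congr rfl
    intro j _
    have e1 : ((2 * j + 1 : ℂ) / n ^ 2) = (((2 * j + 1 : ℝ) / n ^ 2 : ℝ) : ℂ) := by push_cast; ring
    have e2 : (2 * (θ j : ℂ) * Complex.I) = ((2 * θ j : ℝ) : ℂ) * Complex.I := by push_cast; ring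
    rw [e1, e2, Complex.re_ofReal_mul, Complex.exp_ofReal_mul_I_re]
  have h5 : coeff 3 f = (coeff 2 f) ^ 2 - ∑ j ∈ Finset.range n, ((2 * j + 1 : ℂ) / n ^ 2) *
      Complex.exp (2 * θ j * Complex.I) := by
    linear_combination h3
  have h6 : (coeff 3 f).re = (coeff 2 f).re ^ 2 - (coeff 2 f).im ^ 2 -
      ∑ j ∈ Finset.range n, ((2 * j + 1 : ℝ) / n ^ 2) * Real.cos (2 * θ j) := by
    rw [h5, Complex.sub_re, hw, sq (coeff 2 f), Complex.mul_re]
    ring
  rw [Complex.sub_re, Complex.sub_re, h6, hre, him] at h4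
  have e3 : (3 : ℂ).re = 3 := by simp
  have e4 : (2 : ℂ).re = 2 := by simp
  rw [e3, e4] at h4
  nlinarith [h4]

theorem tendsto_sin_div (s : ℝ) : Tendsto (fun t : ℝ => Real.sin (t * s) / t) (𝓝[≠] 0) (𝓝 s) := by
  have h1 : HasDerivAt (fun t : ℝ => Real.sin (t * s)) (Real.cos (0 * s) * (1 * s)) 0 :=
    ((hasDerivAt_id (0 : ℝ)).mul_const s).sin
  have h2 := h1.tendsto_slope
  have e : Real.cos (0 * s) * (1 * s) = s := by simp
  rw [e] at h2
  refine h2.congr ?_
  intro t
  simp [slope_def_field]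

/-- dividing by `t ^ 2` and letting `t` tend to zero -/
theorem limit_ineq {c : ℝ} (n : ℕ) (hn : 0 < n)
    (h : ∀ θ : ℕ → ℝ, 3 - 4 * ((∑ j ∈ Finset.range n, Real.cos (θ j)) / n) ^ 2
      + 4 * ((∑ j ∈ Finset.range n, Real.sin (θ j)) / n) ^ 2
      + ∑ j ∈ Finset.range n, ((2 * j + 1 : ℝ) / n ^ 2) * Real.cos (2 * θ j)
      ≤ c * (2 - 2 * ((∑ j ∈ Finset.range n, Real.cos (θ j)) / n))) (s : ℕ → ℝ) :
    4 * ((∑ j ∈ Finset.range n, s j ^ 2) / n) + 4 * ((∑ j ∈ Finset.range n, s j) / n) ^ 2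
      - 2 * ∑ j ∈ Finset.range n, ((2 * j + 1 : ℝ) / n ^ 2) * s j ^ 2
      ≤ c * ((∑ j ∈ Finset.range n, s j ^ 2) / n) := by
  have hn' : (n : ℝ) ≠ 0 := by positivity
  have hwsum : ∑ j ∈ Finset.range n, ((2 * j + 1 : ℝ) / n ^ 2) = 1 := by
    rw [← Finset.sum_div]
    have : ∀ m : ℕ, ∑ j ∈ Finset.range m, (2 * j + 1 : ℝ) = (m : ℝ) ^ 2 := by
      intro m
      induction m with
      | zero => simp
      | succ m ih => rw [Finset.sum_range_succ, ih]; push_cast; ring
    rw [this]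
    field_simp
  -- the quotient functions
  let E : ℝ → ℝ := fun t => (∑ j ∈ Finset.range n, 2 * (Real.sin (t * (s j / 2)) / t) ^ 2) / n
  let Sb : ℝ → ℝ := fun t => (∑ j ∈ Finset.range n, Real.sin (t * s j) / t) / n
  let Wt : ℝ → ℝ := fun t =>
    ∑ j ∈ Finset.range n, ((2 * j + 1 : ℝ) / n ^ 2) * (Real.sin (t * s j) / t) ^ 2
  have hE : Tendsto E (𝓝[≠] 0) (𝓝 ((∑ j ∈ Finset.range n, 2 * (s j / 2) ^ 2) / n)) := by
    apply Tendsto.div_const
    apply tendsto_finsetSum
    intro j _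
    exact ((tendsto_sin_div (s j / 2)).pow 2).const_mul 2
  have hS : Tendsto Sb (𝓝[≠] 0) (𝓝 ((∑ j ∈ Finset.range n, s j) / n)) := by
    apply Tendsto.div_const
    apply tendsto_finsetSum
    intro j _
    exact tendsto_sin_div (s j)
  have hW : Tendsto Wt (𝓝[≠] 0)
      (𝓝 (∑ j ∈ Finset.range n, ((2 * j + 1 : ℝ) / n ^ 2) * s j ^ 2)) := by
    apply tendsto_finsetSum
    intro j _
    exact ((tendsto_sin_div (s j)).pow 2).const_mul _
  have ht : Tendsto (fun t : ℝ => t ^ 2) (𝓝[≠] 0) (𝓝 0) := by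
    have : Tendsto (fun t : ℝ => t ^ 2) (𝓝 0) (𝓝 (0 ^ 2)) := (continuous_pow 2).tendsto 0
    rw [zero_pow two_ne_zero] at this
    exact this.mono_left nhdsWithin_le_nhds
  have hineq : ∀ᶠ t in 𝓝[≠] (0 : ℝ), 4 * E t * (2 - t ^ 2 * E t) + 4 * Sb t ^ 2 - 2 * Wt t
      ≤ c * (2 * E t) := by
    filter_upwards [self_mem_nhdsWithin] with t ht0
    have ht0' : t ≠ 0 := ht0
    have ht2 : 0 < t ^ 2 := by positivity
    have h1 := h fun j => t * s j
    have hC : (∑ j ∈ Finset.range n, Real.cos (t * s j)) / n = 1 - t ^ 2 * E t := by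
      have e1 : ∀ j, Real.cos (t * s j) = 1 - t ^ 2 * (2 * (Real.sin (t * (s j / 2)) / t) ^ 2) := by
        intro j
        have : t * s j = 2 * (t * (s j / 2)) := by ring
        rw [this, Real.cos_two_mul', Real.cos_sq']
        field_simp
        ring
      simp only [e1, E]
      rw [Finset.sum_sub_distrib, ← Finset.mul_sum]
      simp only [Finset.sum_const, Finset.card_range, nsmul_eq_mul, mul_one]
      field_simp
    have hSb : (∑ j ∈ Finset.range n, Real.sin (t * s j)) / n = t * Sb t := by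
      simp only [Sb]
      rw [← Finset.sum_div]
      field_simp
    have hWt : ∑ j ∈ Finset.range n, ((2 * j + 1 : ℝ) / n ^ 2) * Real.cos (2 * (t * s j)) =
        1 - 2 * t ^ 2 * Wt t := by
      have e1 : ∀ j : ℕ, ((2 * j + 1 : ℝ) / n ^ 2) * Real.cos (2 * (t * s j)) =
          ((2 * j + 1 : ℝ) / n ^ 2) -
            2 * t ^ 2 * (((2 * j + 1 : ℝ) / n ^ 2) * (Real.sin (t * s j) / t) ^ 2) := by
        intro j
        rw [Real.cos_two_mul', Real.cos_sq']
        field_simp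
        ring
      simp only [e1, Wt]
      rw [Finset.sum_sub_distrib, ← Finset.mul_sum, hwsum]
    rw [hC, hSb, hWt] at h1
    have h2 : t ^ 2 * (4 * E t * (2 - t ^ 2 * E t) + 4 * Sb t ^ 2 - 2 * Wt t) ≤
        t ^ 2 * (c * (2 * E t)) := by
      nlinarith [h1]
    exact le_of_mul_le_mul_left h2 ht2
  have hlim1 : Tendsto (fun t => 4 * E t * (2 - t ^ 2 * E t) + 4 * Sb t ^ 2 - 2 * Wt t) (𝓝[≠] 0)
      (𝓝 (4 * ((∑ j ∈ Finset.range n, 2 * (s j / 2) ^ 2) / n) *
        (2 - 0 * ((∑ j ∈ Finset.range n, 2 * (s j / 2) ^ 2) / n)) +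
        4 * ((∑ j ∈ Finset.range n, s j) / n) ^ 2 -
        2 * ∑ j ∈ Finset.range n, ((2 * j + 1 : ℝ) / n ^ 2) * s j ^ 2)) :=
    (((hE.const_mul 4).mul ((ht.mul hE).const_sub 2)).add ((hS.pow 2).const_mul 4)).sub
      (hW.const_mul 2)
  have hlim2 : Tendsto (fun t => c * (2 * E t)) (𝓝[≠] 0)
      (𝓝 (c * (2 * ((∑ j ∈ Finset.range n, 2 * (s j / 2) ^ 2) / n)))) :=
    (hE.const_mul 2).const_mul c
  have h3 := le_of_tendsto_of_tendsto hlim1 hlim2 hineq
  have e2 : ∑ j ∈ Finset.range n, 2 * (s j / 2) ^ 2 = (∑ j ∈ Finset.range n, s j ^ 2) / 2 := by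
    rw [Finset.sum_div]
    apply Finset.sum_congr rfl
    intro j _
    ring
  rw [e2] at h3
  have e3 : (∑ j ∈ Finset.range n, s j ^ 2) / 2 / n = ((∑ j ∈ Finset.range n, s j ^ 2) / n) / 2 := by
    ring
  rw [e3] at h3
  nlinarith [h3]

theorem lower_bound (hL : ∀ n : ℕ, 0 < n → ∀ θ : ℕ → ℝ, ∃ f : ℂ → ℂ, ClassS f ∧
      coeff 2 f = (2 / n : ℂ) * ∑ j ∈ Finset.range n, Complex.exp (θ j * Complex.I) ∧
      coeff 3 f - (coeff 2 f) ^ 2 =
        - ∑ j ∈ Finset.range n, ((2 * j + 1 : ℂ) / n ^ 2) * Complex.exp (2 * θ j * Complex.I))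
    {c : ℝ} (h : ∀ f : ℂ → ℂ, ClassS f →
      |((3 : ℂ) - coeff 3 f).re| ≤ c * (2 - coeff 2 f).re) : lam ≤ c := by
  set μ : ℝ := 1 / (Real.exp 1 - 1) with hμ
  have he : 1 < Real.exp 1 := by
    have := Real.add_one_lt_exp (x := 1) one_ne_zero
    linarith
  have hμ0 : 0 < μ := by
    rw [hμ]; apply div_pos one_pos; linarith
  have hlam : lam = 4 + 4 * μ := by
    unfold lam
    rw [hμ]
    have : Real.exp 1 - 1 ≠ 0 := by linarith
    field_simp
    ring
  have hlog : Real.log ((1 + μ) / μ) = 1 := by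
    have : (1 + μ) / μ = Real.exp 1 := by
      rw [hμ]
      have : Real.exp 1 - 1 ≠ 0 := by linarith
      field_simp
      ring
    rw [this, Real.log_exp]
  by_contra hlt
  push Not at hlt
  -- main inequality for each `n`
  have key : ∀ n : ℕ, 0 < n → (lam - c) * (1 - 1 / (μ * n)) ≤ 4 * (1 / (μ * n)) := by
    intro n hn
    have hn' : (0 : ℝ) < n := by exact_mod_cast hn
    let s : ℕ → ℝ := fun j => 1 / (μ + (j + 1) / n)
    have hs0 : ∀ j, 0 < s j := fun j => by
      simp only [s]; positivity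
    have hs1 : ∀ j : ℕ, ((j : ℝ) + 1) / n * s j = 1 - μ * s j := by
      intro j
      have : μ + ((j : ℝ) + 1) / n ≠ 0 := by positivity
      simp only [s]
      field_simp
      ring
    have h1 := limit_ineq n hn (fun θ => ineq hL h n hn θ) s
    set S1 := (∑ j ∈ Finset.range n, s j) / n with hS1
    set S2 := (∑ j ∈ Finset.range n, s j ^ 2) / n with hS2
    have hW : ∑ j ∈ Finset.range n, ((2 * j + 1 : ℝ) / n ^ 2) * s j ^ 2 ≤ 2 * (S1 - μ * S2) := by
      have e1 : 2 * (S1 - μ * S2) = ∑ j ∈ Finset.range n, (2 / n * (1 - μ * s j) * s j) := by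
        rw [hS1, hS2]
        have : ∀ j, 2 / n * (1 - μ * s j) * s j = 2 / n * s j - 2 / n * μ * s j ^ 2 := by
          intro j; ring
        simp only [this]
        rw [Finset.sum_sub_distrib, ← Finset.mul_sum, ← Finset.mul_sum]
        ring
      rw [e1]
      apply Finset.sum_le_sum
      intro j _
      rw [← hs1 j]
      have h2 : (2 * (j : ℝ) + 1) / n ^ 2 ≤ 2 / n * (((j : ℝ) + 1) / n) := by
        rw [div_mul_div_comm, ← sq]
        apply div_le_div_of_nonneg_right _ (by positivity)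
        linarith
      have h3 : 0 ≤ s j ^ 2 := sq_nonneg _
      nlinarith [mul_le_mul_of_nonneg_right h2 h3]
    have hCS : S1 ^ 2 ≤ S2 := by
      rw [hS1, hS2, div_pow, div_le_div_iff₀ (by positivity) hn']
      have := sq_sum_le_card_mul_sum_sq (s := Finset.range n) (f := s)
      rw [Finset.card_range] at this
      nlinarith [this]
    have hS1pos : 0 < S1 := by
      rw [hS1]
      apply div_pos _ hn'
      exact Finset.sum_pos (fun j _ => hs0 j) ⟨0, Finset.mem_range.2 hn⟩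
    have hS1low : 1 - 1 / (μ * n) ≤ S1 := by
      have htel : ∀ m : ℕ, Real.log (μ + ((m : ℝ) + 1) / n) - Real.log (μ + 1 / n) ≤
          (∑ j ∈ Finset.range m, s j) / n := by
        intro m
        induction m with
        | zero => simp
        | succ m ih =>
          rw [Finset.sum_range_succ, add_div (∑ j ∈ Finset.range m, s j)]
          have hy : 0 < μ + ((m : ℝ) + 1) / n := by positivity
          have hy2 : 0 < μ + (((m + 1 : ℕ) : ℝ) + 1) / n := by positivity
          have h2 : Real.log (μ + (((m + 1 : ℕ) : ℝ) + 1) / n) - Real.log (μ + ((m : ℝ) + 1) / n) ≤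
              s m / n := by
            rw [← Real.log_div hy2.ne' hy.ne']
            have h3 := Real.log_le_sub_one_of_pos (div_pos hy2 hy)
            have h4 : (μ + (((m + 1 : ℕ) : ℝ) + 1) / n) / (μ + ((m : ℝ) + 1) / n) - 1 = s m / n := by
              simp only [s]
              push_cast
              field_simp
              ring
            rw [h4] at h3
            exact h3
          linarith
      have h2 := htel n
      rw [← hS1] at h2
      have h3 : Real.log (1 + μ) ≤ Real.log (μ + ((n : ℝ) + 1) / n) := by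
        apply Real.log_le_log (by positivity)
        have : ((n : ℝ) + 1) / n = 1 + 1 / n := by field_simp
        rw [this]
        have : 0 < 1 / (n : ℝ) := by positivity
        linarith
      have h4 : Real.log (μ + 1 / n) - Real.log μ ≤ 1 / (μ * n) := by
        rw [← Real.log_div (by positivity) hμ0.ne']
        have h5 := Real.log_le_sub_one_of_pos (div_pos (show 0 < μ + 1 / n by positivity) hμ0)
        have h6 : (μ + 1 / n) / μ - 1 = 1 / (μ * n) := by
          field_simp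
          ring
        rw [h6] at h5
        exact h5
      have h7 : Real.log (1 + μ) - Real.log μ = 1 := by
        rw [← Real.log_div (by positivity) hμ0.ne']
        exact hlog
      linarith
    have h5 : (lam - c) * S2 ≤ 4 * (S1 - S1 ^ 2) := by
      rw [hlam]
      nlinarith [h1, hW]
    have h6 : (lam - c) * S1 ^ 2 ≤ 4 * (S1 - S1 ^ 2) := by
      have : (lam - c) * S1 ^ 2 ≤ (lam - c) * S2 :=
        mul_le_mul_of_nonneg_left hCS (by linarith)
      linarith
    have h7 : (lam - c) * S1 ≤ 4 * (1 - S1) := by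
      have : S1 * ((lam - c) * S1) ≤ S1 * (4 * (1 - S1)) := by nlinarith [h6]
      exact le_of_mul_le_mul_left this hS1pos
    have h8 : (lam - c) * (1 - 1 / (μ * n)) ≤ (lam - c) * S1 :=
      mul_le_mul_of_nonneg_left hS1low (by linarith)
    linarith
  -- let `n` tend to infinity
  have hlim : Tendsto (fun n : ℕ => 1 / (μ * (n : ℝ))) atTop (𝓝 0) := by
    have h1 : Tendsto (fun n : ℕ => 1 / μ * (1 / (n : ℝ))) atTop (𝓝 (1 / μ * 0)) :=
      tendsto_one_div_atTop_nhds_zero_nat.const_mul _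
    rw [mul_zero] at h1
    refine h1.congr fun n => ?_
    rw [one_div_mul_one_div]
  have hl1 : Tendsto (fun n : ℕ => (lam - c) * (1 - 1 / (μ * (n : ℝ)))) atTop
      (𝓝 ((lam - c) * (1 - 0))) := (hlim.const_sub 1).const_mul _
  have hl2 : Tendsto (fun n : ℕ => 4 * (1 / (μ * (n : ℝ)))) atTop (𝓝 (4 * 0)) :=
    hlim.const_mul 4
  have h9 := le_of_tendsto_of_tendsto hl1 hl2 (by
    filter_upwards [eventually_gt_atTop 0] with n hn
    exact key n hn)
  linarith

end Pool.Agent.Helper1.C3M7
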