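import Mathlib

set_option autoImplicit false

open Finset

namespace Pool.Agent.Helper1.ZeroOne

/-- residues `v` modulo `V` such that for every `t ∈ T` some `v + t + h` has a common factor
with `V` -/
def bad (H T : Finset ℕ) (V : ℕ) : Finset ℕ :=
  (range V).filter (fun v => ∀ t ∈ T, ∃ h ∈ H, ¬ Nat.Coprime (v + t + h) V)

/-- the `t ∈ T` such that no `c + t + h` is divisible by `p` -/
def surv (H T : Finset ℕ) (p c : ℕ) : Finset ℕ := T.filter (fun t => ∀ h ∈ H, ¬ p ∣ c + t + h)

lemma mod_dvd_iff (p v s : ℕ) : p ∣ v % p + s ↔ p ∣ v + s := by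
  constructor
  · intro h
    have : v + s ≡ v % p + s [MOD p] := (Nat.mod_modEq v p).symm.add_right s
    exact (Nat.ModEq.dvd_iff this dvd_rfl).2 h
  · intro h
    have : v + s ≡ v % p + s [MOD p] := (Nat.mod_modEq v p).symm.add_right s
    exact (Nat.ModEq.dvd_iff this dvd_rfl).1 h

lemma coprime_mod_iff (V v s : ℕ) : Nat.Coprime (v % V + s) V ↔ Nat.Coprime (v + s) V := by
  have : v % V + s ≡ v + s [MOD V] := (Nat.mod_modEq v V).add_right s
  have h2 := this.gcd_eq
  rw [Nat.coprime_iff_gcd_eq_one, Nat.coprime_iff_gcd_eq_one, h2]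

lemma card_bad_mul_le (H T : Finset ℕ) (p V : ℕ) (hp : p.Prime) (hV : 0 < V)
    (hc : Nat.Coprime p V) :
    (bad H T (p * V)).card ≤ ∑ c ∈ range p, (bad H (surv H T p c) V).card := by
  rw [← card_sigma]
  refine card_le_card_of_injOn (fun v => ⟨v % p, v % V⟩) ?_ ?_
  · intro v hv
    simp only [bad, coe_filter, mem_range, Set.mem_setOf_eq] at hv
    simp only [coe_sigma, Set.mem_sigma_iff, mem_coe, mem_range]
    refine ⟨Nat.mod_lt _ hp.pos, ?_⟩
    simp only [bad, mem_filter, mem_range]
    refine ⟨Nat.mod_lt _ hV, fun t ht => ?_⟩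
    simp only [surv, mem_filter] at ht
    obtain ⟨h, hh, hco⟩ := hv.2 t ht.1
    refine ⟨h, hh, ?_⟩
    have h1 : ¬ p ∣ v + (t + h) := by
      rw [← mod_dvd_iff, ← add_assoc]; exact ht.2 h hh
    have h2 : Nat.Coprime (v + t + h) p := by
      rw [Nat.coprime_comm, Nat.Prime.coprime_iff_not_dvd hp, add_assoc]; exact h1
    have h3 : ¬ Nat.Coprime (v + t + h) V := fun h4 => hco (Nat.Coprime.mul_right h2 h4)
    rw [add_assoc, coprime_mod_iff, ← add_assoc]
    exact h3
  · intro v hv w hw hvw
    simp only [bad, coe_filter, mem_range, Set.mem_setOf_eq] at hv hw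
    simp only [Sigma.mk.injEq, heq_eq_eq] at hvw
    have h1 : v ≡ w [MOD p] := hvw.1
    have h2 : v ≡ w [MOD V] := hvw.2
    have h3 : v ≡ w [MOD p * V] := (Nat.modEq_and_modEq_iff_modEq_mul hc).1 ⟨h1, h2⟩
    exact Nat.ModEq.eq_of_lt_of_lt h3 hv.1 hw.1

/-- number of killed elements of `T` -/
lemma killed_le (H T : Finset ℕ) (p c b : ℕ)
    (hT : ∀ d, (T.filter (fun t => p ∣ d + t)).card ≤ b) :
    T.card - (surv H T p c).card ≤ H.card * b := by
  have h1 : T.card - (surv H T p c).card = (T.filter (fun t => ¬ ∀ h ∈ H, ¬ p ∣ c + t + h)).card := by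
    have := card_filter_add_card_filter_not (s := T) (fun t => ∀ h ∈ H, ¬ p ∣ c + t + h)
    unfold surv
    omega
  rw [h1]
  have h2 : T.filter (fun t => ¬ ∀ h ∈ H, ¬ p ∣ c + t + h) ⊆
      H.biUnion (fun h => T.filter (fun t => p ∣ (c + h) + t)) := by
    intro t ht
    simp only [mem_filter, not_forall, not_not, mem_biUnion] at ht ⊢
    obtain ⟨ht1, h, hh, hd⟩ := ht
    exact ⟨h, hh, ht1, by rwa [show c + h + t = c + t + h by ring]⟩
  refine (card_le_card h2).trans (card_biUnion_le.trans ?_)
  refine (sum_le_sum (fun h _ => hT (c + h))).trans ?_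
  simp

lemma card_filter_range_dvd (p s : ℕ) (hp : 0 < p) :
    ((range p).filter (fun c => p ∣ c + s)).card ≤ 1 := by
  rw [card_le_one]
  intro a ha b hb
  simp only [mem_filter, mem_range] at ha hb
  have h1 : a + s ≡ b + s [MOD p] := by
    have h1 := (Nat.modEq_zero_iff_dvd.2 ha.2)
    have h2 := (Nat.modEq_zero_iff_dvd.2 hb.2)
    exact h1.trans h2.symm
  have h2 : a ≡ b [MOD p] := Nat.ModEq.add_right_cancel' s h1
  exact Nat.ModEq.eq_of_lt_of_lt h2 ha.1 hb.1

lemma sum_killed_le (H T : Finset ℕ) (p : ℕ) (hp : 0 < p) :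
    ∑ c ∈ range p, (T.card - (surv H T p c).card) ≤ H.card * T.card := by
  have h1 : ∀ c, T.card - (surv H T p c).card ≤
      ∑ h ∈ H, (T.filter (fun t => p ∣ c + t + h)).card := by
    intro c
    have h1 : T.card - (surv H T p c).card
        = (T.filter (fun t => ¬ ∀ h ∈ H, ¬ p ∣ c + t + h)).card := by
      have := card_filter_add_card_filter_not (s := T) (fun t => ∀ h ∈ H, ¬ p ∣ c + t + h)
      unfold surv
      omega
    rw [h1]
    have h2 : T.filter (fun t => ¬ ∀ h ∈ H, ¬ p ∣ c + t + h) ⊆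
        H.biUnion (fun h => T.filter (fun t => p ∣ c + t + h)) := by
      intro t ht
      simp only [mem_filter, not_forall, not_not, mem_biUnion] at ht ⊢
      obtain ⟨ht1, h, hh, hd⟩ := ht
      exact ⟨h, hh, ht1, hd⟩
    exact (card_le_card h2).trans card_biUnion_le
  calc ∑ c ∈ range p, (T.card - (surv H T p c).card)
      ≤ ∑ c ∈ range p, ∑ h ∈ H, (T.filter (fun t => p ∣ c + t + h)).card :=
        sum_le_sum fun c _ => h1 c
    _ = ∑ h ∈ H, ∑ c ∈ range p, (T.filter (fun t => p ∣ c + t + h)).card := sum_comm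
    _ = ∑ h ∈ H, ∑ t ∈ T, ((range p).filter (fun c => p ∣ c + t + h)).card := by
        refine sum_congr rfl fun h _ => ?_
        simp only [card_filter]
        rw [sum_comm]
    _ ≤ ∑ h ∈ H, ∑ t ∈ T, 1 := by
        refine sum_le_sum fun h _ => sum_le_sum fun t _ => ?_
        have := card_filter_range_dvd p (t + h) hp
        simpa [add_assoc] using this
    _ = H.card * T.card := by simp

lemma exp_le_one_add_two (x : ℝ) (h0 : 0 ≤ x) (h1 : x ≤ 1) : Real.exp x ≤ 1 + 2 * x := by
  have h := Real.abs_exp_sub_one_sub_id_le (x := x) (by rw [abs_of_nonneg h0]; exact h1)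
  have h2 := (abs_le.1 h).2
  nlinarith

/-- one step of the exponential moment recursion -/
lemma step_bound (H T : Finset ℕ) (p b : ℕ) (hp : 0 < p) (lam : ℝ) (hl : 0 ≤ lam)
    (hb : lam * (H.card * b) ≤ 1)
    (hT : ∀ d, (T.filter (fun t => p ∣ d + t)).card ≤ b) :
    ∑ c ∈ range p, Real.exp (-(lam * (surv H T p c).card)) ≤
      p * Real.exp (-(lam * (1 - 2 * H.card / p) * T.card)) := by
  have hle : ∀ c, (surv H T p c).card ≤ T.card := fun c => card_filter_le _ _
  have h1 : ∀ c ∈ range p, Real.exp (-(lam * (surv H T p c).card)) ≤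
      Real.exp (-(lam * T.card)) * (1 + 2 * (lam * ((T.card - (surv H T p c).card : ℕ) : ℝ))) := by
    intro c _
    have hk := killed_le H T p c b hT
    have hk' : ((T.card - (surv H T p c).card : ℕ) : ℝ) ≤ H.card * b := by exact_mod_cast hk
    have e1 : -(lam * (surv H T p c).card : ℝ)
        = -(lam * T.card) + lam * ((T.card - (surv H T p c).card : ℕ) : ℝ) := by
      rw [Nat.cast_sub (hle c)]; ring
    rw [e1, Real.exp_add]
    refine mul_le_mul_of_nonneg_left ?_ (Real.exp_pos _).le
    refine exp_le_one_add_two _ (by positivity) ?_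
    exact (mul_le_mul_of_nonneg_left hk' hl).trans hb
  refine (sum_le_sum h1).trans ?_
  rw [← mul_sum, sum_add_distrib, ← mul_sum, ← mul_sum]
  have hs := sum_killed_le H T p hp
  have hs' : (∑ c ∈ range p, ((T.card - (surv H T p c).card : ℕ) : ℝ)) ≤ H.card * T.card := by
    exact_mod_cast hs
  have hp' : (0 : ℝ) < p := by exact_mod_cast hp
  have h3 : ∑ _c ∈ range p, (1 : ℝ) = p := by simp
  rw [h3]
  have h4 : (p : ℝ) + 2 * (lam * ∑ c ∈ range p, ((T.card - (surv H T p c).card : ℕ) : ℝ))
      ≤ p * (1 + 2 * lam * H.card * T.card / p) := by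
    have : (p : ℝ) * (1 + 2 * lam * H.card * T.card / p) = p + 2 * (lam * (H.card * T.card)) := by
      field_simp
    rw [this]
    have := mul_le_mul_of_nonneg_left hs' hl
    linarith
  calc Real.exp (-(lam * T.card)) *
        (p + 2 * (lam * ∑ c ∈ range p, ((T.card - (surv H T p c).card : ℕ) : ℝ)))
      ≤ Real.exp (-(lam * T.card)) * (p * (1 + 2 * lam * H.card * T.card / p)) :=
        mul_le_mul_of_nonneg_left h4 (Real.exp_pos _).le
    _ ≤ Real.exp (-(lam * T.card)) * (p * Real.exp (2 * lam * H.card * T.card / p)) := by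
        refine mul_le_mul_of_nonneg_left ?_ (Real.exp_pos _).le
        refine mul_le_mul_of_nonneg_left ?_ hp'.le
        have := Real.add_one_le_exp (2 * lam * H.card * T.card / p)
        linarith
    _ = p * Real.exp (-(lam * (1 - 2 * H.card / p) * T.card)) := by
        rw [mul_left_comm, ← Real.exp_add]
        congr 2
        field_simp
        ring

/-- product of the primes in `(n, L]` -/
def PP (n L : ℕ) : ℕ := ∏ q ∈ (Ioc n L).filter Nat.Prime, q

lemma PP_pos (n L : ℕ) : 0 < PP n L := by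
  refine prod_pos fun q hq => ?_
  exact (mem_filter.1 hq).2.pos

lemma PP_self (L : ℕ) : PP L L = 1 := by simp [PP]

lemma PP_step_prime (n L : ℕ) (h : n < L) (hp : (n + 1).Prime) :
    PP n L = (n + 1) * PP (n + 1) L := by
  have : Ioc n L = insert (n + 1) (Ioc (n + 1) L) := by
    ext x; simp only [mem_Ioc, mem_insert]; omega
  rw [PP, this, filter_insert, if_pos hp, prod_insert, PP]
  simp

lemma PP_step_not_prime (n L : ℕ) (h : n < L) (hp : ¬ (n + 1).Prime) :
    PP n L = PP (n + 1) L := by
  have : Ioc n L = insert (n + 1) (Ioc (n + 1) L) := by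
    ext x; simp only [mem_Ioc, mem_insert]; omega
  rw [PP, this, filter_insert, if_neg hp, PP]

lemma coprime_PP (p L : ℕ) (hp : p.Prime) : Nat.Coprime p (PP p L) := by
  rw [PP]
  refine Nat.Coprime.prod_right fun q hq => ?_
  simp only [mem_filter, mem_Ioc] at hq
  exact (Nat.coprime_primes hp hq.2).2 (by omega)

/-- exponential bound for the number of residues for which all of `T` is killed -/
theorem bad_bound (H : Finset ℕ) (y L : ℕ) (b : ℕ → ℕ) (lam : ℕ → ℝ)
    (h0 : ∀ n, 0 ≤ lam n)
    (h1 : ∀ n, y ≤ n → n < L → (n + 1).Prime →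
      lam n ≤ lam (n + 1) * (1 - 2 * H.card / ((n + 1 : ℕ) : ℝ)))
    (h2 : ∀ n, y ≤ n → n < L → ¬ (n + 1).Prime → lam n ≤ lam (n + 1))
    (h3 : ∀ q, q.Prime → y < q → q ≤ L → lam q * (H.card * b q) ≤ 1)
    (d n : ℕ) (hd : n + d = L) (hn : y ≤ n) (T : Finset ℕ)
    (hT : ∀ q, q.Prime → y < q → ∀ c, (T.filter (fun t => q ∣ c + t)).card ≤ b q) :
    ((bad H T (PP n L)).card : ℝ) ≤ PP n L * Real.exp (-(lam n * T.card)) := by
  induction d generalizing n T with
  | zero =>
    have hnL : n = L := by omega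
    subst hnL
    rw [PP_self]
    rcases T.eq_empty_or_nonempty with hT0 | hT0
    · subst hT0
      have : (bad H ∅ 1).card ≤ 1 := by
        unfold bad
        exact (card_filter_le _ _).trans (by simp)
      simpa using this
    · have : bad H T 1 = ∅ := by
        unfold bad
        rw [filter_eq_empty_iff]
        intro v _ hv
        obtain ⟨t, ht⟩ := hT0
        obtain ⟨h, _, hco⟩ := hv t ht
        exact hco (Nat.coprime_one_right _)
      rw [this]
      simp only [card_empty, Nat.cast_zero, Nat.cast_one, one_mul]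
      exact (Real.exp_pos _).le
  | succ d ih =>
    have hnL : n < L := by omega
    by_cases hp : (n + 1).Prime
    · rw [PP_step_prime n L hnL hp]
      have hb := card_bad_mul_le H T (n + 1) (PP (n + 1) L) hp (PP_pos _ _) (coprime_PP _ _ hp)
      have hb' : ((bad H T ((n + 1) * PP (n + 1) L)).card : ℝ) ≤
          ∑ c ∈ range (n + 1), ((bad H (surv H T (n + 1) c) (PP (n + 1) L)).card : ℝ) := by
        exact_mod_cast hb
      refine hb'.trans ?_
      have h4 : ∀ c ∈ range (n + 1), ((bad H (surv H T (n + 1) c) (PP (n + 1) L)).card : ℝ) ≤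
          PP (n + 1) L * Real.exp (-(lam (n + 1) * (surv H T (n + 1) c).card)) := by
        intro c _
        refine ih (n + 1) (by omega) (by omega) _ ?_
        intro q hq hyq c'
        refine le_trans (card_le_card ?_) (hT q hq hyq c')
        intro t ht
        simp only [surv, mem_filter] at ht ⊢
        exact ⟨ht.1.1, ht.2⟩
      refine (sum_le_sum h4).trans ?_
      rw [← mul_sum]
      have h5 := step_bound H T (n + 1) (b (n + 1)) (by omega) (lam (n + 1)) (h0 _)
        (h3 (n + 1) hp (by omega) (by omega)) (hT (n + 1) hp (by omega))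
      have h6 : (PP (n + 1) L : ℝ) *
          ∑ c ∈ range (n + 1), Real.exp (-(lam (n + 1) * (surv H T (n + 1) c).card)) ≤
          PP (n + 1) L * (((n + 1 : ℕ) : ℝ) *
            Real.exp (-(lam (n + 1) * (1 - 2 * H.card / ((n + 1 : ℕ) : ℝ)) * T.card))) :=
        mul_le_mul_of_nonneg_left h5 (by positivity)
      refine h6.trans ?_
      rw [← mul_assoc]
      have h7 : (((n + 1) * PP (n + 1) L : ℕ) : ℝ) = PP (n + 1) L * ((n + 1 : ℕ) : ℝ) := by
        push_cast; ring
      rw [h7]
      refine mul_le_mul_of_nonneg_left ?_ (by positivity)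
      apply Real.exp_le_exp.2
      apply neg_le_neg
      exact mul_le_mul_of_nonneg_right (h1 n hn hnL hp) (by positivity)
    · rw [PP_step_not_prime n L hnL hp]
      refine (ih (n + 1) (by omega) (by omega) T hT).trans ?_
      refine mul_le_mul_of_nonneg_left ?_ (by positivity)
      apply Real.exp_le_exp.2
      apply neg_le_neg
      exact mul_le_mul_of_nonneg_right (h2 n hn hnL hp) (by positivity)

end Pool.Agent.Helper1.ZeroOne
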