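import Pool.Agent.Helper1.ZeroOneA
import Pool.Agent.Helper1.ZeroOneB

set_option autoImplicit false

open Finset

namespace Pool.Agent.Helper1.ZeroOne

/-- a finite set of naturals that misses a residue class modulo every prime -/
def Adm (H : Finset ℕ) : Prop := ∀ p : ℕ, p.Prime → ∃ r : ℕ, r < p ∧ ∀ h ∈ H, h % p ≠ r

/-- arithmetic progression with `M` terms -/
def AP (t0 W M : ℕ) : Finset ℕ := (range M).image (fun i => t0 + i * W)

lemma AP_card (t0 W M : ℕ) (hW : 0 < W) : (AP t0 W M).card = M := by
  rw [AP, card_image_of_injective, card_range]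
  intro i j hij
  simpa [hW.ne'] using hij

lemma AP_class (t0 W M q c : ℕ) (hc : Nat.Coprime W q) :
    ((AP t0 W M).filter (fun t => q ∣ c + t)).card ≤ M / q + 1 := by
  rw [AP, filter_image]
  refine card_image_le.trans ?_
  have : M / q + 1 = (range (M / q + 1)).card := (card_range _).symm
  rw [this]
  refine card_le_card_of_injOn (fun i => i / q) ?_ ?_
  · intro i hi
    simp only [coe_filter, mem_range, Set.mem_ofPred_eq] at hi
    simp only [coe_range, Set.mem_Iio]
    have := Nat.div_le_div_right (c := q) hi.1.le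
    omega
  · intro i hi j hj hij
    simp only [coe_filter, mem_range, Set.mem_ofPred_eq] at hi hj
    simp only at hij
    have h1 : i * W ≡ j * W [MOD q] := by
      have h1 := (Nat.modEq_zero_iff_dvd.2 hi.2).trans (Nat.modEq_zero_iff_dvd.2 hj.2).symm
      have h2 : c + t0 + i * W ≡ c + t0 + j * W [MOD q] := by
        simpa [add_assoc] using h1
      exact Nat.ModEq.add_left_cancel' (c + t0) h2
    have h2 : i ≡ j [MOD q] := Nat.ModEq.cancel_right_of_coprime hc.symm h1
    have h3 : i % q = j % q := h2
    rw [← Nat.div_add_mod i q, ← Nat.div_add_mod j q, hij, h3]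

lemma exists_tau (H : Finset ℕ) (hA : Adm H) (u y : ℕ) :
    ∃ τ < primorial y, ∀ h ∈ H, Nat.Coprime (u + τ + h) (primorial y) := by
  classical
  choose r hr using hA
  set S := (range (y + 1)).filter Nat.Prime with hS
  let a : ℕ → ℕ := fun p => if hp : p.Prime then (p - 1) * (u + r p hp) else 0
  have hs : ∀ i ∈ S, (fun p : ℕ => p) i ≠ 0 := fun i hi => (mem_filter.1 hi).2.ne_zero
  have pp : Set.Pairwise (S : Set ℕ) (Function.onFun Nat.Coprime (fun p : ℕ => p)) := by
    intro i hi j hj hij
    exact (Nat.coprime_primes (mem_filter.1 hi).2 (mem_filter.1 hj).2).2 hij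
  refine ⟨(Nat.chineseRemainderOfFinset a (fun p => p) S hs pp : ℕ), ?_, ?_⟩
  · exact Nat.chineseRemainderOfFinset_lt_prod a (fun p => p) hs pp
  · intro h hh
    unfold primorial
    refine Nat.Coprime.prod_right fun p hp => ?_
    have hp' := (mem_filter.1 hp).2
    have h1 := (Nat.chineseRemainderOfFinset a (fun p => p) S hs pp).2 p hp
    set τ := (Nat.chineseRemainderOfFinset a (fun p => p) S hs pp : ℕ)
    rw [Nat.coprime_comm, Nat.Prime.coprime_iff_not_dvd hp']
    intro hd
    have h2 : τ ≡ (p - 1) * (u + r p hp') [MOD p] := by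
      have : a p = (p - 1) * (u + r p hp') := by simp only [a, dif_pos hp']
      rw [← this]; exact h1
    have h3 : u + (p - 1) * (u + r p hp') + h ≡ 0 [MOD p] :=
      (((h2.symm.add_left u).add_right h)).trans (Nat.modEq_zero_iff_dvd.2 hd)
    have h4 : p * (u + r p hp') + h ≡ r p hp' [MOD p] := by
      have h5 := h3.add_right (r p hp')
      have key : ∀ s : ℕ, (p - 1) * s + s = p * s := by
        intro s
        obtain ⟨p', hp1⟩ : ∃ p', p = p' + 1 := ⟨p - 1, by have := hp'.pos; omega⟩
        rw [hp1, Nat.add_sub_cancel]; ring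
      have h6 : u + (p - 1) * (u + r p hp') + h + r p hp' = p * (u + r p hp') + h := by
        have := key (u + r p hp')
        linarith
      rw [h6, zero_add] at h5
      exact h5
    have h7 : h ≡ r p hp' [MOD p] := by
      have : p * (u + r p hp') + h ≡ h [MOD p] := by
        simp [Nat.ModEq]
      exact this.symm.trans h4
    have h8 : h % p = r p hp' := by
      have := h7
      rw [Nat.ModEq, Nat.mod_eq_of_lt (hr p hp').1] at this
      exact this
    exact (hr p hp').2 h hh h8

lemma primorial_split (y L : ℕ) (hyL : y ≤ L) : primorial L = primorial y * PP y L := by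
  unfold primorial PP
  rw [← prod_union]
  · congr 1
    ext x
    simp only [mem_filter, mem_Ioc, mem_union, mem_range]
    constructor
    · rintro ⟨h1, h2⟩
      by_cases h3 : x ≤ y
      · exact Or.inl ⟨by omega, h2⟩
      · exact Or.inr ⟨⟨by omega, by omega⟩, h2⟩
    · rintro (⟨h1, h2⟩ | ⟨h1, h2⟩)
      · exact ⟨by omega, h2⟩
      · exact ⟨by omega, h2⟩
  · rw [disjoint_left]
    intro x; simp only [mem_filter, mem_Ioc, mem_range]
    intro h1 h2; omega

lemma coprime_primorial_PP (y L : ℕ) : Nat.Coprime (primorial y) (PP y L) := by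
  unfold primorial PP
  refine Nat.Coprime.prod_left fun p hp => Nat.Coprime.prod_right fun q hq => ?_
  simp only [mem_filter, mem_Ioc, mem_range] at hp hq
  exact (Nat.coprime_primes hp.2 hq.2).2 (by omega)

open Classical in
/-- residues `a` modulo `primorial L` such that no translate `t + H` with `t ≥ N` inside `[0,L)`
consists of `j` with `a + j` coprime to `primorial L` -/
noncomputable def poor (H : Finset ℕ) (N L : ℕ) : Finset ℕ :=
  (range (primorial L)).filter
    (fun a => ¬ ∃ t, N ≤ t ∧ ∀ h ∈ H, t + h < L ∧ Nat.Coprime (a + t + h) (primorial L))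

lemma card_poor_le (H : Finset ℕ) (N L y M D : ℕ) (hyL : y ≤ L)
    (hD : ∀ h ∈ H, h ≤ D) (hsize : (N + M) * primorial y + D ≤ L)
    (τ : ℕ → ℕ) (hτ : ∀ u, τ u < primorial y)
    (hτ2 : ∀ u, ∀ h ∈ H, Nat.Coprime (u + τ u + h) (primorial y)) :
    (poor H N L).card ≤ ∑ u ∈ range (primorial y),
      (bad H (AP (τ u + N * primorial y) (primorial y) M) (PP y L)).card := by
  set W := primorial y with hW
  have hWpos : 0 < W := primorial_pos y
  rw [← card_sigma]
  refine card_le_card_of_injOn (fun a => ⟨a % W, a % PP y L⟩) ?_ ?_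
  · intro a ha
    simp only [poor, coe_filter, mem_range, Set.mem_ofPred_eq] at ha
    simp only [coe_sigma, Set.mem_sigma_iff, mem_coe, mem_range]
    refine ⟨Nat.mod_lt _ hWpos, ?_⟩
    simp only [bad, mem_filter, mem_range]
    refine ⟨Nat.mod_lt _ (PP_pos _ _), fun t ht => ?_⟩
    by_contra hcon
    push Not at hcon
    apply ha.2
    simp only [AP, mem_image, mem_range] at ht
    obtain ⟨i, hi, rfl⟩ := ht
    have hτu := hτ (a % W)
    refine ⟨τ (a % W) + N * W + i * W, ?_, fun h hh => ⟨?_, ?_⟩⟩
    · have : N * 1 ≤ N * W := Nat.mul_le_mul_left N hWpos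
      omega
    · have h1 := hD h hh
      have h2 : (N + M) * W = N * W + M * W := by ring
      have h3 : (i + 1) * W ≤ M * W := Nat.mul_le_mul_right W hi
      have h4 : (i + 1) * W = i * W + W := by ring
      omega
    · rw [primorial_split y L hyL]
      refine Nat.Coprime.mul_right ?_ ?_
      · have h1 := hτ2 (a % W) h hh
        have h2 : a + (τ (a % W) + N * W + i * W) + h ≡ a % W + τ (a % W) + h [MOD W] := by
          have e1 : a + (τ (a % W) + N * W + i * W) + h
              = (N + i) * W + (a + τ (a % W) + h) := by ring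
          rw [e1]
          have e2 : (N + i) * W + (a + τ (a % W) + h) ≡ a + τ (a % W) + h [MOD W] := by
            simp [Nat.ModEq]
          refine e2.trans ?_
          exact ((Nat.mod_modEq a W).symm.add_right _).add_right _
        rw [Nat.coprime_iff_gcd_eq_one, h2.gcd_eq]
        exact h1
      · have h1 := hcon h hh
        rw [add_assoc, coprime_mod_iff, ← add_assoc] at h1
        exact h1
  · intro a ha b hb hab
    simp only [poor, coe_filter, mem_range, Set.mem_ofPred_eq] at ha hb
    simp only [Sigma.mk.injEq, heq_eq_eq] at hab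
    have h1 : a ≡ b [MOD W] := hab.1
    have h2 : a ≡ b [MOD PP y L] := hab.2
    have h3 : a ≡ b [MOD W * PP y L] :=
      (Nat.modEq_and_modEq_iff_modEq_mul (coprime_primorial_PP y L)).1 ⟨h1, h2⟩
    rw [← primorial_split y L hyL] at h3
    exact Nat.ModEq.eq_of_lt_of_lt h3 ha.1 hb.1

lemma Pf_succ_prime (k y n : ℕ) (hn : y ≤ n) (hp : (n + 1).Prime) :
    Pf k y (n + 1) = Pf k y n * (1 - 2 * (k : ℝ) / ((n + 1 : ℕ) : ℝ))⁻¹ := by
  rw [Pf_split k y n (n + 1) hn (by omega)]
  congr 1
  unfold Pf prs
  have : (Ioc n (n + 1)).filter Nat.Prime = {n + 1} := by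
    ext x
    simp only [mem_filter, mem_Ioc, mem_singleton]
    constructor
    · rintro ⟨h1, _⟩; omega
    · rintro rfl; exact ⟨by omega, hp⟩
  rw [this, prod_singleton]

lemma Pf_succ_not_prime (k y n : ℕ) (hn : y ≤ n) (hp : ¬ (n + 1).Prime) :
    Pf k y (n + 1) = Pf k y n := by
  rw [Pf_split k y n (n + 1) hn (by omega)]
  have : Pf k n (n + 1) = 1 := by
    unfold Pf prs
    have : (Ioc n (n + 1)).filter Nat.Prime = ∅ := by
      ext x
      simp only [mem_filter, mem_Ioc, notMem_empty, iff_false, not_and]
      intro h1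
      have : x = n + 1 := by omega
      rw [this]; exact hp
    rw [this, prod_empty]
  rw [this, mul_one]

lemma Pf_nonneg (k y n : ℕ) (hy : 4 * k ≤ y) : 0 ≤ Pf k y n := by
  unfold Pf
  refine prod_nonneg fun q hq => ?_
  simp only [prs, mem_filter, mem_Ioc] at hq
  exact zero_le_one.trans (Pf_nonneg_factor k y q hy hq.1.1)

/-- quantitative finite form of the abundance theorem -/
theorem poor_bound (H : Finset ℕ) (hA : Adm H) (hk : 1 ≤ H.card) (N L y M D : ℕ) (hyL : y ≤ L)
    (hD : ∀ h ∈ H, h ≤ D) (hsize : (N + M) * primorial y + D ≤ L)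
    (hy : 2 ^ (64 * H.card) ≤ y) (hM : 1 ≤ M) (hML : y * L ≤ 4 * M ^ 2) :
    ((poor H N L).card : ℝ) ≤ primorial L * Real.exp (-(y / (8 * H.card))) := by
  set k := H.card with hkdef
  have hky : 4 * k ≤ y := by
    have h1 : 64 * k < 2 ^ (64 * k) := Nat.lt_two_pow_self
    omega
  have hy0 : 0 < y := by omega
  have hyR : (0 : ℝ) < y := by exact_mod_cast hy0
  have hkR : (0 : ℝ) < k := by exact_mod_cast hk
  have hMR : (0 : ℝ) < M := by exact_mod_cast hM
  choose τ hτ hτ2 using fun u => exists_tau H hA u y
  have h1 := card_poor_le H N L y M D hyL hD hsize τ hτ hτ2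
  have h1' : ((poor H N L).card : ℝ) ≤ ∑ u ∈ range (primorial y),
      ((bad H (AP (τ u + N * primorial y) (primorial y) M) (PP y L)).card : ℝ) := by
    exact_mod_cast h1
  refine h1'.trans ?_
  set lam : ℕ → ℝ := fun n => (y / (8 * k * M)) * Pf k y n with hlam
  have hmain : ∀ u ∈ range (primorial y),
      ((bad H (AP (τ u + N * primorial y) (primorial y) M) (PP y L)).card : ℝ) ≤
        PP y L * Real.exp (-(y / (8 * k))) := by
    intro u _
    have h2 := bad_bound H y L (fun q => M / q + 1) lam ?_ ?_ ?_ ?_ (L - y) y (by omega) le_rfl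
      (AP (τ u + N * primorial y) (primorial y) M) ?_
    · refine h2.trans_eq ?_
      rw [AP_card _ _ _ (primorial_pos y)]
      congr 2
      have : Pf k y y = 1 := by simp [Pf, prs]
      simp only [hlam, this]
      field_simp
    · intro n
      exact mul_nonneg (by positivity) (Pf_nonneg k y n hky)
    · intro n hn _ hp
      simp only [hlam]
      rw [Pf_succ_prime k y n hn hp]
      have hne : (1 - 2 * (k : ℝ) / ((n + 1 : ℕ) : ℝ)) ≠ 0 := by
        intro hc
        have := Pf_nonneg_factor k y (n + 1) hky (by omega)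
        rw [hc, inv_zero] at this
        linarith
      rw [← hkdef, mul_assoc _ (Pf k y n * _) _, mul_assoc (Pf k y n), inv_mul_cancel₀ hne, mul_one]
    · intro n hn _ hp
      simp only [hlam]
      rw [Pf_succ_not_prime k y n hn hp]
    · intro q _ hyq hqL
      simp only [hlam]
      have hq0 : 0 < q := by omega
      have hqR : (0 : ℝ) < q := by exact_mod_cast hq0
      have hPf := Pf_le k y hk hy q hyq.le
      have hbq : ((M / q + 1 : ℕ) : ℝ) ≤ M / q + 1 := by
        push_cast
        have := @Nat.cast_div_le ℝ _ _ _ M q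
        linarith
      have h5 : (y / (8 * k * M)) * Pf k y q * (k * ((M / q + 1 : ℕ) : ℝ)) ≤
          (y / (8 * k * M)) * (2 * Real.sqrt (q / y)) * (k * (M / q + 1)) := by
        have hP0 := Pf_nonneg k y q hky
        gcongr
      refine h5.trans ?_
      by_cases hqM : q ≤ M
      · have hqM' : (q : ℝ) ≤ M := by exact_mod_cast hqM
        have h6 : (M : ℝ) / q + 1 ≤ 2 * (M / q) := by
          have : 1 ≤ (M : ℝ) / q := (one_le_div hqR).2 hqM'
          linarith
        have hyq' : (y : ℝ) ≤ q := by exact_mod_cast hyq.le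
        have h7 : Real.sqrt (q / y) ≤ q / y := by
          rw [Real.sqrt_le_left (by positivity)]
          have : 1 ≤ (q : ℝ) / y := (one_le_div hyR).2 hyq'
          nlinarith
        calc (y / (8 * k * M)) * (2 * Real.sqrt (q / y)) * (k * (M / q + 1))
            ≤ (y / (8 * k * M)) * (2 * (q / y)) * (k * (2 * (M / q))) := by gcongr
          _ = 1 / 2 := by field_simp; norm_num
          _ ≤ 1 := by norm_num
      · push Not at hqM
        have hqM' : (M : ℝ) ≤ q := by exact_mod_cast hqM.le
        have h6 : (M : ℝ) / q + 1 ≤ 2 := by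
          have : (M : ℝ) / q ≤ 1 := (div_le_one hqR).2 hqM'
          linarith
        have hqL' : (q : ℝ) ≤ L := by exact_mod_cast hqL
        have hMLR : (y : ℝ) * L ≤ 4 * M ^ 2 := by exact_mod_cast hML
        have h8 : Real.sqrt (q / y) ≤ 2 * M / y := by
          rw [Real.sqrt_le_left (by positivity)]
          rw [div_le_iff₀ hyR]
          have : (2 * (M : ℝ) / y) ^ 2 * y = 4 * M ^ 2 / y := by field_simp; ring
          rw [this, le_div_iff₀ hyR]
          nlinarith
        calc (y / (8 * k * M)) * (2 * Real.sqrt (q / y)) * (k * (M / q + 1))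
            ≤ (y / (8 * k * M)) * (2 * (2 * M / y)) * (k * 2) := by gcongr
          _ = 1 := by field_simp; norm_num
    · intro q hq hyq c
      refine AP_class _ _ _ _ _ ?_
      unfold primorial
      refine Nat.Coprime.prod_left fun p hp => ?_
      simp only [mem_filter, mem_range] at hp
      exact (Nat.coprime_primes hp.2 hq).2 (by omega)
  refine (sum_le_sum hmain).trans ?_
  rw [sum_const, card_range, nsmul_eq_mul, primorial_split y L hyL]
  push_cast
  rw [mul_assoc]

end Pool.Agent.Helper1.ZeroOne
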