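import Pool.Agent.Helper1.ZeroOneC

set_option autoImplicit false

open Finset

namespace Pool.Agent.Helper1.ZeroOne

/-- abundance: for an admissible `H`, all but a proportion `L^(-c)` of the residues `a` modulo
`primorial L` have a translate of `H` inside the sieved pattern -/
theorem abundance (H : Finset ℕ) (hA : Adm H) (hk : 1 ≤ H.card) (N : ℕ) :
    ∃ L0 : ℕ, ∀ L ≥ L0, ((poor H N L).card : ℝ) ≤
      (L : ℝ) ^ (-(1 / (100 * (H.card : ℝ)))) * primorial L := by
  set k := H.card with hkdef
  obtain ⟨D, hD⟩ : ∃ D, ∀ h ∈ H, h ≤ D := ⟨H.sup id, fun h hh => le_sup (f := id) hh⟩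
  have hApos : 0 < 2 ^ (64 * k) := by positivity
  set Y0 := 2 ^ (64 * k) + 16 + 2 * (N + D) with hY0
  refine ⟨4 ^ (8 * Y0), fun L hL => ?_⟩
  set y := Nat.log 4 L / 8 with hy
  have hL0 : L ≠ 0 := by
    have : 0 < 4 ^ (8 * Y0) := by positivity
    omega
  have hlog : 8 * Y0 ≤ Nat.log 4 L := (Nat.le_log_iff_pow_le (by norm_num) hL0).2 hL
  have hyY : Y0 ≤ y := by omega
  set B := 4 ^ y with hB
  have hB8 : B ^ 8 ≤ L := by
    rw [hB, ← pow_mul]
    refine (Nat.pow_le_pow_right (by norm_num) ?_).trans (Nat.pow_log_le_self 4 hL0)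
    omega
  have hyB : y < B := by
    have : y < 4 ^ y := Nat.lt_pow_self (by norm_num)
    exact this
  have hB4 : 4 ≤ B := by omega
  have hBB : ∀ j : ℕ, j + 1 ≤ 8 → 4 * B ^ j ≤ B ^ 8 := by
    intro j hj
    calc 4 * B ^ j ≤ B * B ^ j := Nat.mul_le_mul_right _ hB4
      _ = B ^ (j + 1) := by ring
      _ ≤ B ^ 8 := Nat.pow_le_pow_right (by omega) hj
  have hyL : y ≤ L := by
    have := hBB 1 (by norm_num)
    rw [pow_one] at this
    omega
  set M := L / (2 * B) with hM
  have hMB : M * (2 * B) ≤ L := Nat.div_mul_le_self L (2 * B)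
  have hML1 : L < (M + 1) * (2 * B) := by
    have := Nat.lt_div_mul_add (a := L) (b := 2 * B) (by omega)
    rw [← hM] at this
    linarith [add_mul M 1 (2 * B)]
  have h4B : 4 * B ≤ L := by
    have := hBB 1 (by norm_num)
    rw [pow_one] at this
    omega
  have hM1 : 1 ≤ M := by
    rw [hM]; exact (Nat.one_le_div_iff (by omega)).2 (by omega)
  have hprim : primorial y ≤ B := primorial_le_four_pow y
  have hsize : (N + M) * primorial y + D ≤ L := by
    have h1 : (N + M) * primorial y ≤ (N + M) * B := Nat.mul_le_mul_left _ hprim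
    have h2 : (N + M) * B = N * B + M * B := by ring
    have h3 : 2 * (N * B + D) ≤ L := by
      have h4 : 2 * (N * B + D) ≤ (2 * (N + D)) * B := by
        have : D ≤ D * B := Nat.le_mul_of_pos_right _ (by omega)
        have e : (2 * (N + D)) * B = 2 * (N * B + D * B) := by ring
        rw [e]; omega
      have h5 : (2 * (N + D)) * B ≤ B * B := Nat.mul_le_mul_right _ (by omega)
      have h6 := hBB 2 (by norm_num)
      have h7 : B * B = B ^ 2 := by ring
      omega
    have h8 : 2 * (M * B) ≤ L := by linarith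
    omega
  have hy64 : 2 ^ (64 * k) ≤ y := by omega
  have hML : y * L ≤ 4 * M ^ 2 := by
    -- L ≤ 4 B M
    have h1 : L ≤ 4 * B * M := by
      have h2 : L < 2 * B * M + 2 * B := by linarith
      have h3 : 2 * B ≤ 2 * B * M := Nat.le_mul_of_pos_right _ hM1
      linarith
    have h4 : 4 * B ^ 3 ≤ L := (hBB 3 (by norm_num)).trans hB8
    -- L * (4 y B^2) ≤ L^2 ≤ 16 B^2 M^2
    have h5 : L * (4 * B ^ 3) ≤ L * L := Nat.mul_le_mul_left _ h4
    have h6 : L * L ≤ (4 * B * M) * (4 * B * M) := Nat.mul_le_mul h1 h1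
    have h7 : (y * L) * (4 * B ^ 2) ≤ (4 * M ^ 2) * (4 * B ^ 2) := by
      calc (y * L) * (4 * B ^ 2) ≤ (B * L) * (4 * B ^ 2) :=
            Nat.mul_le_mul_right _ (Nat.mul_le_mul_right _ hyB.le)
        _ = L * (4 * B ^ 3) := by ring
        _ ≤ (4 * B * M) * (4 * B * M) := h5.trans h6
        _ = (4 * M ^ 2) * (4 * B ^ 2) := by ring
    exact Nat.le_of_mul_le_mul_right h7 (by positivity)
  have hmain := poor_bound H hA hk N L y M D hyL hD hsize hy64 hM1 hML
  refine hmain.trans ?_
  rw [mul_comm]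
  refine mul_le_mul_of_nonneg_right ?_ (by positivity)
  have hLpos : (0 : ℝ) < L := by exact_mod_cast Nat.pos_of_ne_zero hL0
  have hkR : (0 : ℝ) < k := by exact_mod_cast hk
  rw [Real.rpow_def_of_pos hLpos]
  apply Real.exp_le_exp.2
  have hlt : L < 4 ^ (8 * (y + 1)) := by
    apply Nat.lt_pow_of_log_lt (by norm_num)
    omega
  have hltR : Real.log L ≤ (8 * (y + 1)) * Real.log 4 := by
    have h1 : (L : ℝ) ≤ (4 : ℝ) ^ (8 * (y + 1)) := by exact_mod_cast hlt.le
    have h2 := Real.log_le_log hLpos h1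
    rw [Real.log_pow] at h2
    exact_mod_cast h2
  have hlog4 : Real.log 4 < 1.39 := by
    have : (4 : ℝ) = 2 ^ 2 := by norm_num
    rw [this, Real.log_pow]
    have := Real.log_two_lt_d9
    push_cast
    linarith
  have hyR : (16 : ℝ) ≤ y := by exact_mod_cast (by omega : 16 ≤ y)
  have h2 : Real.log L ≤ (8 * (y + 1)) * 1.39 := by
    refine hltR.trans ?_
    refine mul_le_mul_of_nonneg_left hlog4.le (by positivity)
  have h3 : Real.log L * (1 / (100 * (k : ℝ))) ≤ y / (8 * k) := by
    rw [mul_one_div, div_le_div_iff₀ (by positivity) (by positivity)]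
    have h4 : Real.log L * 8 ≤ y * 100 := by nlinarith
    nlinarith
  linarith

lemma admissible_of_card (H : Finset ℕ) (p : ℕ) (hp : H.card < p) :
    ∃ r : ℕ, r < p ∧ ∀ h ∈ H, h % p ≠ r := by
  by_contra hcon
  push Not at hcon
  have h1 : range p ⊆ H.image (fun h => h % p) := by
    intro r hr
    obtain ⟨h, hh, he⟩ := hcon r (mem_range.1 hr)
    exact mem_image.2 ⟨h, hh, he⟩
  have h2 := card_le_card h1
  rw [card_range] at h2
  have h3 : (H.image (fun h => h % p)).card ≤ H.card := card_image_le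
  omega

/-- forcing one composite value -/
lemma force_one (H : Finset ℕ) (h0 : 0 ∈ H) (hA : Adm H) (c : ℕ) (hc : c ∉ H) (K : ℕ) :
    ∃ H' : Finset ℕ, H ⊆ H' ∧ Adm H' ∧ (∀ h ∈ H', h ∈ H ∨ K < h) ∧
      ∃ Q : ℕ, ∀ n > Q, (∀ h ∈ H', (n + h).Prime) → ¬ (n + c).Prime := by
  classical
  obtain ⟨q, hqgt, hq⟩ := Nat.exists_infinite_primes (max c (H.sup id) + 1)
  have hcq : c < q := by
    have := le_max_left c (H.sup id); omega
  have hHq : ∀ h ∈ H, h < q := by
    intro h hh
    have h1 : h ≤ H.sup id := le_sup (f := id) hh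
    have := le_max_right c (H.sup id); omega
  set B := H.card + q with hB
  set S := (range (B + 1)).filter Nat.Prime with hS
  have hqS : q ∈ S := by
    rw [hS, mem_filter, mem_range]; exact ⟨by omega, hq⟩
  have hs : ∀ i ∈ S, (fun p : ℕ => p) i ≠ 0 := fun i hi => (mem_filter.1 hi).2.ne_zero
  have pp : Set.Pairwise (S : Set ℕ) (Function.onFun Nat.Coprime (fun p : ℕ => p)) := by
    intro i hi j hj hij
    exact (Nat.coprime_primes (mem_filter.1 hi).2 (mem_filter.1 hj).2).2 hij
  -- the new elements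
  have hex : ∀ b : ℕ, ∃ e : ℕ, K < e ∧ e ≡ b [MOD q] ∧ ∀ p ∈ S, p ≠ q → e ≡ 0 [MOD p] := by
    intro b
    let a : ℕ → ℕ := fun p => if p = q then b else 0
    obtain ⟨e0, he0⟩ := Nat.chineseRemainderOfFinset a (fun p => p) S hs pp
    have hprod : ∀ p ∈ S, p ∣ (K + 1) * ∏ p ∈ S, p := fun p hp =>
      Dvd.dvd.mul_left (dvd_prod_of_mem (fun p : ℕ => p) hp) _
    have hpos : 0 < ∏ p ∈ S, p := prod_pos fun p hp => (mem_filter.1 hp).2.pos
    refine ⟨e0 + (K + 1) * ∏ p ∈ S, p, ?_, ?_, ?_⟩
    · have : (K + 1) * 1 ≤ (K + 1) * ∏ p ∈ S, p := Nat.mul_le_mul_left _ hpos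
      omega
    · have h1 := he0 q hqS
      have h2 : a q = b := by simp [a]
      rw [h2] at h1
      have h3 : e0 + (K + 1) * ∏ p ∈ S, p ≡ e0 + 0 [MOD q] :=
        (Nat.modEq_zero_iff_dvd.2 (hprod q hqS)).add_left e0
      exact h3.trans h1
    · intro p hp hpq
      have h1 := he0 p hp
      have h2 : a p = 0 := by simp [a, hpq]
      rw [h2] at h1
      have h3 : e0 + (K + 1) * ∏ p ∈ S, p ≡ e0 + 0 [MOD p] :=
        (Nat.modEq_zero_iff_dvd.2 (hprod p hp)).add_left e0
      exact h3.trans h1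
  choose e heK heq heS using hex
  set E := ((range q).erase c).image e with hE
  refine ⟨H ∪ E, subset_union_left, ?_, ?_, q, ?_⟩
  · intro p hp
    by_cases hpB : p ≤ B
    · have hpS : p ∈ S := by rw [hS, mem_filter, mem_range]; exact ⟨by omega, hp⟩
      by_cases hpq : p = q
      · subst hpq
        refine ⟨c, hcq, ?_⟩
        intro h hh
        rcases mem_union.1 hh with hh1 | hh1
        · rw [Nat.mod_eq_of_lt (hHq h hh1)]
          intro hhc
          rw [hhc] at hh1
          exact hc hh1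
        · rw [hE, mem_image] at hh1
          obtain ⟨b, hb, rfl⟩ := hh1
          rw [mem_erase, mem_range] at hb
          have h1 : e b % p = b % p := heq b
          rw [h1, Nat.mod_eq_of_lt hb.2]
          exact hb.1
      · obtain ⟨r, hr, hr2⟩ := hA p hp
        refine ⟨r, hr, ?_⟩
        intro h hh
        rcases mem_union.1 hh with hh | hh
        · exact hr2 h hh
        · rw [hE, mem_image] at hh
          obtain ⟨b, hb, rfl⟩ := hh
          have h1 : e b % p = 0 % p := heS b p hpS hpq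
          rw [h1]
          exact hr2 0 h0
    · apply admissible_of_card
      have h1 : (H ∪ E).card ≤ H.card + E.card := card_union_le _ _
      have h2 : E.card ≤ q := by
        refine card_image_le.trans ?_
        refine (card_erase_le).trans ?_
        simp
      omega
  · intro h hh
    rcases mem_union.1 hh with hh | hh
    · exact Or.inl hh
    · right
      rw [hE, mem_image] at hh
      obtain ⟨b, _, rfl⟩ := hh
      exact heK b
  · intro n hn hpr hnc
    -- residue b of -n
    have hq0 := hq.pos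
    set b := (q - n % q) % q with hb
    have hbq : b < q := Nat.mod_lt _ hq0
    have hnb : q ∣ n + b := by
      rw [← Nat.modEq_zero_iff_dvd]
      have h1 : n + (q - n % q) ≡ 0 [MOD q] := by
        rw [Nat.modEq_zero_iff_dvd]
        have h2 : n + (q - n % q) = q * (n / q) + q := by
          have h3 := Nat.div_add_mod n q
          have h4 := Nat.mod_lt n hq0
          omega
        rw [h2]
        exact Dvd.intro _ (by ring : q * (n / q + 1) = q * (n / q) + q)
      exact ((Nat.mod_modEq (q - n % q) q).add_left n).trans h1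
    by_cases hbc : b = c
    · rw [hbc] at hnb
      have h1 := (Nat.prime_dvd_prime_iff_eq hq hnc).1 hnb
      omega
    · have hmem : e b ∈ H ∪ E := by
        apply mem_union_right
        rw [hE]
        exact mem_image_of_mem _ (mem_erase.2 ⟨hbc, mem_range.2 hbq⟩)
      have h1 := hpr (e b) hmem
      have h2 : q ∣ n + e b := by
        have h3 : n + e b ≡ n + b [MOD q] := (heq b).add_left n
        exact (Nat.modEq_zero_iff_dvd.1 (h3.trans (Nat.modEq_zero_iff_dvd.2 hnb)))
      have h3 := (Nat.prime_dvd_prime_iff_eq hq h1).1 h2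
      omega

/-- forcing finitely many composite values -/
lemma force_many (C : Finset ℕ) (K : ℕ) (H : Finset ℕ) (h0 : 0 ∈ H) (hA : Adm H)
    (hCH : ∀ c ∈ C, c ∉ H) (hCK : ∀ c ∈ C, c ≤ K) :
    ∃ H' : Finset ℕ, H ⊆ H' ∧ Adm H' ∧ (∀ h ∈ H', h ∈ H ∨ K < h) ∧
      ∃ Q : ℕ, ∀ n > Q, (∀ h ∈ H', (n + h).Prime) → ∀ c ∈ C, ¬ (n + c).Prime := by
  classical
  induction C using Finset.induction_on with
  | empty => exact ⟨H, Subset.rfl, hA, fun h hh => Or.inl hh, 0, by simp⟩
  | insert c s hc ih =>
    obtain ⟨H1, hsub, hA1, hK1, Q1, hQ1⟩ := ih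
      (fun c hc => hCH c (mem_insert_of_mem hc)) (fun c hc => hCK c (mem_insert_of_mem hc))
    have hc1 : c ∉ H1 := by
      intro hcon
      rcases hK1 c hcon with h | h
      · exact hCH c (mem_insert_self _ _) h
      · have := hCK c (mem_insert_self _ _); omega
    obtain ⟨H2, hsub2, hA2, hK2, Q2, hQ2⟩ := force_one H1 (hsub h0) hA1 c hc1 K
    refine ⟨H2, hsub.trans hsub2, hA2, ?_, max Q1 Q2, ?_⟩
    · intro h hh
      rcases hK2 h hh with h1 | h1
      · exact hK1 h h1
      · exact Or.inr h1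
    · intro n hn hpr c' hc'
      have hn1 : n > Q1 := lt_of_le_of_lt (le_max_left _ _) hn
      have hn2 : n > Q2 := lt_of_le_of_lt (le_max_right _ _) hn
      rcases mem_insert.1 hc' with rfl | hc'
      · exact hQ2 n hn2 hpr
      · exact hQ1 n hn1 (fun h hh => hpr h (hsub2 hh)) c' hc'

/-- `n` realises `H` as consecutive primes -/
def Real (H : Finset ℕ) (n : ℕ) : Prop :=
  (∀ h ∈ H, (n + h).Prime) ∧ ∀ m : ℕ, (n + m).Prime → (∃ h ∈ H, m ≤ h) → m ∈ H

/-- the sieved pattern of `a` at level `L` has a translate consisting of primes -/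
def Good (L a : ℕ) : Prop :=
  ∃ n : ℕ, ∀ j < L, Nat.Coprime (a + j) (primorial L) → (n + j).Prime

open Classical in
lemma good_le_poor (H : Finset ℕ) (h0 : 0 ∈ H) (hA : Adm H)
    (hfin : ¬ Set.Infinite {n : ℕ | Real H n}) :
    ∃ H' : Finset ℕ, Adm H' ∧ 1 ≤ H'.card ∧ ∃ N, ∀ L,
      ((range (primorial L)).filter (fun a => Good L a)).card ≤ (poor H' N L).card := by
  set K := H.sup id with hK
  have hHK : ∀ h ∈ H, h ≤ K := fun h hh => le_sup (f := id) hh
  obtain ⟨H', hsub, hA', hK', Q, hQ⟩ := force_many ((range (K + 1)) \ H) K H h0 hA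
    (fun c hc => (mem_sdiff.1 hc).2)
    (fun c hc => by have := mem_range.1 (mem_sdiff.1 hc).1; omega)
  rw [Set.not_infinite] at hfin
  obtain ⟨N0, hN0⟩ := hfin.bddAbove
  refine ⟨H', hA', ?_, max Q N0 + 1, fun L => ?_⟩
  · exact Nat.succ_le_of_lt (card_pos.2 ⟨0, hsub h0⟩)
  · apply card_le_card
    intro a ha
    simp only [mem_filter] at ha
    simp only [poor, mem_filter]
    refine ⟨ha.1, ?_⟩
    rintro ⟨t, htN, ht⟩
    obtain ⟨n, hn⟩ := ha.2
    have hpr : ∀ h ∈ H', (n + t + h).Prime := by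
      intro h hh
      have h1 := ht h hh
      have h2 := hn (t + h) h1.1 (by rw [← add_assoc]; exact h1.2)
      rwa [add_assoc]
    have hreal : Real H (n + t) := by
      refine ⟨fun h hh => hpr h (hsub hh), fun m hm hmh => ?_⟩
      by_contra hmH
      obtain ⟨h, hh, hmh⟩ := hmh
      have hmK : m ≤ K := hmh.trans (hHK h hh)
      have h1 : n + t > Q := by
        have := le_max_left Q N0; omega
      exact hQ (n + t) h1 hpr m (mem_sdiff.2 ⟨mem_range.2 (by omega), hmH⟩) hm
    have h2 := hN0 (show n + t ∈ {n : ℕ | Real H n} from hreal)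
    have := le_max_right Q N0
    omega

lemma good_of_real (hQ : ∀ H : Finset ℕ, 0 ∈ H → Adm H → Set.Infinite {n : ℕ | Real H n})
    (L a : ℕ) : Good L a := by
  classical
  set G := (range L).filter (fun j => Nat.Coprime (a + j) (primorial L)) with hG
  rcases G.eq_empty_or_nonempty with hGe | hGne
  · refine ⟨0, fun j hj hco => ?_⟩
    exfalso
    have : j ∈ G := by rw [hG, mem_filter, mem_range]; exact ⟨hj, hco⟩
    rw [hGe] at this
    exact notMem_empty _ this
  · set j0 := G.min' hGne with hj0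
    have hj0G : j0 ∈ G := min'_mem _ _
    have hmin : ∀ j ∈ G, j0 ≤ j := fun j hj => min'_le _ _ hj
    set H := G.image (fun j => j - j0) with hH
    have h0 : 0 ∈ H := by
      rw [hH, mem_image]; exact ⟨j0, hj0G, by simp⟩
    have hA : Adm H := by
      intro p hp
      by_cases hpL : p ≤ L
      · have hpd : p ∣ primorial L := by
          unfold primorial
          exact dvd_prod_of_mem (fun p : ℕ => p) (mem_filter.2 ⟨mem_range.2 (by omega), hp⟩)
        set b := (p - (a + j0) % p) % p with hb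
        have hq0 := hp.pos
        refine ⟨b, Nat.mod_lt _ hq0, ?_⟩
        intro h hh hcon
        rw [hH, mem_image] at hh
        obtain ⟨j, hj, rfl⟩ := hh
        have hle := hmin j hj
        have hj' := (mem_filter.1 hj).2
        have h1 : ¬ p ∣ a + j := by
          intro hd
          exact Nat.Prime.not_coprime_iff_dvd.2 ⟨p, hp, hd, hpd⟩ hj'
        apply h1
        have h2 : a + j0 + b ≡ 0 [MOD p] := by
          have h3 : (a + j0) + (p - (a + j0) % p) ≡ 0 [MOD p] := by
            rw [Nat.modEq_zero_iff_dvd]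
            have h4 : (a + j0) + (p - (a + j0) % p) = p * ((a + j0) / p) + p := by
              have h5 := Nat.div_add_mod (a + j0) p
              have h6 := Nat.mod_lt (a + j0) hq0
              omega
            rw [h4]
            exact Dvd.intro _ (by ring : p * ((a + j0) / p + 1) = p * ((a + j0) / p) + p)
          exact ((Nat.mod_modEq (p - (a + j0) % p) p).add_left (a + j0)).trans h3
        have h7 : (j - j0) ≡ b [MOD p] := by
          rw [Nat.ModEq, hcon, Nat.mod_mod]
        have h8 : a + j0 + (j - j0) ≡ 0 [MOD p] := (h7.add_left (a + j0)).trans h2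
        have h9 : a + j0 + (j - j0) = a + j := by omega
        rw [h9] at h8
        exact Nat.modEq_zero_iff_dvd.1 h8
      · apply admissible_of_card
        have h1 : H.card ≤ G.card := card_image_le
        have h2 : G.card ≤ L := by
          refine (card_filter_le _ _).trans ?_
          simp
        omega
    obtain ⟨n, hn, hnj⟩ := (hQ H h0 hA).exists_gt j0
    refine ⟨n - j0, fun j hj hco => ?_⟩
    have hjG : j ∈ G := by rw [hG, mem_filter, mem_range]; exact ⟨hj, hco⟩
    have h1 := hn.1 (j - j0) (by rw [hH, mem_image]; exact ⟨j, hjG, rfl⟩)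
    have h2 := hmin j hjG
    have h3 : n + (j - j0) = n - j0 + j := by omega
    rwa [h3] at h1

open Classical in
/-- zero-one law -/
theorem zero_one : ((∀ H : Finset ℕ, 0 ∈ H → Adm H → Set.Infinite {n : ℕ | Real H n}) ∧
      ∀ L a, Good L a) ∨
    ∃ c : ℝ, 0 < c ∧ ∃ L0 : ℕ, ∀ L ≥ L0,
      (((range (primorial L)).filter (fun a => Good L a)).card : ℝ) ≤
        (L : ℝ) ^ (-c) * primorial L := by
  by_cases hQ : ∀ H : Finset ℕ, 0 ∈ H → Adm H → Set.Infinite {n : ℕ | Real H n}
  · exact Or.inl ⟨hQ, good_of_real hQ⟩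
  · right
    push Not at hQ
    obtain ⟨H, h0, hA, hfin⟩ := hQ
    obtain ⟨H', hA', hk', N, hN⟩ := good_le_poor H h0 hA (Set.not_infinite.2 hfin)
    obtain ⟨L0, hL0⟩ := abundance H' hA' hk' N
    have hkR : (0 : ℝ) < H'.card := by exact_mod_cast hk'
    refine ⟨1 / (100 * (H'.card : ℝ)), by positivity, L0, fun L hL => ?_⟩
    refine le_trans ?_ (hL0 L hL)
    exact_mod_cast hN L

end Pool.Agent.Helper1.ZeroOne
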