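import Pool.Agent.Helper1.ZeroOneD
import Pool.Agent.Helper1.BrunD

set_option autoImplicit false

open Finset

namespace Pool.Agent.Helper1.ZeroOne

open Pool.Agent.Helper1.Brun (surv2 sieve_lower)

/-- general union bound over the residues modulo `primorial z` -/
lemma card_poor_le' (H : Finset ℕ) (N L z : ℕ) (hzL : z ≤ L) (T : ℕ → Finset ℕ)
    (hT : ∀ u, ∀ t ∈ T u, N ≤ t ∧ ∀ h ∈ H, t + h < L ∧ Nat.Coprime (u + t + h) (primorial z)) :
    (poor H N L).card ≤ ∑ u ∈ range (primorial z), (bad H (T u) (PP z L)).card := by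
  set W := primorial z with hW
  have hWpos : 0 < W := primorial_pos z
  rw [← card_sigma]
  refine card_le_card_of_injOn (fun a => ⟨a % W, a % PP z L⟩) ?_ ?_
  · intro a ha
    simp only [poor, coe_filter, mem_range, Set.mem_ofPred_eq] at ha
    simp only [coe_sigma, Set.mem_sigma_iff, mem_coe, mem_range]
    refine ⟨Nat.mod_lt _ hWpos, ?_⟩
    simp only [bad, mem_filter, mem_range]
    refine ⟨Nat.mod_lt _ (PP_pos _ _), fun t ht => ?_⟩
    by_contra hcon
    push Not at hcon
    apply ha.2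
    obtain ⟨h1, h2⟩ := hT (a % W) t ht
    refine ⟨t, h1, fun h hh => ⟨(h2 h hh).1, ?_⟩⟩
    rw [primorial_split z L hzL]
    refine Nat.Coprime.mul_right ?_ ?_
    · have h3 := (h2 h hh).2
      rw [add_assoc, hW, coprime_mod_iff, ← add_assoc] at h3
      exact h3
    · have h3 := hcon h hh
      rw [add_assoc, coprime_mod_iff, ← add_assoc] at h3
      exact h3
  · intro a ha b hb hab
    simp only [poor, coe_filter, mem_range, Set.mem_ofPred_eq] at ha hb
    simp only [Sigma.mk.injEq, heq_eq_eq] at hab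
    have h1 : a ≡ b [MOD W] := hab.1
    have h2 : a ≡ b [MOD PP z L] := hab.2
    have h3 : a ≡ b [MOD W * PP z L] :=
      (Nat.modEq_and_modEq_iff_modEq_mul (coprime_primorial_PP z L)).1 ⟨h1, h2⟩
    rw [← primorial_split z L hzL] at h3
    exact Nat.ModEq.eq_of_lt_of_lt h3 ha.1 hb.1

/-- removed classes modulo `p` -/
noncomputable def Om (H : Finset ℕ) (y s W : ℕ) (p : ℕ) : Finset ℕ :=
  if p.Prime ∧ y < p then (range p).filter (fun j => ∃ h ∈ H, p ∣ s + j * W + h) else ∅

lemma Om_sub (H : Finset ℕ) (y s W p : ℕ) : Om H y s W p ⊆ range p := by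
  unfold Om
  split_ifs
  · exact filter_subset _ _
  · exact empty_subset _

lemma Om_card (H : Finset ℕ) (y s p : ℕ) : (Om H y s (primorial y) p).card ≤ H.card := by
  unfold Om
  split_ifs with hp
  · have hco : Nat.Coprime (primorial y) p := by
      unfold primorial
      refine Nat.Coprime.prod_left fun q hq => ?_
      simp only [mem_filter, mem_range] at hq
      exact (Nat.coprime_primes hq.2 hp.1).2 (by omega)
    have h1 : (range p).filter (fun j => ∃ h ∈ H, p ∣ s + j * primorial y + h) ⊆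
        H.biUnion (fun h => (range p).filter (fun j => p ∣ s + j * primorial y + h)) := by
      intro j hj
      simp only [mem_filter, mem_biUnion] at hj ⊢
      obtain ⟨hj1, h, hh, hd⟩ := hj
      exact ⟨h, hh, hj1, hd⟩
    refine (card_le_card h1).trans (card_biUnion_le.trans ?_)
    have h2 : ∀ h ∈ H, ((range p).filter (fun j => p ∣ s + j * primorial y + h)).card ≤ 1 := by
      intro h _
      rw [card_le_one]
      intro i hi j hj
      simp only [mem_filter, mem_range] at hi hj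
      have h3 : s + i * primorial y + h ≡ s + j * primorial y + h [MOD p] :=
        (Nat.modEq_zero_iff_dvd.2 hi.2).trans (Nat.modEq_zero_iff_dvd.2 hj.2).symm
      have h4 : i * primorial y ≡ j * primorial y [MOD p] :=
        Nat.ModEq.add_left_cancel' s (Nat.ModEq.add_right_cancel' h h3)
      have h5 : i ≡ j [MOD p] := Nat.ModEq.cancel_right_of_coprime hco.symm h4
      exact Nat.ModEq.eq_of_lt_of_lt h5 hi.1 hj.1
    refine (sum_le_sum h2).trans ?_
    simp
  · simp

/-- the bound for the number of poor residues, given a lower bound for the number of survivors -/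
theorem poor_bound' (H : Finset ℕ) (hA : Adm H) (hk : 1 ≤ H.card) (N L y z M D : ℕ)
    (hyz : y ≤ z) (hzL : z ≤ L)
    (hD : ∀ h ∈ H, h ≤ D) (hsize : (N + M) * primorial y + D ≤ L)
    (hz : 2 ^ (64 * H.card) ≤ z) (hM : 1 ≤ M) (hML : z * L ≤ 4 * M ^ 2) (S : ℝ)
    (hS : ∀ Ω : ℕ → Finset ℕ, (∀ p, Ω p ⊆ range p) → (∀ p, (Ω p).card ≤ H.card) →
      S ≤ ((surv2 Ω (prs y z) M).card : ℝ)) :
    ((poor H N L).card : ℝ) ≤ primorial L * Real.exp (-(z / (8 * H.card * M) * S)) := by
  set k := H.card with hkdef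
  have hkz : 4 * k ≤ z := by
    have h1 : 64 * k < 2 ^ (64 * k) := Nat.lt_two_pow_self
    omega
  have hz0 : 0 < z := by omega
  have hzR : (0 : ℝ) < z := by exact_mod_cast hz0
  have hkR : (0 : ℝ) < k := by exact_mod_cast hk
  have hMR : (0 : ℝ) < M := by exact_mod_cast hM
  choose τ hτ hτ2 using fun u => exists_tau H hA u y
  set W := primorial y with hW
  have hWpos : 0 < W := primorial_pos y
  -- the sets of survivors
  set I : ℕ → Finset ℕ := fun u =>
    surv2 (Om H y (u + (τ u + N * W)) W) (prs y z) M with hI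
  set T : ℕ → Finset ℕ := fun u => (I u).image (fun i => (τ u + N * W) + i * W) with hT
  have hTcard : ∀ u, (T u).card = (I u).card := by
    intro u
    apply card_image_of_injective
    intro i j hij
    simpa [hWpos.ne'] using hij
  have hTAP : ∀ u, T u ⊆ AP (τ u + N * W) W M := by
    intro u
    apply image_subset_image
    exact filter_subset _ _
  have hTprop : ∀ u, ∀ t ∈ T u, N ≤ t ∧ ∀ h ∈ H, t + h < L ∧
      Nat.Coprime (u + t + h) (primorial z) := by
    intro u t ht
    rw [hT, mem_image] at ht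
    obtain ⟨i, hi, rfl⟩ := ht
    simp only [hI, surv2, mem_filter, mem_range] at hi
    have hτu := hτ u
    refine ⟨?_, fun h hh => ⟨?_, ?_⟩⟩
    · have : N * 1 ≤ N * W := Nat.mul_le_mul_left N hWpos
      omega
    · have h1 := hD h hh
      have h2 : (N + M) * W = N * W + M * W := by ring
      have h3 : (i + 1) * W ≤ M * W := Nat.mul_le_mul_right W hi.1
      have h4 : (i + 1) * W = i * W + W := by ring
      omega
    · rw [primorial_split y z hyz]
      refine Nat.Coprime.mul_right ?_ ?_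
      · have h1 := hτ2 u h hh
        have h2 : u + (τ u + N * W + i * W) + h ≡ u + τ u + h [MOD W] := by
          have e1 : u + (τ u + N * W + i * W) + h = (N + i) * W + (u + τ u + h) := by ring
          rw [e1]
          simp [Nat.ModEq]
        rw [Nat.coprime_iff_gcd_eq_one, h2.gcd_eq]
        exact h1
      · unfold PP
        refine Nat.Coprime.prod_right fun p hp => ?_
        simp only [mem_filter, mem_Ioc] at hp
        rw [Nat.coprime_comm, Nat.Prime.coprime_iff_not_dvd hp.2]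
        intro hd
        have h1 := hi.2 p (by simp only [prs, mem_filter, mem_Ioc]; exact hp)
        apply h1
        unfold Om
        rw [if_pos ⟨hp.2, hp.1.1⟩, mem_filter, mem_range]
        refine ⟨Nat.mod_lt _ hp.2.pos, h, hh, ?_⟩
        have h2 : u + (τ u + N * W) + i % p * W + h ≡ u + (τ u + N * W + i * W) + h [MOD p] := by
          have e1 : u + (τ u + N * W + i * W) + h = u + (τ u + N * W) + i * W + h := by ring
          rw [e1]
          exact (((Nat.mod_modEq i p).mul_right W).add_left _).add_right h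
        exact Nat.modEq_zero_iff_dvd.1 (h2.trans (Nat.modEq_zero_iff_dvd.2 hd))
  have h1 := card_poor_le' H N L z hzL T hTprop
  have h1' : ((poor H N L).card : ℝ) ≤ ∑ u ∈ range (primorial z),
      ((bad H (T u) (PP z L)).card : ℝ) := by exact_mod_cast h1
  refine h1'.trans ?_
  set lam : ℕ → ℝ := fun n => (z / (8 * k * M)) * Pf k z n with hlam
  have hmain : ∀ u ∈ range (primorial z),
      ((bad H (T u) (PP z L)).card : ℝ) ≤ PP z L * Real.exp (-(z / (8 * k * M) * S)) := by
    intro u _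
    have h2 := bad_bound H z L (fun q => M / q + 1) lam ?_ ?_ ?_ ?_ (L - z) z (by omega) le_rfl
      (T u) ?_
    · refine h2.trans ?_
      refine mul_le_mul_of_nonneg_left ?_ (by positivity)
      apply Real.exp_le_exp.2
      apply neg_le_neg
      have e1 : Pf k z z = 1 := by simp [Pf, prs]
      simp only [hlam, e1, mul_one]
      refine mul_le_mul_of_nonneg_left ?_ (by positivity)
      rw [hTcard]
      exact hS _ (fun p => Om_sub _ _ _ _ _) (fun p => Om_card _ _ _ _)
    · intro n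
      exact mul_nonneg (by positivity) (Pf_nonneg k z n hkz)
    · intro n hn _ hp
      simp only [hlam]
      rw [Pf_succ_prime k z n hn hp]
      have hne : (1 - 2 * (k : ℝ) / ((n + 1 : ℕ) : ℝ)) ≠ 0 := by
        intro hc
        have := Pf_nonneg_factor k z (n + 1) hkz (by omega)
        rw [hc, inv_zero] at this
        linarith
      rw [← hkdef, mul_assoc _ (Pf k z n * _) _, mul_assoc (Pf k z n), inv_mul_cancel₀ hne,
        mul_one]
    · intro n hn _ hp
      simp only [hlam]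
      rw [Pf_succ_not_prime k z n hn hp]
    · intro q _ hyq hqL
      simp only [hlam]
      have hq0 : 0 < q := by omega
      have hqR : (0 : ℝ) < q := by exact_mod_cast hq0
      have hPf := Pf_le k z hk hz q hyq.le
      have hbq : ((M / q + 1 : ℕ) : ℝ) ≤ M / q + 1 := by
        push_cast
        have := @Nat.cast_div_le ℝ _ _ _ M q
        linarith
      have h5 : (z / (8 * k * M)) * Pf k z q * (k * ((M / q + 1 : ℕ) : ℝ)) ≤
          (z / (8 * k * M)) * (2 * Real.sqrt (q / z)) * (k * (M / q + 1)) := by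
        have hP0 := Pf_nonneg k z q hkz
        gcongr
      refine h5.trans ?_
      by_cases hqM : q ≤ M
      · have hqM' : (q : ℝ) ≤ M := by exact_mod_cast hqM
        have h6 : (M : ℝ) / q + 1 ≤ 2 * (M / q) := by
          have : 1 ≤ (M : ℝ) / q := (one_le_div hqR).2 hqM'
          linarith
        have hyq' : (z : ℝ) ≤ q := by exact_mod_cast hyq.le
        have h7 : Real.sqrt (q / z) ≤ q / z := by
          rw [Real.sqrt_le_left (by positivity)]
          have : 1 ≤ (q : ℝ) / z := (one_le_div hzR).2 hyq'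
          nlinarith
        calc (z / (8 * k * M)) * (2 * Real.sqrt (q / z)) * (k * (M / q + 1))
            ≤ (z / (8 * k * M)) * (2 * (q / z)) * (k * (2 * (M / q))) := by gcongr
          _ = 1 / 2 := by field_simp; norm_num
          _ ≤ 1 := by norm_num
      · push Not at hqM
        have hqM' : (M : ℝ) ≤ q := by exact_mod_cast hqM.le
        have h6 : (M : ℝ) / q + 1 ≤ 2 := by
          have : (M : ℝ) / q ≤ 1 := (div_le_one hqR).2 hqM'
          linarith
        have hqL' : (q : ℝ) ≤ L := by exact_mod_cast hqL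
        have hMLR : (z : ℝ) * L ≤ 4 * M ^ 2 := by exact_mod_cast hML
        have h8 : Real.sqrt (q / z) ≤ 2 * M / z := by
          rw [Real.sqrt_le_left (by positivity)]
          rw [div_le_iff₀ hzR]
          have : (2 * (M : ℝ) / z) ^ 2 * z = 4 * M ^ 2 / z := by field_simp; ring
          rw [this, le_div_iff₀ hzR]
          nlinarith
        calc (z / (8 * k * M)) * (2 * Real.sqrt (q / z)) * (k * (M / q + 1))
            ≤ (z / (8 * k * M)) * (2 * (2 * M / z)) * (k * 2) := by gcongr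
          _ = 1 := by field_simp; norm_num
    · intro q hq hyq c
      refine (card_le_card (filter_subset_filter _ (hTAP u))).trans ?_
      refine AP_class _ _ _ _ _ ?_
      rw [hW]
      unfold primorial
      refine Nat.Coprime.prod_left fun p hp => ?_
      simp only [mem_filter, mem_range] at hp
      exact (Nat.coprime_primes hp.2 hq).2 (by omega)
  refine (sum_le_sum hmain).trans ?_
  rw [sum_const, card_range, nsmul_eq_mul, primorial_split z L hzL]
  refine le_of_eq ?_
  push_cast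
  ring

lemma two_mul_le_two_pow (J : ℕ) : 2 * J ≤ 2 ^ J := by
  induction J with
  | zero => simp
  | succ J ih =>
    rcases Nat.eq_zero_or_pos J with h | h
    · subst h; simp
    · have : 2 ≤ 2 ^ J := by
        calc 2 = 2 ^ 1 := rfl
          _ ≤ 2 ^ J := Nat.pow_le_pow_right (by norm_num) h
      rw [pow_succ]; omega

/-- abundance with a stretched exponential bound -/
theorem abundance' (H : Finset ℕ) (hA : Adm H) (hk : 1 ≤ H.card) (N : ℕ) :
    ∃ c : ℝ, 0 < c ∧ ∃ L0 : ℕ, ∀ L ≥ L0, ((poor H N L).card : ℝ) ≤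
      Real.exp (-(L : ℝ) ^ c) * primorial L := by
  set k := H.card with hkdef
  obtain ⟨D, hD⟩ : ∃ D, ∀ h ∈ H, h ≤ D := ⟨H.sup id, fun h hh => le_sup (f := id) hh⟩
  obtain ⟨b, hb⟩ := sieve_lower k hk
  set s := 2 * (3 * b + 11) with hs
  have hkR : (0 : ℝ) < k := by exact_mod_cast hk
  have hsR : (0 : ℝ) < s := by exact_mod_cast (by omega : 0 < s)
  -- y ^ s ≤ 2 ^ y eventually
  obtain ⟨Y1, hY1⟩ : ∃ Y1 : ℕ, ∀ y ≥ Y1, y ^ s ≤ 2 ^ y := by
    have h1 := tendsto_pow_const_div_const_pow_of_one_lt s (r := (2 : ℝ)) (by norm_num)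
    have h2 := h1.eventually (gt_mem_nhds (show (0 : ℝ) < 1 by norm_num))
    rw [Filter.eventually_atTop] at h2
    obtain ⟨Y1, hY1⟩ := h2
    refine ⟨Y1, fun y hy => ?_⟩
    have h3 := hY1 y hy
    rw [div_lt_one (by positivity)] at h3
    exact_mod_cast h3.le
  -- real threshold
  obtain ⟨L1, hL1⟩ : ∃ L1 : ℕ, ∀ L ≥ L1, (32 * (k : ℝ)) ≤ (L : ℝ) ^ (1 / (4 * (s : ℝ)) - 1 / (8 * s)) := by
    have hpos : 0 < 1 / (4 * (s : ℝ)) - 1 / (8 * s) := by
      have : 1 / (4 * (s : ℝ)) - 1 / (8 * s) = 1 / (8 * s) := by field_simp; norm_num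
      rw [this]; positivity
    have h1 := (tendsto_rpow_atTop hpos).comp tendsto_natCast_atTop_atTop
    have h2 := h1.eventually (Filter.eventually_ge_atTop (32 * (k : ℝ)))
    rw [Filter.eventually_atTop] at h2
    exact h2
  set K0 := ⌈Real.exp (16 * k)⌉₊ with hK0
  have hApos : 0 < 2 ^ (64 * k) := by positivity
  set Y0 := 2 ^ (64 * k) + 16 + 2 * (N + D) + K0 + Y1 + (2 * k + 1) with hY0
  refine ⟨1 / (8 * s), by positivity, max (4 ^ (8 * Y0)) L1, fun L hL => ?_⟩
  have hLa : 4 ^ (8 * Y0) ≤ L := (le_max_left _ _).trans hL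
  have hLb : L1 ≤ L := (le_max_right _ _).trans hL
  set y := Nat.log 4 L / 8 with hy
  have hL0 : L ≠ 0 := by
    have : 0 < 4 ^ (8 * Y0) := by positivity
    omega
  have hlog : 8 * Y0 ≤ Nat.log 4 L := (Nat.le_log_iff_pow_le (by norm_num) hL0).2 hLa
  have hyY : Y0 ≤ y := by omega
  set B := 4 ^ y with hB
  have hB8 : B ^ 8 ≤ L := by
    rw [hB, ← pow_mul]
    refine (Nat.pow_le_pow_right (by norm_num) ?_).trans (Nat.pow_log_le_self 4 hL0)
    omega
  have hyB : y < B := by
    have : y < 4 ^ y := Nat.lt_pow_self (by norm_num)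
    exact this
  have hB16 : 16 ≤ B := by omega
  have hBB : ∀ i j : ℕ, i + j ≤ 8 → 16 ^ i * B ^ j ≤ L := by
    intro i j hij
    calc 16 ^ i * B ^ j ≤ B ^ i * B ^ j := Nat.mul_le_mul_right _ (Nat.pow_le_pow_left hB16 _)
      _ = B ^ (i + j) := by ring
      _ ≤ B ^ 8 := Nat.pow_le_pow_right (by omega) hij
      _ ≤ L := hB8
  set M := L / (2 * B) with hM
  have hMB : M * (2 * B) ≤ L := Nat.div_mul_le_self L (2 * B)
  have hML1 : L < (M + 1) * (2 * B) := by
    have := Nat.lt_div_mul_add (a := L) (b := 2 * B) (by omega)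
    rw [← hM] at this
    linarith [add_mul M 1 (2 * B)]
  have h16B : 16 * B ≤ L := by
    have := hBB 1 1 (by norm_num)
    rwa [pow_one, pow_one] at this
  have hM1 : 1 ≤ M := by
    rw [hM]; exact (Nat.one_le_div_iff (by omega)).2 (by omega)
  have hprim : primorial y ≤ B := primorial_le_four_pow y
  have hsize : (N + M) * primorial y + D ≤ L := by
    have h1 : (N + M) * primorial y ≤ (N + M) * B := Nat.mul_le_mul_left _ hprim
    have h2 : (N + M) * B = N * B + M * B := by ring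
    have h3 : 2 * (N * B + D) ≤ L := by
      have h4 : 2 * (N * B + D) ≤ (2 * (N + D)) * B := by
        have : D ≤ D * B := Nat.le_mul_of_pos_right _ (by omega)
        have e : (2 * (N + D)) * B = 2 * (N * B + D * B) := by ring
        rw [e]; omega
      have h5 : (2 * (N + D)) * B ≤ B * B := Nat.mul_le_mul_right _ (by omega)
      have h6 := hBB 0 2 (by norm_num)
      rw [pow_zero, one_mul] at h6
      have h7 : B * B = B ^ 2 := by ring
      omega
    have h8 : 2 * (M * B) ≤ L := by linarith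
    omega
  -- L ≤ 4 B M
  have hL4 : L ≤ 4 * B * M := by
    have h2 : L < 2 * B * M + 2 * B := by linarith
    have h3 : 2 * B ≤ 2 * B * M := Nat.le_mul_of_pos_right _ hM1
    linarith
  have hMsq : L * L ≤ 16 * B ^ 2 * M ^ 2 := by
    have h6 : L * L ≤ (4 * B * M) * (4 * B * M) := Nat.mul_le_mul hL4 hL4
    have h7 : (4 * B * M) * (4 * B * M) = 16 * B ^ 2 * M ^ 2 := by ring
    omega
  -- choice of J and z
  set ℓ := Nat.log y L with hℓ
  have hy2 : 2 ≤ y := by omega
  have hsℓ : s ≤ ℓ := by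
    rw [hℓ]
    refine (Nat.le_log_iff_pow_le (by omega) hL0).2 ?_
    calc y ^ s ≤ 2 ^ y := hY1 y (by omega)
      _ ≤ 4 ^ y := Nat.pow_le_pow_left (by norm_num) y
      _ = 16 ^ 0 * B ^ 1 := by rw [pow_zero, one_mul, pow_one]
      _ ≤ L := hBB 0 1 (by norm_num)
  have hℓs : ℓ / s ≠ 0 := by
    have : 1 ≤ ℓ / s := (Nat.one_le_div_iff (by omega)).2 hsℓ
    omega
  set J := Nat.log 2 (ℓ / s) with hJ
  set z := y ^ 2 ^ J with hz
  have hzs : z ^ s ≤ L := by
    rw [hz, ← pow_mul]
    have h1 : 2 ^ J ≤ ℓ / s := Nat.pow_log_le_self 2 hℓs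
    have h2 : 2 ^ J * s ≤ ℓ := (Nat.mul_le_mul_right s h1).trans (Nat.div_mul_le_self ℓ s)
    exact (Nat.pow_le_pow_right (by omega) h2).trans (Nat.pow_log_le_self y hL0)
  have hz2s : L < z ^ (2 * s) := by
    rw [hz, ← pow_mul]
    have h1 : ℓ / s < 2 ^ (J + 1) := Nat.lt_pow_succ_log_self (by norm_num) _
    have h2 : ℓ < 2 ^ J * (2 * s) := by
      have h3 : ℓ / s + 1 ≤ 2 ^ (J + 1) := h1
      have h4 : ℓ < s * (ℓ / s + 1) := Nat.lt_mul_div_succ ℓ (by omega)
      have h5 : s * (ℓ / s + 1) ≤ s * 2 ^ (J + 1) := Nat.mul_le_mul_left s h3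
      have h6 : s * 2 ^ (J + 1) = 2 ^ J * (2 * s) := by rw [pow_succ]; ring
      omega
    have h3 : L < y ^ (ℓ + 1) := Nat.lt_pow_succ_log_self (by omega) L
    exact h3.trans_le (Nat.pow_le_pow_right (by omega) h2)
  have hJ1 : 1 ≤ 2 ^ J := Nat.one_le_two_pow
  have hyz : y ≤ z := by
    calc y = y ^ 1 := (pow_one y).symm
      _ ≤ y ^ 2 ^ J := Nat.pow_le_pow_right (by omega) hJ1
  have hz1 : 1 ≤ z := by omega
  have hzj : ∀ j : ℕ, j ≤ s → z ^ j ≤ L := fun j hj => (Nat.pow_le_pow_right hz1 hj).trans hzs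
  have hzL : z ≤ L := by
    have := hzj 1 (by omega)
    rwa [pow_one] at this
  have hML : z * L ≤ 4 * M ^ 2 := by
    -- (z * 4 B^2)^2 ≤ L^2
    have h1 : z * (4 * B ^ 2) ≤ L := by
      have h2 : (z * (4 * B ^ 2)) ^ 2 ≤ L ^ 2 := by
        have h3 : (z * (4 * B ^ 2)) ^ 2 = z ^ 2 * (16 ^ 1 * B ^ 4) := by ring
        rw [h3, pow_two L]
        exact Nat.mul_le_mul (hzj 2 (by omega)) (hBB 1 4 (by norm_num))
      exact (Nat.pow_le_pow_iff_left (by norm_num)).1 h2
    have h4 : (z * L) * (4 * B ^ 2) ≤ (4 * M ^ 2) * (4 * B ^ 2) := by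
      calc (z * L) * (4 * B ^ 2) = L * (z * (4 * B ^ 2)) := by ring
        _ ≤ L * L := Nat.mul_le_mul_left _ h1
        _ ≤ 16 * B ^ 2 * M ^ 2 := hMsq
        _ = (4 * M ^ 2) * (4 * B ^ 2) := by ring
    exact Nat.le_of_mul_le_mul_right h4 (by positivity)
  have hzM : z ^ (3 * b + 11) ≤ M := by
    have h1 : (z ^ (3 * b + 11)) ^ 2 ≤ M ^ 2 := by
      have h2 : (z ^ (3 * b + 11)) ^ 2 = z ^ s := by rw [← pow_mul, hs]; ring
      rw [h2]
      refine hzs.trans ?_
      have h3 : L * (16 ^ 1 * B ^ 2) ≤ M ^ 2 * (16 ^ 1 * B ^ 2) := by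
        calc L * (16 ^ 1 * B ^ 2) ≤ L * L := Nat.mul_le_mul_left _ (hBB 1 2 (by norm_num))
          _ ≤ 16 * B ^ 2 * M ^ 2 := hMsq
          _ = M ^ 2 * (16 ^ 1 * B ^ 2) := by ring
      exact Nat.le_of_mul_le_mul_right h3 (by positivity)
    exact (Nat.pow_le_pow_iff_left (by norm_num)).1 h1
  -- survivors
  have hzR1 : (1 : ℝ) ≤ z := by exact_mod_cast hz1
  have hzR0 : (0 : ℝ) < z := by linarith
  have hMR : (0 : ℝ) < M := by exact_mod_cast hM1
  set V := Real.exp (-(16 * (k : ℝ))) with hV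
  have hyV : 1 / (y : ℝ) ≤ V := by
    have h1 : Real.exp (16 * k) ≤ y := by
      calc Real.exp (16 * k) ≤ (K0 : ℝ) := Nat.le_ceil _
        _ ≤ y := by exact_mod_cast (by omega : K0 ≤ y)
    rw [hV, Real.exp_neg, one_div]
    exact inv_anti₀ (Real.exp_pos _) h1
  have hyR : (0 : ℝ) < y := by exact_mod_cast (by omega : 0 < y)
  have hVJ : 1 / Real.sqrt z ≤ V ^ J := by
    have h1 : (1 / (y : ℝ)) ^ J ≤ V ^ J := pow_le_pow_left₀ (by positivity) hyV J
    refine le_trans ?_ h1
    rw [one_div_pow]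
    apply one_div_le_one_div_of_le (by positivity)
    apply Real.le_sqrt_of_sq_le
    have h2 : (y ^ J) ^ 2 ≤ z := by
      rw [← pow_mul, hz]
      apply Nat.pow_le_pow_right (by omega)
      have := two_mul_le_two_pow J
      omega
    exact_mod_cast h2
  have hVJz : 1 / (z : ℝ) ≤ V ^ J := by
    refine le_trans ?_ hVJ
    apply one_div_le_one_div_of_le (by positivity)
    rw [Real.sqrt_le_left hzR0.le]
    nlinarith
  have hJz : 4 * (J + 1) ≤ z := by
    have h1 : J + 1 ≤ 2 ^ J := Nat.lt_two_pow_self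
    have h2 : 4 * 2 ^ J ≤ 4 ^ 2 ^ J := by
      have : ∀ m : ℕ, 1 ≤ m → 4 * m ≤ 4 ^ m := by
        intro m hm
        induction m, hm using Nat.le_induction with
        | base => simp
        | succ m hm ih => rw [pow_succ]; omega
      exact this _ hJ1
    have h3 : 4 ^ 2 ^ J ≤ y ^ 2 ^ J := Nat.pow_le_pow_left (by omega) _
    omega
  have hSbound : ∀ Ω : ℕ → Finset ℕ, (∀ p, Ω p ⊆ range p) → (∀ p, (Ω p).card ≤ H.card) →
      (M : ℝ) / 4 * V ^ J ≤ ((surv2 Ω (prs y z) M).card : ℝ) := by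
    intro Ω hΩ hΩk
    have h1 := hb y J M (by omega) Ω hΩ hΩk
    refine le_trans ?_ h1
    have h2 : ((J : ℝ) + 1) * ((y : ℝ) ^ 2 ^ J) ^ (3 * (b + 3)) ≤ (M : ℝ) / 4 * V ^ J := by
      have h3 : (4 * ((J : ℝ) + 1)) * (z : ℝ) ^ (3 * (b + 3)) * z ≤ M := by
        have h4 : 4 * (J + 1) * z ^ (3 * (b + 3)) * z ≤ M := by
          calc 4 * (J + 1) * z ^ (3 * (b + 3)) * z ≤ z * z ^ (3 * (b + 3)) * z :=
                Nat.mul_le_mul_right _ (Nat.mul_le_mul_right _ hJz)
            _ = z ^ (3 * b + 11) := by ring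
            _ ≤ M := hzM
        exact_mod_cast h4
      have h5 : (y : ℝ) ^ 2 ^ J = (z : ℝ) := by rw [hz]; push_cast; rfl
      rw [h5]
      have h6 : (M : ℝ) / 4 * (1 / z) ≤ (M : ℝ) / 4 * V ^ J :=
        mul_le_mul_of_nonneg_left hVJz (by positivity)
      refine le_trans ?_ h6
      rw [mul_one_div, div_div, le_div_iff₀ (by positivity)]
      linarith
    linarith
  have hz64 : 2 ^ (64 * H.card) ≤ z := by rw [← hkdef]; omega
  have hmain := poor_bound' H hA hk N L y z M D hyz hzL hD hsize hz64 hM1 hML _ hSbound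
  refine hmain.trans ?_
  rw [mul_comm]
  refine mul_le_mul_of_nonneg_right ?_ (by positivity)
  apply Real.exp_le_exp.2
  apply neg_le_neg
  have hLpos : (0 : ℝ) < L := by exact_mod_cast Nat.pos_of_ne_zero hL0
  -- lower bound for the exponent
  have h1 : Real.sqrt z / (32 * k) ≤ z / (8 * (H.card : ℝ) * M) * (M / 4 * V ^ J) := by
    have h2 : z / (8 * (H.card : ℝ) * M) * (M / 4 * (1 / Real.sqrt z)) ≤
        z / (8 * (H.card : ℝ) * M) * (M / 4 * V ^ J) := by
      refine mul_le_mul_of_nonneg_left ?_ (by positivity)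
      exact mul_le_mul_of_nonneg_left hVJ (by positivity)
    refine le_trans (le_of_eq ?_) h2
    have h3 : (z : ℝ) = Real.sqrt z * Real.sqrt z := (Real.mul_self_sqrt hzR0.le).symm
    have h4 : 0 < Real.sqrt z := Real.sqrt_pos.2 hzR0
    rw [← hkdef]
    nth_rewrite 2 [h3]
    field_simp
    norm_num
  refine le_trans ?_ h1
  -- sqrt z ≥ L^(1/(4s))
  have h5 : (L : ℝ) ^ (1 / (4 * (s : ℝ))) ≤ Real.sqrt z := by
    have h6 : (L : ℝ) ≤ (z : ℝ) ^ ((2 * s : ℕ) : ℝ) := by
      rw [Real.rpow_natCast]; exact_mod_cast hz2s.le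
    have h7 : (L : ℝ) ^ (1 / (4 * (s : ℝ))) ≤ ((z : ℝ) ^ ((2 * s : ℕ) : ℝ)) ^ (1 / (4 * (s : ℝ))) :=
      Real.rpow_le_rpow hLpos.le h6 (by positivity)
    rw [← Real.rpow_mul hzR0.le] at h7
    have h8 : ((2 * s : ℕ) : ℝ) * (1 / (4 * (s : ℝ))) = 1 / 2 := by
      push_cast; field_simp; norm_num
    rw [h8, ← Real.sqrt_eq_rpow] at h7
    exact h7
  have h9 : (L : ℝ) ^ (1 / (8 * (s : ℝ))) * (32 * k) ≤ (L : ℝ) ^ (1 / (4 * (s : ℝ))) := by
    have h10 := hL1 L hLb
    have h11 : (L : ℝ) ^ (1 / (4 * (s : ℝ))) = (L : ℝ) ^ (1 / (8 * (s : ℝ))) *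
        (L : ℝ) ^ (1 / (4 * (s : ℝ)) - 1 / (8 * s)) := by
      rw [← Real.rpow_add hLpos]; congr 1; ring
    rw [h11]
    exact mul_le_mul_of_nonneg_left h10 (by positivity)
  rw [le_div_iff₀ (by positivity)]
  exact h9.trans h5

open Classical in
/-- zero-one law, stretched exponential form -/
theorem zero_one' : ((∀ H : Finset ℕ, 0 ∈ H → Adm H → Set.Infinite {n : ℕ | Real H n}) ∧
      ∀ L a, Good L a) ∨
    ∃ c : ℝ, 0 < c ∧ ∃ L0 : ℕ, ∀ L ≥ L0,
      (((range (primorial L)).filter (fun a => Good L a)).card : ℝ) ≤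
        Real.exp (-(L : ℝ) ^ c) * primorial L := by
  by_cases hQ : ∀ H : Finset ℕ, 0 ∈ H → Adm H → Set.Infinite {n : ℕ | Real H n}
  · exact Or.inl ⟨hQ, good_of_real hQ⟩
  · right
    push Not at hQ
    obtain ⟨H, h0, hA, hfin⟩ := hQ
    obtain ⟨H', hA', hk', N, hN⟩ := good_le_poor H h0 hA (Set.not_infinite.2 hfin)
    obtain ⟨c, hc, L0, hL0⟩ := abundance' H' hA' hk' N
    refine ⟨c, hc, L0, fun L hL => ?_⟩
    refine le_trans ?_ (hL0 L hL)
    exact_mod_cast hN L

end Pool.Agent.Helper1.ZeroOne
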