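import Pool.Agent.Helper1.ZeroOneE

set_option autoImplicit false

open Finset

namespace Pool.Agent.Helper1.ZeroOne

/-- admissibility is kept when `0` is added in front of a far translate -/
lemma adm_shift (H : Finset ℕ) (h0 : 0 ∈ H) (hA : Adm H) (m : ℕ) :
    Adm (insert 0 (H.image (fun h => h + (m + 1) * primorial (H.card + 1)))) := by
  classical
  intro p hp
  by_cases hpB : p ≤ H.card + 1
  · obtain ⟨r, hr, hr2⟩ := hA p hp
    have hdvd : p ∣ (m + 1) * primorial (H.card + 1) := by
      apply Dvd.dvd.mul_left
      unfold primorial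
      exact dvd_prod_of_mem (fun p : ℕ => p) (mem_filter.2 ⟨mem_range.2 (by omega), hp⟩)
    refine ⟨r, hr, fun h hh => ?_⟩
    rcases mem_insert.1 hh with rfl | hh
    · exact hr2 0 h0
    · rw [mem_image] at hh
      obtain ⟨g, hg, rfl⟩ := hh
      obtain ⟨q, hq⟩ := hdvd
      rw [hq, Nat.add_mul_mod_self_left]
      exact hr2 g hg
  · apply admissible_of_card
    refine lt_of_le_of_lt (card_insert_le _ _) ?_
    have : (H.image (fun h => h + (m + 1) * primorial (H.card + 1))).card ≤ H.card :=
      card_image_le
    omega

lemma no_primes_run (L N : ℕ) : ∃ n > N, ∀ j < L, ¬ (n + j).Prime := by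
  refine ⟨(N + 1) * (L + 1).factorial + 2, ?_, ?_⟩
  · have : (N + 1) * 1 ≤ (N + 1) * (L + 1).factorial :=
      Nat.mul_le_mul_left _ (Nat.factorial_pos _)
    omega
  · intro j hj hp
    have h1 : j + 2 ∣ (N + 1) * (L + 1).factorial :=
      Dvd.dvd.mul_left (Nat.dvd_factorial (by omega) (by omega)) _
    have h2 : j + 2 ∣ (N + 1) * (L + 1).factorial + 2 + j := by
      have : (N + 1) * (L + 1).factorial + 2 + j = (N + 1) * (L + 1).factorial + (j + 2) := by ring
      rw [this]
      exact Dvd.dvd.add h1 dvd_rfl
    have h3 := (Nat.dvd_prime hp).1 h2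
    have h4 : 0 < (N + 1) * (L + 1).factorial := by positivity
    omega

/-- if every admissible pattern is realised infinitely often by consecutive primes, then every
sieved pattern is the exact pattern of primes in infinitely many windows -/
lemma exact_of_real (hQ : ∀ H : Finset ℕ, 0 ∈ H → Adm H → Set.Infinite {n : ℕ | Real H n})
    (L a : ℕ) :
    Set.Infinite {n : ℕ | ∀ j < L, ((n + j).Prime ↔ Nat.Coprime (a + j) (primorial L))} := by
  classical
  set G := (range L).filter (fun j => Nat.Coprime (a + j) (primorial L)) with hG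
  rcases G.eq_empty_or_nonempty with hGe | hGne
  · rw [Set.infinite_iff_exists_gt]
    intro N
    obtain ⟨n, hn, hnp⟩ := no_primes_run L N
    refine ⟨n, fun j hj => ⟨fun h => absurd h (hnp j hj), fun h => ?_⟩, hn⟩
    exfalso
    have : j ∈ G := by rw [hG, mem_filter, mem_range]; exact ⟨hj, h⟩
    rw [hGe] at this
    exact notMem_empty _ this
  · set j0 := G.min' hGne with hj0
    have hj0G : j0 ∈ G := min'_mem _ _
    have hmin : ∀ j ∈ G, j0 ≤ j := fun j hj => min'_le _ _ hj
    have hj0L : j0 < L := mem_range.1 (mem_filter.1 hj0G).1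
    set H := G.image (fun j => j - j0) with hH
    have h0 : 0 ∈ H := by
      rw [hH, mem_image]; exact ⟨j0, hj0G, by simp⟩
    have hA : Adm H := by
      intro p hp
      by_cases hpL : p ≤ L
      · have hpd : p ∣ primorial L := by
          unfold primorial
          exact dvd_prod_of_mem (fun p : ℕ => p) (mem_filter.2 ⟨mem_range.2 (by omega), hp⟩)
        set b := (p - (a + j0) % p) % p with hb
        have hq0 := hp.pos
        refine ⟨b, Nat.mod_lt _ hq0, ?_⟩
        intro h hh hcon
        rw [hH, mem_image] at hh
        obtain ⟨j, hj, rfl⟩ := hh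
        have hle := hmin j hj
        have hj' := (mem_filter.1 hj).2
        have h1 : ¬ p ∣ a + j := by
          intro hd
          exact Nat.Prime.not_coprime_iff_dvd.2 ⟨p, hp, hd, hpd⟩ hj'
        apply h1
        have h2 : a + j0 + b ≡ 0 [MOD p] := by
          have h3 : (a + j0) + (p - (a + j0) % p) ≡ 0 [MOD p] := by
            rw [Nat.modEq_zero_iff_dvd]
            have h4 : (a + j0) + (p - (a + j0) % p) = p * ((a + j0) / p) + p := by
              have h5 := Nat.div_add_mod (a + j0) p
              have h6 := Nat.mod_lt (a + j0) hq0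
              omega
            rw [h4]
            exact Dvd.intro _ (by ring : p * ((a + j0) / p + 1) = p * ((a + j0) / p) + p)
          exact ((Nat.mod_modEq (p - (a + j0) % p) p).add_left (a + j0)).trans h3
        have h7 : (j - j0) ≡ b [MOD p] := by
          rw [Nat.ModEq, hcon, Nat.mod_mod]
        have h8 : a + j0 + (j - j0) ≡ 0 [MOD p] := (h7.add_left (a + j0)).trans h2
        have h9 : a + j0 + (j - j0) = a + j := by omega
        rw [h9] at h8
        exact Nat.modEq_zero_iff_dvd.1 h8
      · apply admissible_of_card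
        have h1 : H.card ≤ G.card := card_image_le
        have h2 : G.card ≤ L := by
          refine (card_filter_le _ _).trans ?_
          simp
        omega
    -- far translate
    set K := (L + 1) * primorial (H.card + 1) with hK
    have hKL : L < K := by
      have : (L + 1) * 1 ≤ (L + 1) * primorial (H.card + 1) :=
        Nat.mul_le_mul_left _ (primorial_pos _)
      omega
    set H2 := insert 0 (H.image (fun h => h + K)) with hH2
    have hA2 : Adm H2 := adm_shift H h0 hA L
    have h02 : 0 ∈ H2 := mem_insert_self _ _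
    -- positions to be made composite
    set C := ((range L).filter (fun j => j ∉ G)).image (fun j => K - j0 + j) with hC
    have hCH : ∀ c ∈ C, c ∉ H2 := by
      intro c hc hcon
      rw [hC, mem_image] at hc
      obtain ⟨j, hj, rfl⟩ := hc
      have hjG := (mem_filter.1 hj).2
      rcases mem_insert.1 hcon with h | h
      · omega
      · rw [mem_image] at h
        obtain ⟨h', hh', he⟩ := h
        rw [hH, mem_image] at hh'
        obtain ⟨g, hg, rfl⟩ := hh'
        have := hmin g hg
        have : j = g := by omega
        rw [this] at hjG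
        exact hjG hg
    obtain ⟨H3, hsub, hA3, -, Q, hQ3⟩ := force_many C (K + L) H2 h02 hA2 hCH (by
      intro c hc
      rw [hC, mem_image] at hc
      obtain ⟨j, hj, rfl⟩ := hc
      have := mem_range.1 (mem_filter.1 hj).1
      omega)
    rw [Set.infinite_iff_exists_gt]
    intro N
    obtain ⟨n, hn, hnN⟩ := (hQ H3 (hsub h02) hA3).exists_gt (max Q N)
    have hnQ : n > Q := lt_of_le_of_lt (le_max_left _ _) hnN
    have hnN' : n > N := lt_of_le_of_lt (le_max_right _ _) hnN
    refine ⟨n + (K - j0), fun j hj => ?_, by omega⟩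
    constructor
    · intro hp
      by_contra hco
      have hjG : j ∉ G := fun h => hco (mem_filter.1 h).2
      have hc : K - j0 + j ∈ C := by
        rw [hC, mem_image]
        exact ⟨j, mem_filter.2 ⟨mem_range.2 hj, hjG⟩, rfl⟩
      refine hQ3 n hnQ (fun h hh => hn.1 h hh) _ hc ?_
      rwa [← add_assoc]
    · intro hco
      have hjG : j ∈ G := mem_filter.2 ⟨mem_range.2 hj, hco⟩
      have h1 : (j - j0) + K ∈ H2 := by
        apply mem_insert_of_mem
        rw [mem_image]
        exact ⟨j - j0, by rw [hH, mem_image]; exact ⟨j, hjG, rfl⟩, rfl⟩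
      have h2 := hn.1 _ (hsub h1)
      have h3 := hmin j hjG
      have h4 : n + (j - j0 + K) = n + (K - j0) + j := by omega
      rwa [h4] at h2

open Classical in
/-- zero-one law, stretched exponential form, with the strong conclusion in the first case -/
theorem zero_one'' : ((∀ H : Finset ℕ, 0 ∈ H → Adm H → Set.Infinite {n : ℕ | Real H n}) ∧
      ∀ L a : ℕ,
        Set.Infinite {n : ℕ | ∀ j < L, ((n + j).Prime ↔ Nat.Coprime (a + j) (primorial L))}) ∨
    ∃ c : ℝ, 0 < c ∧ ∃ L0 : ℕ, ∀ L ≥ L0,
      (((range (primorial L)).filter (fun a => Good L a)).card : ℝ) ≤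
        Real.exp (-(L : ℝ) ^ c) * primorial L := by
  rcases zero_one' with h | h
  · exact Or.inl ⟨h.1, exact_of_real h.1⟩
  · exact Or.inr h

end Pool.Agent.Helper1.ZeroOne
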